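import Mathlib
import Pool.Agent.NHE.Pth
import Pool.Agent.NHR.Defs

/-!
# NHX/Dict: the two languages for paths (`RepI` of block E, `PathOn`, `Hmt`, `cat`, `seg` of block R)
-/

open scoped Manifold ContDiff Topology
open Set Filter
open Pool.Agent.RSG (E3 ex Thick)
open Pool.Agent.NHP
open Pool.Agent.NHE (RepI)
open Pool.Agent.NHR (PathOn Hmt cat rv seg mer cor)

namespace Pool.Agent.NHX

variable {N : Type*} [TopologicalSpace N] {Y : Set N} {y y' y'' : Y} {f g : ℝ → N}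

theorem dict_rep {c : Path y y'} : RepI f 0 1 c ↔ Rep f c := by
  unfold RepI
  have h : (fun t : ℝ => f (0 + t * (1 - 0))) = f := by
    funext t
    rw [zero_add, sub_zero, mul_one]
  rw [h]

theorem rI_hmt {c : Path y y'} (h : RepI f 0 1 c) (h' : RepI g 0 1 c) : Hmt Y f g := by
  rw [dict_rep] at h h'
  obtain ⟨γ, h1, h2⟩ := h
  obtain ⟨δ, h3, h4⟩ := h'
  obtain ⟨F⟩ := h2.trans h4.symm
  refine ⟨fun q => (F (projIcc 0 1 zero_le_one q.1, projIcc 0 1 zero_le_one q.2) : N), ?_, fun q _ => (F _).2, ?_, ?_⟩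
  · refine Continuous.continuousOn ?_
    exact continuous_subtype_val.comp (F.continuous.comp
      ((continuous_projIcc.comp continuous_fst).prodMk (continuous_projIcc.comp continuous_snd)))
  · intro t ht
    constructor
    · show (F (projIcc 0 1 zero_le_one 0, projIcc 0 1 zero_le_one t) : N) = f t
      have e : (projIcc (0 : ℝ) 1 zero_le_one 0) = 0 := projIcc_left _
      rw [e, F.apply_zero, projIcc_of_mem _ ht]
      exact h1 ⟨t, ht⟩
    · show (F (projIcc 0 1 zero_le_one 1, projIcc 0 1 zero_le_one t) : N) = g t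
      have e : (projIcc (0 : ℝ) 1 zero_le_one 1) = 1 := projIcc_right _
      rw [e, F.apply_one, projIcc_of_mem _ ht]
      exact h3 ⟨t, ht⟩
  · intro s hs
    constructor
    · show (F (projIcc 0 1 zero_le_one s, projIcc 0 1 zero_le_one 0) : N) = f 0
      have e : (projIcc (0 : ℝ) 1 zero_le_one 0) = 0 := projIcc_left _
      rw [e, F.source]
      have := h1 0
      rw [γ.source] at this
      exact this
    · show (F (projIcc 0 1 zero_le_one s, projIcc 0 1 zero_le_one 1) : N) = f 1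
      have e : (projIcc (0 : ℝ) 1 zero_le_one 1) = 1 := projIcc_right _
      rw [e, F.target]
      have := h1 1
      rw [γ.target] at this
      exact this

theorem path_rI (h : PathOn Y f) (h0 : f 0 = y) (h1 : f 1 = y') : ∃ c : Path y y', RepI f 0 1 c := by
  refine NHE.exists_repI ?_ ?_ h0 h1
  · rw [uIcc_of_le zero_le_one]
    exact h.1
  · rw [uIcc_of_le zero_le_one]
    exact h.2

theorem rI_path {c : Path y y'} (h : RepI f 0 1 c) : PathOn Y f := by
  obtain ⟨h1, h2, _⟩ := NHE.repI_cont h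
  rw [uIcc_of_le zero_le_one] at h1 h2
  exact ⟨h1, h2⟩

theorem hmt_rI {c : Path y y'} (h : Hmt Y f g) (h' : RepI f 0 1 c) : RepI g 0 1 c := by
  obtain ⟨H, hc, hY, h01, hends⟩ := h
  obtain ⟨hf, hfY, f0, f1⟩ := NHE.repI_cont h'
  have I0 : (0 : ℝ) ∈ Icc (0 : ℝ) 1 := ⟨le_refl _, zero_le_one⟩
  have I1 : (1 : ℝ) ∈ Icc (0 : ℝ) 1 := ⟨zero_le_one, le_refl _⟩
  have e0 : ∀ s ∈ Icc (0 : ℝ) 1, H (s, 0) = y := fun s hs => (hends s hs).1.trans f0
  have e1 : ∀ s ∈ Icc (0 : ℝ) 1, H (s, 1) = y' := fun s hs => (hends s hs).2.trans f1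
  have gc : ContinuousOn g (Icc 0 1) := by
    have h1 : ContinuousOn (fun t : ℝ => H (1, t)) (Icc 0 1) :=
      hc.comp (f := fun t : ℝ => ((1 : ℝ), t)) (by fun_prop) fun t ht => ⟨I1, ht⟩
    exact h1.congr fun t ht => ((h01 t ht).2).symm
  have gp : PathOn Y g := ⟨gc, fun t ht => by rw [← (h01 t ht).2]; exact hY (1, t) ⟨I1, ht⟩⟩
  have g0 : g 0 = y := by rw [← (h01 0 I0).2]; exact e0 1 I1
  have g1 : g 1 = y' := by rw [← (h01 1 I1).2]; exact e1 1 I1
  obtain ⟨d, hd⟩ := path_rI gp g0 g1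
  have r0 : Rep (fun t => H (0, t)) c := dict_rep.1 (NHE.repI_congr h' fun t ht => by
    rw [uIcc_of_le zero_le_one] at ht
    exact (h01 t ht).1)
  have r1 : Rep (fun t => H (1, t)) d := dict_rep.1 (NHE.repI_congr hd fun t ht => by
    rw [uIcc_of_le zero_le_one] at ht
    exact (h01 t ht).2)
  have q0 : Rep (fun s => H (s, 0)) (Path.refl y) := dict_rep.1 (NHE.repI_const fun s hs => by
    rw [uIcc_of_le zero_le_one] at hs
    exact e0 s hs)
  have q1 : Rep (fun s => H (s, 1)) (Path.refl y') := dict_rep.1 (NHE.repI_const fun s hs => by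
    rw [uIcc_of_le zero_le_one] at hs
    exact e1 s hs)
  have key := NHE.rep_square hc hY r0 r1 q0 q1
  have k1 : ((Path.refl y).trans d).Homotopic d := ⟨Path.Homotopy.reflTrans d⟩
  have k2 : (c.trans (Path.refl y')).Homotopic c := ⟨Path.Homotopy.transRefl c⟩
  have h2 : d.Homotopic c := k1.symm.trans (key.trans k2)
  exact (NHE.repI_iff hd).2 h2

theorem rI_cat {c : Path y y'} {c' : Path y' y''} (h : RepI f 0 1 c) (h' : RepI g 0 1 c') :
    RepI (cat f g) 0 1 (c.trans c') := by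
  rw [dict_rep] at h h' ⊢
  obtain ⟨γ, h1, h2⟩ := h
  obtain ⟨δ, h3, h4⟩ := h'
  refine ⟨γ.trans δ, fun t => ?_, h2.hcomp h4⟩
  rw [Path.trans_apply]
  unfold cat
  split_ifs with hc
  · exact h1 ⟨2 * t, _⟩
  · exact h3 ⟨2 * t - 1, _⟩

theorem rI_seg {κ : ℝ × ℂ → N} {p a b : ℝ} {c : Path y y'} :
    RepI (seg κ (p, (a : ℂ)) (p, (b : ℂ))) 0 1 c ↔ RepI (fun t => κ (p, (t : ℂ))) a b c := by
  rw [dict_rep]
  unfold RepI
  have h : (fun t : ℝ => κ (p, ((a + t * (b - a) : ℝ) : ℂ))) = seg κ (p, (a : ℂ)) (p, (b : ℂ)) := by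
    funext t
    unfold seg
    congr 1
    refine Prod.ext ?_ ?_
    · show p = (1 - t) * p + t * p
      ring
    · show ((a + t * (b - a) : ℝ) : ℂ) = (1 - t) • (a : ℂ) + t • (b : ℂ)
      rw [Complex.real_smul, Complex.real_smul]
      push_cast
      ring
  rw [h]

theorem rI_segl {κ : ℝ × ℂ → N} {p q r : ℝ} {c : Path y y'} :
    RepI (seg κ (p, (r : ℂ)) (q, (r : ℂ))) 0 1 c ↔ RepI (fun l => κ (l, (r : ℂ))) p q c := by
  rw [dict_rep]
  unfold RepI
  have h : (fun t : ℝ => κ (p + t * (q - p), (r : ℂ))) = seg κ (p, (r : ℂ)) (q, (r : ℂ)) := by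
    funext t
    unfold seg
    congr 1
    refine Prod.ext ?_ ?_
    · show p + t * (q - p) = (1 - t) * p + t * q
      ring
    · show (r : ℂ) = (1 - t) • (r : ℂ) + t • (r : ℂ)
      rw [Complex.real_smul, Complex.real_smul]
      push_cast
      ring
  rw [h]

theorem rI_cor {T : E → N} {c : Path y y'} : RepI (cor T) 0 1 c ↔ RepI (fun x => T (0, x)) (1 / 8) (7 / 8) c := by
  rw [dict_rep]
  unfold RepI
  have h : (fun t : ℝ => T (0, 1 / 8 + t * (7 / 8 - 1 / 8))) = cor T := by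
    funext t
    unfold cor
    congr 2
    ring
  rw [h]

theorem rI_mer {κ : ℝ × ℂ → N} {p r : ℝ} {c : Path y y'} :
    RepI (mer κ p r) 0 1 c ↔ RepI (fun t => κ (p, (r : ℂ) * ex t)) 0 1 c := Iff.rfl

end Pool.Agent.NHX
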