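import Mathlib
import Pool.Agent.NHQ.AvB
import Pool.Agent.NHQ.Sg
import Pool.Agent.NHX.Dict

/-!
# NHX/Xav: general position of paths in an open set: the field `Avd` of `Ext` (difficulty 3)

`avoid_rel`: the RELATIVE version of `avoid` (NHQ/Avd, helper21: /team-store/nhq_Avd.lean when it is there): same proof, but all charts of the subdivision have their image in `Y` (`exists_chart` with `Y`), and all homotopies are in `Y`: the calculus `cl`, `PC` of NHQ/Sg is applied to the topological space `Y` (subtype) in place of `N`.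
(i) `c : Path y y'` in `Y`; Lebesgue number: `0 = t₀ ≤ .. ≤ t_n = 1`, charts `β_i` on `ball 0 2` with image in `Y`, `c '' [t_i, t_{i+1}] ⊆ B_i = β_i '' ball 0 1`.  Induction: a point `y_i ∈ B_i ∩ B_{i-1}` off the arcs, a path `d_i` in `Y` from `y` to `y_i` off the arcs, a path `e_i` from `c t_i` to `y_i` inside `B_i ∩ B_{i-1}`, `cl d_i = [c | 0 → t_i] ≫ cl e_i`;
step by `avoid_dense` (a small chart ball around `c t_{i+1}` inside `B_i ∩ B_{i+1}`) and `avoid_ball`; paths in a ball with the same ends are homotopic (`PC.convex`).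
`ext_Avd`: arcs `A n = (fun x => T n (0, x)) '' Icc (-(1/5)) (6/5)`, `n : Fin m` (`arc_chord` has the interval `[0, 1]`; same proof: `(0, x) ∈ TD` for `-1/4 < x < 5/4`), `Y = (core κ)ᶜ` open (`core κ` is compact: `arc_core`, `Arc.compact`).  `c` = class of `f` (`path_rI`); `g t = c' (projIcc t)`; `rI_hmt`.
-/

open scoped Manifold ContDiff Topology
open Set Filter CategoryTheory
open Pool.Agent.RSG (E3 ex Thick)
open Pool.Agent.NHP
open Pool.Agent.NHQ (Arc PC cl)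
open Pool.Agent.NHR (PathOn Hmt)

namespace Pool.Agent.NHX

variable {N : Type*} [TopologicalSpace N] [ChartedSpace E3 N] [IsManifold (𝓡 3) ∞ N] [T2Space N]

/-- a chart with image in `Y`, as a map to `Y` -/
theorem xav_lift {Y : Set N} {β : E → N} (hβ : Cht (Metric.ball 0 2) β) (hβY : β '' Metric.ball 0 2 ⊆ Y) (y0 : Y) :
    ∃ b : E → Y, ContinuousOn b (Metric.ball 0 2) ∧ ∀ x ∈ Metric.ball (0 : E) 2, (b x : N) = β x := by
  classical
  have h1 : ∀ x ∈ Metric.ball (0 : E) 2, ((fun x => if h : β x ∈ Y then (⟨β x, h⟩ : Y) else y0) x : N) = β x := by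
    intro x hx
    have h2 : β x ∈ Y := hβY (mem_image_of_mem β hx)
    show ((if h : β x ∈ Y then (⟨β x, h⟩ : Y) else y0 : Y) : N) = β x
    rw [dif_pos h2]
  refine ⟨fun x => if h : β x ∈ Y then (⟨β x, h⟩ : Y) else y0, ?_, h1⟩
  rw [continuousOn_iff_continuous_domRestrict]
  rw [continuous_induced_rng]
  have h3 : (Subtype.val : Y → N) ∘ (Metric.ball (0 : E) 2).domRestrict
      (fun x => if h : β x ∈ Y then (⟨β x, h⟩ : Y) else y0) = (Metric.ball (0 : E) 2).domRestrict β := by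
    funext x
    exact h1 x x.2
  rw [h3]
  exact continuousOn_iff_continuous_domRestrict.1 hβ.contOn

/-- paths in a chart ball are homotopic in `Y` -/
theorem xav_ball {Y : Set N} {β : E → N} (hβ : Cht (Metric.ball 0 2) β) (hβY : β '' Metric.ball 0 2 ⊆ Y) {a b : Y}
    (p q : Path a b) (hp : ∀ t, (p t : N) ∈ β '' Metric.ball 0 1) (hq : ∀ t, (q t : N) ∈ β '' Metric.ball 0 1) :
    cl p = cl q := by
  obtain ⟨g, hgβ, hg⟩ := hβ.inv
  obtain ⟨F, hF, hF2⟩ := xav_lift hβ hβY a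
  have hsub : Metric.ball (0 : E) 1 ⊆ Metric.ball 0 2 := Metric.ball_subset_ball (by norm_num)
  have h1 : ∀ r : Path a b, (∀ t, (r t : N) ∈ β '' Metric.ball 0 1) → ∀ t ∈ Icc (0 : ℝ) 1,
      (r.extend t : N) ∈ β '' Metric.ball 0 1 := by
    intro r hr t ht
    rw [Path.extend_apply r ht]
    exact hr _
  have h2 : ∀ r : Path a b, (∀ t, (r t : N) ∈ β '' Metric.ball 0 1) →
      ContinuousOn (fun t => g (r.extend t : N)) (Icc 0 1) := by
    intro r hr t ht
    have h3 : (r.extend t : N) ∈ β '' Metric.ball 0 2 := image_mono hsub (h1 r hr t ht)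
    exact ((hg _ h3).continuousAt.comp (f := fun t : ℝ => (r.extend t : N))
      (continuous_subtype_val.comp r.continuous_extend).continuousAt).continuousWithinAt
  have h4 : ∀ r : Path a b, (∀ t, (r t : N) ∈ β '' Metric.ball 0 1) → ∀ t ∈ Icc (0 : ℝ) 1,
      g (r.extend t : N) ∈ Metric.ball (0 : E) 1 ∧ F (g (r.extend t : N)) = r.extend t := by
    intro r hr t ht
    obtain ⟨z, hz, hz2⟩ := h1 r hr t ht
    rw [← hz2, hgβ z (hsub hz)]
    refine ⟨hz, Subtype.ext ?_⟩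
    rw [hF2 z (hsub hz), hz2]
  have h5 : ∀ r : Path a b, (∀ t, (r t : N) ∈ β '' Metric.ball 0 1) →
      PC (fun t => F (g (r.extend t : N))) (cl r) := by
    intro r hr
    refine Pool.Agent.NHQ.PC.congr (f := fun t => r.extend t) ⟨r, fun t => (Path.extend_apply r t.2).symm, rfl⟩ ?_
    intro t ht
    exact (h4 r hr t ht).2
  refine Pool.Agent.NHQ.PC.unique (Pool.Agent.NHQ.PC.convex (F := F) (convex_ball (0 : E) 1) (hF.mono hsub) (h2 p hp) (h2 q hq)
    (fun t ht => (h4 p hp t ht).1) (fun t ht => (h4 q hq t ht).1) ?_ ?_ (h5 p hp)) (h5 q hq)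
  · show g (p.extend 0 : N) = g (q.extend 0 : N)
    rw [p.extend_zero, q.extend_zero]
  · show g (p.extend 1 : N) = g (q.extend 1 : N)
    rw [p.extend_one, q.extend_one]

/-- a path of `N` with values in `Y` -/
theorem xav_sub {Y : Set N} {a b : Y} (d : Path (a : N) (b : N)) (hd : ∀ t, d t ∈ Y) :
    ∃ d' : Path a b, ∀ t, (d' t : N) = d t :=
  ⟨⟨⟨fun t => ⟨d t, hd t⟩, d.continuous.subtype_mk hd⟩, Subtype.ext d.source, Subtype.ext d.target⟩, fun _ => rfl⟩

/-- the claim of the induction -/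
def xav_P {Y : Set N} {ι : Type*} (A : ι → Set N) {y y' : Y} (g : Path y y') (s : unitInterval) : Prop :=
  ∀ O : Set N, IsOpen O → (g s : N) ∈ O → ∃ z : Y, (z : N) ∈ O ∧ (∀ i, (z : N) ∉ A i) ∧
    ∃ (c : Path (g 0) z) (e : Path (g s) z),
      (∀ t i, (c t : N) ∉ A i) ∧ (∀ t, (e t : N) ∈ O) ∧ cl c = cl (g.subpath 0 s) ≫ cl e

theorem xav_trans {M : Type*} [TopologicalSpace M] {a b c : M} (p : Path a b) (q : Path b c) {S : Set M}
    (hp : ∀ t, p t ∈ S) (hq : ∀ t, q t ∈ S) (t : unitInterval) : (p.trans q) t ∈ S := by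
  have h3 : (p.trans q) t ∈ range p ∪ range q := by
    have : (p.trans q) t ∈ range (p.trans q) := mem_range_self t
    rw [Path.trans_range] at this
    exact this
  rcases h3 with ⟨s, hs⟩ | ⟨s, hs⟩
  · rw [← hs]
    exact hp s
  · rw [← hs]
    exact hq s

theorem xav_step {Y : Set N} {ι : Type*} [Finite ι] {A : ι → Set N}
    (hA : ∀ i, Arc (A i)) {y y' : Y} (g : Path y y') {s s' : unitInterval} (hs : xav_P A g s)
    {β : E → N} (hβ : Cht (Metric.ball 0 2) β) (hβY : β '' Metric.ball 0 2 ⊆ Y)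
    (hgβ : ∀ t ∈ uIcc s s', (g t : N) ∈ β '' Metric.ball 0 1) :
    xav_P A g s' := by
  intro O hO hsO
  have hsub : β '' Metric.ball (0 : E) 1 ⊆ Y :=
    (image_mono (Metric.ball_subset_ball (by norm_num))).trans hβY
  have hB : IsOpen (β '' Metric.ball 0 1) :=
    hβ.img Metric.isOpen_ball (Metric.ball_subset_ball (by norm_num))
  obtain ⟨β', hβ', hβO, hβ0⟩ := exists_chart (hO.inter hB) (y := (g s' : N)) ⟨hsO, hgβ s' right_mem_uIcc⟩
  obtain ⟨z', ⟨u, hu, hu2⟩, hz'⟩ := Pool.Agent.NHQ.avoid_dense hA (W := β' '' Metric.ball 0 2)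
    (hβ'.img Metric.isOpen_ball subset_rfl) ⟨β' 0, mem_image_of_mem _ (Metric.mem_ball_self two_pos)⟩
  obtain ⟨e₀, he₀⟩ : JoinedIn (β' '' Metric.ball 0 2) (g s' : N) z' := by
    have h1 : IsPathConnected (β' '' Metric.ball 0 2) :=
      ((convex_ball (0 : E) 2).isPathConnected ⟨0, Metric.mem_ball_self two_pos⟩).image' hβ'.contOn
    exact h1.joinedIn (g s' : N) ⟨0, Metric.mem_ball_self two_pos, hβ0⟩ z' ⟨u, hu, hu2⟩
  have hz'B : z' ∈ β '' Metric.ball 0 1 := (hβO ⟨u, hu, hu2⟩).2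
  obtain ⟨e', he'⟩ := xav_sub (Y := Y) (a := g s') (b := ⟨z', hsub hz'B⟩) e₀ (fun t => hsub (hβO (he₀ t)).2)
  obtain ⟨z, hzO, hzA, c, e, hcA, heO, hcl⟩ := hs _ hB (hgβ s left_mem_uIcc)
  obtain ⟨d₀, hd1, hd2⟩ := Pool.Agent.NHQ.avoid_ball hA hβ hzO hz'B hzA hz'
  obtain ⟨d, hd⟩ := xav_sub (Y := Y) (a := z) (b := ⟨z', hsub hz'B⟩) d₀ (fun t => hsub (hd1 t))
  refine ⟨⟨z', hsub hz'B⟩, (hβO ⟨u, hu, hu2⟩).1, hz', c.trans d, e', ?_, ?_, ?_⟩
  · intro t i
    have h2 : (c.trans d) t ∈ (Subtype.val ⁻¹' (A i)ᶜ : Set Y) := xav_trans c d (fun t => hcA t i)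
      (fun t => by
        show (d t : N) ∈ (A i)ᶜ
        rw [hd t]
        exact hd2 t i) t
    exact h2
  · intro t
    rw [he' t]
    exact (hβO (he₀ t)).1
  · have h3 : cl e ≫ cl d = cl (g.subpath s s') ≫ cl e' := by
      rw [← Pool.Agent.NHQ.cl_trans, ← Pool.Agent.NHQ.cl_trans]
      refine xav_ball hβ hβY _ _
        (xav_trans (S := Subtype.val ⁻¹' (β '' Metric.ball 0 1)) e d heO (fun t => ?_))
        (xav_trans (S := Subtype.val ⁻¹' (β '' Metric.ball 0 1)) _ e' ?_ (fun t => ?_))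
      · show (d t : N) ∈ β '' Metric.ball 0 1
        rw [hd t]
        exact hd1 t
      · intro t
        have h4 : (g.subpath s s') t ∈ range (g.subpath s s') := mem_range_self t
        rw [Path.range_subpath] at h4
        obtain ⟨r, hr, hr2⟩ := h4
        rw [← hr2]
        exact hgβ r hr
      · show (e' t : N) ∈ β '' Metric.ball 0 1
        rw [he' t]
        exact (hβO (he₀ t)).2
    rw [Pool.Agent.NHQ.cl_trans, hcl, Category.assoc, h3, ← Category.assoc, ← Pool.Agent.NHQ.cl_trans]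
    rw [Pool.Agent.NHQ.cl_eq ⟨Path.Homotopy.subpathTransSubpath g 0 s s'⟩]

theorem xav_cast {M : Type*} [TopologicalSpace M] {a b a' b' : M} (ha : a' = a) (hb : b' = b) (c : Path a b)
    (d : Path a' b') (h : cl c = cl (d.cast ha.symm hb.symm)) : cl (c.cast ha hb) = cl d := by
  subst ha
  subst hb
  exact h

theorem avoid_rel {Y : Set N} (hY : IsOpen Y) {ι : Type*} [Finite ι] {A : ι → Set N} (hA : ∀ i, Arc (A i)) {y y' : Y}
    (hy : ∀ i, (y : N) ∉ A i) (hy' : ∀ i, (y' : N) ∉ A i) (c : Path y y') :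
    ∃ c' : Path y y', c.Homotopic c' ∧ ∀ t i, (c' t : N) ∉ A i := by
  classical
  set g := c with hgdef
  have hch : ∀ t : unitInterval, ∃ β : E → N, Cht (Metric.ball 0 2) β ∧
      β '' Metric.ball 0 2 ⊆ Y ∧ β 0 = (g t : N) := fun t => exists_chart hY (g t).2
  choose β hβ hβY hβ0 using hch
  have hopen : ∀ i : unitInterval, IsOpen ((fun t => (g t : N)) ⁻¹' (β i '' Metric.ball 0 1)) := fun i =>
    ((hβ i).img Metric.isOpen_ball (Metric.ball_subset_ball (by norm_num))).preimage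
      (continuous_subtype_val.comp g.continuous)
  have hcov : (univ : Set unitInterval) ⊆ ⋃ i, (fun t => (g t : N)) ⁻¹' (β i '' Metric.ball 0 1) := fun i _ =>
    mem_iUnion.2 ⟨i, ⟨0, Metric.mem_ball_self one_pos, hβ0 i⟩⟩
  obtain ⟨δ, hδ, hδ2⟩ := lebesgue_number_lemma_of_metric isCompact_univ hopen hcov
  obtain ⟨n, hn⟩ := exists_nat_one_div_lt hδ
  have hn0 : (0 : ℝ) < (n : ℝ) + 1 := by positivity
  have h0A : ∀ i, (g 0 : N) ∉ A i := fun i => by
    rw [g.source]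
    exact hy i
  have h1A : ∀ i, (g 1 : N) ∉ A i := fun i => by
    rw [g.target]
    exact hy' i
  have hP0 : xav_P A g 0 := by
    intro O _ hgO
    refine ⟨g 0, hgO, h0A, Path.refl _, Path.refl _, fun t i => h0A i, fun t => hgO, ?_⟩
    rw [Path.subpath_self, Pool.Agent.NHQ.cl_refl, Category.comp_id]
  have hk : ∀ k : ℕ, xav_P A g (projIcc (0 : ℝ) 1 zero_le_one ((k : ℝ) / ((n : ℝ) + 1))) := by
    intro k
    induction k with
    | zero =>
      have h1 : projIcc (0 : ℝ) 1 zero_le_one (((0 : ℕ) : ℝ) / ((n : ℝ) + 1)) = 0 := by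
        rw [Nat.cast_zero, zero_div]
        exact projIcc_left zero_le_one
      rw [h1]
      exact hP0
    | succ k ih =>
      obtain ⟨i, hi⟩ := hδ2 (projIcc (0 : ℝ) 1 zero_le_one ((k : ℝ) / ((n : ℝ) + 1))) (mem_univ _)
      refine xav_step hA g ih (hβ i) (hβY i) ?_
      intro t ht
      refine hi ?_
      rw [Metric.mem_ball]
      have h2 : dist t (projIcc (0 : ℝ) 1 zero_le_one ((k : ℝ) / ((n : ℝ) + 1))) ≤
          dist (projIcc (0 : ℝ) 1 zero_le_one (((k + 1 : ℕ) : ℝ) / ((n : ℝ) + 1)))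
            (projIcc (0 : ℝ) 1 zero_le_one ((k : ℝ) / ((n : ℝ) + 1))) := by
        rw [Subtype.dist_eq, Subtype.dist_eq, Real.dist_eq, Real.dist_eq]
        rcases mem_uIcc.1 ht with ⟨h3, h4⟩ | ⟨h3, h4⟩
        · have h3' : ((projIcc (0 : ℝ) 1 zero_le_one ((k : ℝ) / ((n : ℝ) + 1)) : unitInterval) : ℝ) ≤ t := h3
          have h4' : (t : ℝ) ≤ (projIcc (0 : ℝ) 1 zero_le_one (((k + 1 : ℕ) : ℝ) / ((n : ℝ) + 1)) : unitInterval) := h4
          rw [abs_of_nonneg (by linarith), abs_of_nonneg (by linarith)]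
          linarith
        · have h3' : ((projIcc (0 : ℝ) 1 zero_le_one (((k + 1 : ℕ) : ℝ) / ((n : ℝ) + 1)) : unitInterval) : ℝ) ≤ t := h3
          have h4' : (t : ℝ) ≤ (projIcc (0 : ℝ) 1 zero_le_one ((k : ℝ) / ((n : ℝ) + 1)) : unitInterval) := h4
          rw [abs_of_nonpos (by linarith), abs_of_nonpos (by linarith)]
          linarith
      refine lt_of_le_of_lt (h2.trans ?_) hn
      rw [Subtype.dist_eq, Real.dist_eq]
      refine (abs_projIcc_sub_projIcc zero_le_one).trans (le_of_eq ?_)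
      rw [← sub_div, Nat.cast_add, Nat.cast_one, add_sub_cancel_left]
      exact abs_of_pos (by positivity)
  have hP1 : xav_P A g 1 := by
    have h1 := hk (n + 1)
    have h2 : projIcc (0 : ℝ) 1 zero_le_one (((n + 1 : ℕ) : ℝ) / ((n : ℝ) + 1)) = 1 := by
      rw [Nat.cast_add, Nat.cast_one, div_self hn0.ne']
      exact projIcc_right zero_le_one
    rw [h2] at h1
    exact h1
  have hB : IsOpen (β 1 '' Metric.ball 0 1) :=
    (hβ 1).img Metric.isOpen_ball (Metric.ball_subset_ball (by norm_num))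
  have hsub : β 1 '' Metric.ball (0 : E) 1 ⊆ Y :=
    (image_mono (Metric.ball_subset_ball (by norm_num))).trans (hβY 1)
  have h1B : (g 1 : N) ∈ β 1 '' Metric.ball 0 1 := ⟨0, Metric.mem_ball_self one_pos, hβ0 1⟩
  obtain ⟨z, hzO, hzA, c', e, hcA, heO, hcl⟩ := hP1 _ hB h1B
  obtain ⟨d₀, hd1, hd2⟩ := Pool.Agent.NHQ.avoid_ball hA (hβ 1) hzO h1B hzA h1A
  obtain ⟨d, hd⟩ := xav_sub (Y := Y) (a := z) (b := g 1) d₀ (fun t => hsub (hd1 t))
  refine ⟨(c'.trans d).cast g.source.symm g.target.symm, ?_, ?_⟩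
  · refine Pool.Agent.NHQ.cl_exact (Eq.symm (xav_cast _ _ _ _ ?_))
    have h3 : cl e ≫ cl d = 𝟙 _ := by
      rw [← Pool.Agent.NHQ.cl_trans, ← Pool.Agent.NHQ.cl_refl]
      refine xav_ball (hβ 1) (hβY 1) _ _
        (xav_trans (S := Subtype.val ⁻¹' (β 1 '' Metric.ball 0 1)) e d heO (fun t => ?_)) fun t => h1B
      show (d t : N) ∈ β 1 '' Metric.ball 0 1
      rw [hd t]
      exact hd1 t
    rw [Pool.Agent.NHQ.cl_trans, hcl, Category.assoc, h3, Category.comp_id, Path.subpath_zero_one]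
  · intro t i
    have h2 : (c'.trans d) t ∈ (Subtype.val ⁻¹' (A i)ᶜ : Set Y) := xav_trans c' d (fun t => hcA t i)
      (fun t => by
        show (d t : N) ∈ (A i)ᶜ
        rw [hd t]
        exact hd2 t i) t
    exact h2

theorem ext_Avd {κ : ℝ × ℂ → N} (hκ : Thick κ) {T : ℕ → E → N} (hT : ∀ n, Chd (core κ) (T n)) (m : ℕ) {f : ℝ → N}
    (hf : PathOn (core κ)ᶜ f)
    (hm : ∀ n < m, ∀ x ∈ Icc (-(1 / 5) : ℝ) (6 / 5), T n (0, x) ≠ f 0 ∧ T n (0, x) ≠ f 1) :
    ∃ g : ℝ → N, Hmt (core κ)ᶜ f g ∧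
      ∀ n < m, ∀ x ∈ Icc (-(1 / 5) : ℝ) (6 / 5), ∀ t ∈ Icc (0 : ℝ) 1, T n (0, x) ≠ g t := by
  classical
  have hK : IsOpen (core κ)ᶜ := (Pool.Agent.NHQ.arc_core hκ).compact.isClosed.isOpen_compl
  have hArc : ∀ i : Fin m, Arc ((fun x : ℝ => T i (0, x)) '' Icc (-(1 / 5)) (6 / 5)) := by
    intro i
    refine ⟨fun x => T i (0, x), -(1 / 5), 6 / 5, by norm_num, ?_, rfl⟩
    intro t ht
    have hm : ((0 : ℂ), t) ∈ TD := by
      refine ⟨?_, ?_, ?_⟩
      · show ‖(0 : ℂ)‖ < 1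
        rw [norm_zero]
        exact one_pos
      · show -(1 / 4 : ℝ) < t
        linarith [ht.1]
      · show t < 5 / 4
        linarith [ht.2]
    have h1 : ContMDiffAt 𝓘(ℝ, ℂ × ℝ) (𝓡 3) ∞ (T i) (0, t) := ((hT i).cht.loc (0, t) hm).contMDiffAt
    have h2 : ContMDiffAt 𝓘(ℝ, ℝ) 𝓘(ℝ, ℂ × ℝ) ∞ (fun x : ℝ => ((0, x) : ℂ × ℝ)) t :=
      (contDiff_const.prodMk contDiff_id).contMDiff.contMDiffAt
    exact h1.comp t h2
  have h0 : f 0 ∈ (core κ)ᶜ := hf.2 0 ⟨le_rfl, zero_le_one⟩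
  have h1 : f 1 ∈ (core κ)ᶜ := hf.2 1 ⟨zero_le_one, le_rfl⟩
  obtain ⟨c, hc⟩ := path_rI (y := ⟨f 0, h0⟩) (y' := ⟨f 1, h1⟩) hf rfl rfl
  obtain ⟨c', hcc, hc'⟩ := avoid_rel hK hArc (y := ⟨f 0, h0⟩) (y' := ⟨f 1, h1⟩)
    (fun i => by
      rintro ⟨x, hx, hx2⟩
      exact (hm i i.2 x hx).1 hx2)
    (fun i => by
      rintro ⟨x, hx, hx2⟩
      exact (hm i i.2 x hx).2 hx2) c
  refine ⟨fun t => (c' (projIcc 0 1 zero_le_one t) : N), ?_, ?_⟩
  · refine rI_hmt (c := c) hc ⟨c', fun t => ?_, hcc.symm⟩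
    have h3 : projIcc (0 : ℝ) 1 zero_le_one (0 + (t : ℝ) * (1 - 0)) = t := by
      rw [zero_add, sub_zero, mul_one]
      exact projIcc_val zero_le_one t
    show (c' t : N) = (c' (projIcc (0 : ℝ) 1 zero_le_one (0 + (t : ℝ) * (1 - 0))) : N)
    rw [h3]
  · intro n hn x hx t ht h2
    exact hc' (projIcc 0 1 zero_le_one t) ⟨n, hn⟩ ⟨x, hx, h2⟩

end Pool.Agent.NHX
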