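import Mathlib
import Pool.Agent.NHE.Rsc
import Pool.Agent.NHE.Dir

/-!
# NHX/Rsu: `exists_stdE_strong` with `ε₀` independent of `η` (difficulty 2, copy)

The real files are /team-store/nhe_Dir.lean, /team-store/nhe_Rsc.lean.  `leqO_dir_bd`: the proof of `leqO_dir` (NHE/Dir) from the line `set M : ℝ := M₀ + M₁` on, with the given `M` (helper lemmas `dir_D`, `dir_k`, `dir_x`, `dir_far`, `dir_smooth` of NHE/Dir).
`rsu_leqO`: the proof of `rsc_leqO` with `M = 1` (`‖(1 - l) 1 + l d‖ ≤ 1` since `0 < d = rsc_d η x ≤ 1` for `η ≤ 1`), so `e (1 + 2) < 1` suffices.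
`exists_stdE_unif`: the proof of `exists_stdE_strong` with `ε₀ = ε * r * min δ (1/4)` and `H = rsu_leqO`.
-/

open scoped Manifold ContDiff Topology
open Set Filter
open Pool.Agent.CSG (stp)
open Pool.Agent.RSG (E3 ex Thick)
open Pool.Agent.KNT (Dom Str Str2 BalC bmp)
open Pool.Agent.NHP
open Pool.Agent.NHE

namespace Pool.Agent.NHX

theorem leqO_dir_bd {d₀ d₁ : ℝ → ℂ} (h₀ : ContDiff ℝ ∞ d₀) (h₁ : ContDiff ℝ ∞ d₁) (hf : ∀ x ≤ 1 / 8, d₀ x = 1 ∧ d₁ x = 1)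
    (hn : ∀ l ∈ Icc (0 : ℝ) 1, ∀ x ∈ Icc (0 : ℝ) (9 / 8), ((1 - l : ℝ) : ℂ) * d₀ x + (l : ℂ) * d₁ x ≠ 0)
    (ht : ∀ l ∈ Icc (0 : ℝ) 1, (((1 - l : ℝ) : ℂ) * d₀ 1 + (l : ℂ) * d₁ 1).re ≠ 0) {M : ℝ} (hM : 0 ≤ M)
    (hb : ∀ l ∈ Icc (0 : ℝ) 1, ∀ x ∈ Icc (0 : ℝ) (9 / 8), ‖((1 - l : ℝ) : ℂ) * d₀ x + (l : ℂ) * d₁ x‖ ≤ M) {e : ℝ} (he : 0 < e)
    (he1 : e * (M + 2) < 1) : LEqO TD (TGd e d₀) (TGd e d₁) := by
  have hM0 : 0 ≤ M := hM
  have hMD : ∀ l ∈ Icc (0 : ℝ) 1, ∀ x ∈ Icc (0 : ℝ) (9 / 8), ‖dir_D d₀ d₁ l x‖ ≤ M := hb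
  have heM : 0 ≤ e * M := mul_nonneg he.le hM0
  have hTDo : IsOpen TD := by
    unfold TD
    exact (isOpen_lt (continuous_fst.norm) continuous_const).inter
      ((isOpen_lt continuous_const continuous_snd).inter (isOpen_lt continuous_snd continuous_const))
  have hO : IsOpen {q : E | q ∈ TD ∧ ‖q.1‖ < e * (M + 1) ∧ ¬ (q.2 = 1 ∧ q.1.re = 0)} := by
    refine hTDo.inter ((isOpen_lt (continuous_fst.norm) continuous_const).inter ?_)
    have hc : IsClosed {q : E | q.2 = 1 ∧ q.1.re = 0} :=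
      (isClosed_eq continuous_snd continuous_const).inter
        (isClosed_eq (Complex.continuous_re.comp continuous_fst) continuous_const)
    exact hc.isOpen_compl
  obtain ⟨V, hV, hV1⟩ := iso_push (F := ℝ) hO (k := dir_k d₀ d₁ e) (U := univ)
    (J := Icc (-(M + 1)) (M + 1)) (J₁ := Icc (-(1 / 8)) (1 / 8)) isOpen_univ isCompact_Icc
    (subset_univ _) isCompact_Icc (Icc_subset_Icc (by linarith) (by linarith))
    (fun s _ y _ => (dir_smooth h₀ h₁ e).contDiffAt)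
    (by
      intro s _ y _ hy
      have h2 : 1 / 8 ≤ |y| := by
        by_contra h3
        have h4 := abs_lt.1 (not_le.1 h3)
        exact hy ⟨h4.1.le, h4.2.le⟩
      rw [dir_far hf e s y h2, dir_far hf e 0 y h2])
    (by
      intro s hs y hy
      have hx := dir_x y
      have hyy : |y| ≤ 1 / 8 := abs_le.2 ⟨hy.1, hy.2⟩
      have hnorm : ‖((e * y : ℝ) : ℂ) * dir_D d₀ d₁ s (9 / 8 * bmp y)‖ ≤ e * M / 8 := by
        rw [norm_mul, Complex.norm_real, Real.norm_eq_abs, abs_mul, abs_of_pos he]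
        have h1 := hMD s hs _ hx
        have h2 : e * |y| ≤ e * (1 / 8) := mul_le_mul_of_nonneg_left hyy he.le
        have h3 := mul_le_mul h2 h1 (norm_nonneg _) (by linarith)
        linarith
      refine ⟨⟨?_, ?_, ?_⟩, ?_, ?_⟩
      · exact lt_of_le_of_lt hnorm (by nlinarith)
      · show -(1 / 4) < 9 / 8 * bmp y
        linarith [hx.1]
      · show 9 / 8 * bmp y < 5 / 4
        linarith [hx.2]
      · exact lt_of_le_of_lt hnorm (by nlinarith)
      · rintro ⟨h1, h2⟩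
        have h1' : 9 / 8 * bmp y = 1 := h1
        have h2' : (((e * y : ℝ) : ℂ) * dir_D d₀ d₁ s (9 / 8 * bmp y)).re = 0 := h2
        rw [h1', Complex.re_ofReal_mul] at h2'
        have hy0 : y ≠ 0 := by
          intro h3
          rw [h3, KNT.bmp_one (by norm_num)] at h1'
          norm_num at h1'
        rcases mul_eq_zero.1 h2' with h3 | h3
        · rcases mul_eq_zero.1 h3 with h4 | h4
          · exact he.ne' h4
          · exact hy0 h4
        · exact ht s hs h3)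
    (by
      intro s hs y _ v hv
      exact dir_imm h₀ h₁ he s y (hn s hs _ (dir_x y)) v hv)
    (by
      intro s hs y _ y' _ hyy
      have h1 : 9 / 8 * bmp y = 9 / 8 * bmp y' := congrArg Prod.snd hyy
      have h2 : ((e * y : ℝ) : ℂ) * dir_D d₀ d₁ s (9 / 8 * bmp y)
        = ((e * y' : ℝ) : ℂ) * dir_D d₀ d₁ s (9 / 8 * bmp y') := congrArg Prod.fst hyy
      rw [← h1] at h2
      have h3 := mul_right_cancel₀ (hn s hs _ (dir_x y)) h2
      have h4 : e * y = e * y' := Complex.ofReal_injective h3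
      exact mul_left_cancel₀ he.ne' h4)
  have hVT : PushE TD V := by
    obtain ⟨C, hC, hCO, hCV⟩ := hV.supp
    exact ⟨hV.smooth, hV.smooth_symm, hV.zero, C, hC, fun q hq => (hCO hq).1, hCV⟩
  have hfix : ∀ q : E, q ∉ {q : E | q ∈ TD ∧ ‖q.1‖ < e * (M + 1) ∧ ¬ (q.2 = 1 ∧ q.1.re = 0)} →
      V 1 q = q := by
    intro q hq
    obtain ⟨C, hC, hCO, hCV⟩ := hV.supp
    exact hCV 1 q fun h => hq (hCO h)
  have hcurve : ∀ y : ℝ, V 1 (dir_k d₀ d₁ e 0 y) = dir_k d₀ d₁ e 1 y := by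
    intro y
    by_cases hy : y ∈ Icc (-(M + 1)) (M + 1)
    · exact hV1 y hy
    · have hy1 : M + 1 < |y| := by
        by_contra h3
        exact hy (abs_le.1 (not_lt.1 h3))
      have hy2 : 1 / 8 ≤ |y| := by linarith
      rw [dir_far hf e 0 y hy2, dir_far hf e 1 y hy2]
      apply hfix
      rintro ⟨_, h2, _⟩
      rw [Complex.norm_real, Real.norm_eq_abs, abs_mul, abs_of_pos he] at h2
      have := mul_lt_mul_of_pos_left hy1 he
      linarith
  have hmain : V 1 '' (TGd e d₀) = TGd e d₁ := by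
    have e0 : TGd e d₀ = dir_k d₀ d₁ e 0 '' {y | |e * y| < 1} ∪ Tip := by
      unfold TGd
      congr 2
      funext y
      unfold dir_k dir_D
      simp
    have e1 : TGd e d₁ = dir_k d₀ d₁ e 1 '' {y | |e * y| < 1} ∪ Tip := by
      unfold TGd
      congr 2
      funext y
      unfold dir_k dir_D
      simp
    rw [e0, e1]
    refine dir_image (fun y _ => hcurve y) fun q hq => hfix q fun h => ?_
    exact h.2.2 ⟨hq.2.1, hq.2.2⟩
  rw [← hmain]
  exact LEqO.diff _ hVT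

/-- `TF`, thinned by `l` in a direction which depends on the height -/
theorem rsu_leqO {η : ℝ} (h0 : 0 < η) (hη : η ≤ 1) {e : ℝ} (h1 : 0 < e) (he3 : e * (1 + 2) < 1) :
    LEqO TD TF (TGd e fun x => ((rsc_d η x : ℝ) : ℂ)) := by
  have h3 : e ≤ 1 := by linarith
  have hd : ContDiff ℝ ∞ fun x : ℝ => ((rsc_d η x : ℝ) : ℂ) := Complex.ofRealCLM.contDiff.comp (rsc_d_smooth η)
  have H := leqO_dir_bd (e := e) (M := 1) (d₀ := fun _ => 1) (d₁ := fun x => ((rsc_d η x : ℝ) : ℂ)) contDiff_const hd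
    (fun x hx => ⟨rfl, by rw [rsc_d_low η (by linarith)]; simp⟩)
    (by
      intro l hl x _ hh
      have h1 := congrArg Complex.re hh
      simp only [mul_one, Complex.add_re, Complex.ofReal_re, Complex.mul_re, Complex.ofReal_im, mul_zero,
        sub_zero, Complex.zero_re] at h1
      have h2 := rsc_d_pos h0 x
      have h3 := mul_nonneg hl.1 h2.le
      rcases hl.2.lt_or_eq with h | h
      · linarith
      · rw [h] at h1
        linarith)
    (by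
      intro l hl h1
      simp only [mul_one, Complex.add_re, Complex.ofReal_re, Complex.mul_re, Complex.ofReal_im, mul_zero,
        sub_zero] at h1
      have h2 := rsc_d_pos h0 1
      have h3 := mul_nonneg hl.1 h2.le
      rcases hl.2.lt_or_eq with h | h
      · linarith
      · rw [h] at h1
        linarith)
    zero_le_one
    (by
      intro l hl x _
      have h2 := rsc_d_pos h0 x
      have h4 := rsc_d_le hη x
      have h5 : ((1 - l : ℝ) : ℂ) * 1 + (l : ℂ) * ((rsc_d η x : ℝ) : ℂ) = (((1 - l) + l * rsc_d η x : ℝ) : ℂ) := by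
        push_cast
        ring
      show ‖((1 - l : ℝ) : ℂ) * 1 + (l : ℂ) * ((rsc_d η x : ℝ) : ℂ)‖ ≤ 1
      rw [h5, Complex.norm_real, Real.norm_eq_abs, abs_le]
      have h6 := mul_nonneg hl.1 h2.le
      have h7 : l * rsc_d η x ≤ l * 1 := mul_le_mul_of_nonneg_left h4 hl.1
      have h8 := hl.2
      constructor <;> linarith)
    h1 he3
  have k1 : LEqO TD TF (TGd e fun _ => 1) := by
    rw [TF_eq, TGd_one h1 h3]
    have hb : ∀ u : ℝ, -(1 / 4) < 9 / 8 * bmp u ∧ 9 / 8 * bmp u < 5 / 4 := fun u => by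
      have a1 := KNT.bmp_nonneg u
      have a2 := KNT.bmp_le_one u
      constructor <;> linarith
    have hb0 : bmp 0 = 1 := KNT.bmp_one (by norm_num)
    refine leqO_graph₂ (contDiff_const.mul KNT.bmp_smooth)
      (contDiff_const.mul (KNT.bmp_smooth.comp (contDiff_id.div_const e))) ?_ hb (fun u => hb (u / e)) ?_
    · intro u hu
      have a1 : bmp u = 0 := KNT.bmp_zero (by linarith)
      have a2 : bmp (u / e) = 0 := by
        apply KNT.bmp_zero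
        rw [abs_div, abs_of_pos h1, le_div_iff₀ h1]
        nlinarith
      rw [a1, a2]
      simp
    · left
      simp only [zero_div, hb0]
      norm_num
  exact k1.trans H

variable {N : Type*} [TopologicalSpace N] [ChartedSpace E3 N] [IsManifold (𝓡 3) ∞ N] [T2Space N]

theorem exists_stdE_unif {κ : ℝ × ℂ → N} (hκ : Thick κ) {p p' ε σ r : ℝ} (A : Adm p p' ε) {T : E → N} (hT : Chd (core κ) T)
    (hS : StdR κ p p' ε σ r T) {δ : ℝ} (hδ : 0 < δ) :
    ∃ ε₀ : ℝ, 0 < ε₀ ∧ ε₀ ≤ ε ∧ ∀ η ε₁ : ℝ, 0 < η → η ≤ 1 → 0 < ε₁ → ε₁ < ε₀ → ∃ (T' : E → N) (ξ : ℝ → ℝ), Chd (core κ) T' ∧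
      StdE (fun q : ℝ × ℂ => κ (q.1, (η : ℂ) * q.2)) p p' ε₁ σ T' ∧ LEqN (kn (core κ) T) (kn (core κ) T') ∧
      T' '' TD ⊆ T '' {q | q ∈ TD ∧ ‖q.1‖ < δ ∧ -δ < q.2 ∧ q.2 < 1 + δ} ∧ (∀ x, T' (0, x) = T (0, ξ x)) ∧ ContDiff ℝ ∞ ξ ∧ StrictMono ξ ∧
      ξ 0 = 0 ∧ ξ 1 = 1 ∧ ξ (1 / 8) = η * ε₁ / (8 * ε) ∧ ξ (7 / 8) = 1 - η * ε₁ / (8 * ε) := by
  have hε := A.pos
  have hr := hS.pos
  have hr1 := hS.le
  refine ⟨ε * r * min δ (1 / 4), mul_pos (mul_pos hε hr) (lt_min hδ (by norm_num)), ?_, ?_⟩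
  · have h2 : r * min δ (1 / 4) ≤ 1 * 1 :=
      mul_le_mul (hr1.trans (by norm_num)) ((min_le_right _ _).trans (by norm_num)) (le_min hδ.le (by norm_num)) zero_le_one
    have h3 : ε * (r * min δ (1 / 4)) ≤ ε * (1 * 1) := mul_le_mul_of_nonneg_left h2 hε.le
    linarith
  intro η ε₁ h0 h1 hε₁ hlt
  obtain ⟨l, hl_def⟩ : ∃ l : ℝ, l = ε₁ / (ε * r) := ⟨_, rfl⟩
  have hεr : 0 < ε * r := mul_pos hε hr
  have hl : 0 < l := by rw [hl_def]; exact div_pos hε₁ hεr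
  have hlm : l < min δ (1 / 4) := by
    rw [hl_def, div_lt_iff₀ hεr, mul_comm]
    exact hlt
  have hlδ : l < δ := lt_of_lt_of_le hlm (min_le_left _ _)
  have hl4 : l < 1 / 4 := lt_of_lt_of_le hlm (min_le_right _ _)
  have hl1 : l < 1 := by linarith
  have hlε : ε * (r * l) = ε₁ := by
    rw [hl_def]
    field_simp
  obtain ⟨θ, hθ_def⟩ : ∃ θ : ℝ, θ = η * ε₁ / ε := ⟨_, rfl⟩
  have hθ0 : 0 < θ := by rw [hθ_def]; exact div_pos (mul_pos h0 hε₁) hε
  have hεθ : ε * θ = η * ε₁ := by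
    rw [hθ_def]
    field_simp
  have hθ1 : θ ≤ 1 := by
    have h2 : ε * θ ≤ ε * 1 := by
      rw [hεθ, mul_one]
      have h3 : ε₁ ≤ ε := by
        rw [← hlε]
        have : r * l ≤ 1 := by nlinarith
        nlinarith
      nlinarith
    exact le_of_mul_le_mul_left h2 hε
  have hθδ : θ < δ := by
    have h2 : ε * θ < ε * δ := by
      rw [hεθ]
      have h3 : η * ε₁ ≤ ε₁ := by nlinarith
      have h4 : ε₁ < ε * δ := by
        rw [← hlε]
        have h5 : r * l < δ := by nlinarith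
        nlinarith
      linarith
    exact lt_of_mul_lt_mul_left h2 hε.le
  have hξm : StrictMono (rsc_xi θ) := strictMono_of_deriv_pos (rsc_xi_deriv hθ0 hθ1)
  have hξ0 : rsc_xi θ 0 = 0 := by rw [rsc_xi_low θ (by norm_num), mul_zero]
  have hξ1 : rsc_xi θ 1 = 1 := by rw [rsc_xi_high θ (by norm_num)]; ring
  have hξa : -(1 / 4) ≤ rsc_xi θ (-(1 / 4)) := by
    rw [rsc_xi_low θ (by norm_num)]
    linarith
  have hξb : rsc_xi θ (5 / 4) ≤ 5 / 4 := by
    rw [rsc_xi_high θ (by norm_num)]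
    linarith
  obtain ⟨hT₂, hL₂⟩ := chd_repar hT one_pos le_rfl (rsc_xi_smooth θ) (rsc_xi_deriv hθ0 hθ1) hξ0 hξ1 hξa hξb
  obtain ⟨hT', hL'⟩ := rsc_chd hT₂ h0 h1 hl hl1.le (rsu_leqO h0 h1 hl (by linarith))
  have habs : ∀ x, |l * rsc_d η x| ≤ l ∧ |l * rsc_e η x| ≤ l := by
    intro x
    rw [abs_of_pos (mul_pos hl (rsc_d_pos h0 x)), abs_of_pos (mul_pos hl (rsc_e_pos h0 x))]
    exact ⟨by nlinarith [rsc_d_le h1 x], by nlinarith [rsc_e_le h1 x]⟩
  have hmem : ∀ q ∈ TD, ((((1 : ℝ) : ℂ) * (⟨l * rsc_d η q.2 * q.1.re, l * rsc_e η q.2 * q.1.im⟩ : ℂ),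
      rsc_xi θ q.2) : E) ∈ TD ∧ ‖((1 : ℝ) : ℂ) * (⟨l * rsc_d η q.2 * q.1.re, l * rsc_e η q.2 * q.1.im⟩ : ℂ)‖ < l := by
    intro q hq
    have hn : ‖((1 : ℝ) : ℂ) * (⟨l * rsc_d η q.2 * q.1.re, l * rsc_e η q.2 * q.1.im⟩ : ℂ)‖ < l := by
      rw [Complex.ofReal_one, one_mul]
      refine lt_of_le_of_lt (rsc_norm hl.le (habs q.2).1 (habs q.2).2) ?_
      have : ‖q.1‖ < 1 := hq.1
      show l * ‖q.1‖ < l
      nlinarith
    exact ⟨⟨hn.trans hl1, lt_of_le_of_lt hξa (hξm hq.2.1), lt_of_lt_of_le (hξm hq.2.2) hξb⟩, hn⟩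
  refine ⟨fun q => T (((1 : ℝ) : ℂ) * (rsc_g (fun x => l * rsc_d η x) (fun x => l * rsc_e η x) q).1,
    rsc_xi θ (rsc_g (fun x => l * rsc_d η x) (fun x => l * rsc_e η x) q).2), rsc_xi θ, hT', ?_, hL₂.trans hL',
    ?_, ?_, rsc_xi_smooth θ, hξm, hξ0, hξ1, ?_, ?_⟩
  · refine ⟨?_, ?_⟩
    · intro q hq hx
      show T (((1 : ℝ) : ℂ) * (⟨l * rsc_d η q.2 * q.1.re, l * rsc_e η q.2 * q.1.im⟩ : ℂ), rsc_xi θ q.2) = _
      have hxi : rsc_xi θ q.2 = θ * q.2 := rsc_xi_low θ hx.le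
      have hlt4 : rsc_xi θ q.2 < 1 / 4 := by
        rw [hxi]
        rcases le_or_gt q.2 0 with h | h
        · have : θ * q.2 ≤ 0 := mul_nonpos_of_nonneg_of_nonpos hθ0.le h
          linarith
        · have : θ * q.2 ≤ 1 * q.2 := mul_le_mul_of_nonneg_right hθ1 h.le
          linarith
      rw [hS.foot _ (hmem q hq).1 hlt4]
      unfold footT
      show κ (p + ε * ((r : ℂ) * (((1 : ℝ) : ℂ) * (⟨l * rsc_d η q.2 * q.1.re, l * rsc_e η q.2 * q.1.im⟩ : ℂ))).re,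
        (ε : ℂ) * ⟨rsc_xi θ q.2, ((r : ℂ) * (((1 : ℝ) : ℂ) * (⟨l * rsc_d η q.2 * q.1.re,
          l * rsc_e η q.2 * q.1.im⟩ : ℂ))).im⟩) = κ (p + ε₁ * q.1.re, (η : ℂ) * ((ε₁ : ℂ) * ⟨q.2, q.1.im⟩))
      congr 1
      rw [rsc_d_low η hx.le, rsc_e_low η hx.le, hxi, Complex.ofReal_one, one_mul, Complex.re_ofReal_mul,
        Complex.im_ofReal_mul]
      refine Prod.ext ?_ ?_
      · show p + ε * (r * (l * 1 * q.1.re)) = p + ε₁ * q.1.re
        rw [← hlε]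
        ring
      · apply Complex.ext
        · rw [Complex.re_ofReal_mul, Complex.re_ofReal_mul, Complex.re_ofReal_mul]
          show ε * (θ * q.2) = η * (ε₁ * q.2)
          rw [← mul_assoc, hεθ]
          ring
        · rw [Complex.im_ofReal_mul, Complex.im_ofReal_mul, Complex.im_ofReal_mul]
          show ε * (r * (l * η * q.1.im)) = η * (ε₁ * q.1.im)
          rw [← hlε]
          ring
    · intro q hq hx
      show T (((1 : ℝ) : ℂ) * (⟨l * rsc_d η q.2 * q.1.re, l * rsc_e η q.2 * q.1.im⟩ : ℂ), rsc_xi θ q.2) = _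
      have hxi : rsc_xi θ q.2 = 1 - θ * (1 - q.2) := rsc_xi_high θ hx.le
      have hgt : 3 / 4 < rsc_xi θ q.2 := by
        rw [hxi]
        rcases le_or_gt (1 - q.2) 0 with h | h
        · have : θ * (1 - q.2) ≤ 0 := mul_nonpos_of_nonneg_of_nonpos hθ0.le h
          linarith
        · have : θ * (1 - q.2) ≤ 1 * (1 - q.2) := mul_le_mul_of_nonneg_right hθ1 h.le
          linarith
      rw [hS.tip _ (hmem q hq).1 hgt]
      unfold tipT
      show κ (p' + σ * ε * ((r : ℂ) * (((1 : ℝ) : ℂ) * (⟨l * rsc_d η q.2 * q.1.re, l * rsc_e η q.2 * q.1.im⟩ : ℂ))).im,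
        (ε : ℂ) * ⟨1 - rsc_xi θ q.2, ((r : ℂ) * (((1 : ℝ) : ℂ) * (⟨l * rsc_d η q.2 * q.1.re,
          l * rsc_e η q.2 * q.1.im⟩ : ℂ))).re⟩) =
        κ (p' + σ * ε₁ * q.1.im, (η : ℂ) * ((ε₁ : ℂ) * ⟨1 - q.2, q.1.re⟩))
      congr 1
      rw [rsc_d_high η hx.le, rsc_e_high η hx.le, hxi, Complex.ofReal_one, one_mul, Complex.re_ofReal_mul,
        Complex.im_ofReal_mul]
      refine Prod.ext ?_ ?_
      · show p' + σ * ε * (r * (l * 1 * q.1.im)) = p' + σ * ε₁ * q.1.im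
        rw [← hlε]
        ring
      · apply Complex.ext
        · rw [Complex.re_ofReal_mul, Complex.re_ofReal_mul, Complex.re_ofReal_mul]
          show ε * (1 - (1 - θ * (1 - q.2))) = η * (ε₁ * (1 - q.2))
          have : ε * (1 - (1 - θ * (1 - q.2))) = ε * θ * (1 - q.2) := by ring
          rw [this, hεθ]
          ring
        · rw [Complex.im_ofReal_mul, Complex.im_ofReal_mul, Complex.im_ofReal_mul]
          show ε * (r * (l * η * q.1.re)) = η * (ε₁ * q.1.re)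
          rw [← hlε]
          ring
  · rintro _ ⟨q, hq, rfl⟩
    refine ⟨_, ⟨(hmem q hq).1, (hmem q hq).2.trans hlδ, ?_, ?_⟩, rfl⟩
    · show -δ < rsc_xi θ q.2
      have h2 : rsc_xi θ (-(1 / 4)) < rsc_xi θ q.2 := hξm hq.2.1
      rw [rsc_xi_low θ (x := -(1 / 4)) (by norm_num)] at h2
      linarith
    · show rsc_xi θ q.2 < 1 + δ
      have h2 : rsc_xi θ q.2 < rsc_xi θ (5 / 4) := hξm hq.2.2
      rw [rsc_xi_high θ (x := 5 / 4) (by norm_num)] at h2
      linarith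
  · intro x
    show T (((1 : ℝ) : ℂ) * (⟨l * rsc_d η x * (0 : ℂ).re, l * rsc_e η x * (0 : ℂ).im⟩ : ℂ), rsc_xi θ x) =
      T (0, rsc_xi θ x)
    have h2 : (⟨l * rsc_d η x * (0 : ℂ).re, l * rsc_e η x * (0 : ℂ).im⟩ : ℂ) = 0 := by
      apply Complex.ext <;> simp
    rw [h2, mul_zero]
  · rw [rsc_xi_low θ (by norm_num), hθ_def]
    field_simp
  · rw [rsc_xi_high θ (by norm_num), hθ_def]
    field_simp
    ring


end Pool.Agent.NHX
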