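import Mathlib
import Pool.Agent.NHQ.Stt
import Pool.Agent.NHQ.KerD
import Pool.Agent.NHE.Pth
import Pool.Agent.NHX.Rsu
import Pool.Agent.NHX.Dict

/-!
# NHX/Bas: from `StdE` to `Fgr` and back, with the class of the core (difficulty 3)

`κ` is a thick knot, `r8 T = T (w / 8, x)` (`std_fat`: `StdR κ p p' ε σ (1/8)`, `LEqN`).
* `x_class` (pure path calculus): `T (0, x) = κ (p, ε x)` for `0 ≤ x < 1/4`, `T (0, x) = κ (p', ε (1 - x))` for `3/4 < x ≤ 1` (from `StdR`: `(0, x) ∈ TD`; `⟨x, 0⟩ = x`).  With `b = ρ / (8 ε)`: `RepI (fun x => T (0, x)) b (1/8) s` by `repI_comp` (`g x = ε x`, from `hs`) and `repI_congr`;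
  the same on `[7/8, 1 - b]`; `repI_trans` twice: `RepI (fun x => T (0, x)) b (1 - b) (s.trans (c.trans s'))`; then `repI_comp` with `g = ξ`, from `1/8` to `7/8` (`ξ` is continuous and monotone, `ξ (1/8) = b`, `ξ (7/8) = 1 - b`, `a' = b`, `b' = 1 - b`), `repI_congr`.
* `x_in`: a chord with `StdE κ p p' ε σ` gives `Fgr κ p p' ε₁ ..` for small `ε₁`: `std_fat` (the core is unchanged), `exists_stdE_unif` (`η = 1`, `δ = 1`; `κ (l, 1 v) = κ (l, v)`), `std_fat` again.  `x_class` with `ρ = ε₁`.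
* `x_out`: `Fgr κ p p' ε c K'` is `(σ, r, T₀)`; `exists_stdE_unif` (`η = 1`, `δ = 1`): `T`, `StdE κ p p' ε₁ σ T` for every small `ε₁`; `σ = 1` by `hO`.  `x_class`.  (`Adm.mono`: `Adm p p' ε`, `0 < ε₁ ≤ ε` give `Adm p p' ε₁`.)
-/

open scoped Manifold ContDiff Topology
open Set Filter
open Pool.Agent.CSG (stp)
open Pool.Agent.RSG (E3 ex Thick)
open Pool.Agent.KNT (Dom Str Str2 BalC bmp)
open Pool.Agent.NHP
open Pool.Agent.NHE (StdR Fgr RepI repI_comp repI_congr repI_trans repI_cont)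
open Pool.Agent.NHQ (Ori)

namespace Pool.Agent.NHX

theorem adm_mono {p p' ε ε₁ : ℝ} (A : Adm p p' ε) (h0 : 0 < ε₁) (h1 : ε₁ ≤ ε) : Adm p p' ε₁ :=
  ⟨h0, by linarith [A.lt], fun k => by linarith [A.far k]⟩

section
variable {N : Type*} [TopologicalSpace N]

theorem x_class [ChartedSpace E3 N] {κ : ℝ × ℂ → N} {p p' ε σ r ρ : ℝ} {T T' : E → N} {ξ : ℝ → ℝ} (hε : 0 < ε) (hS : StdR κ p p' ε σ r T)
    (hξ : Continuous ξ) (hm : StrictMono ξ) (h1 : ξ (1 / 8) = ρ / (8 * ε)) (h7 : ξ (7 / 8) = 1 - ρ / (8 * ε)) (hρ : 0 < ρ)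
    (hρ' : ρ ≤ ε) (hT : ∀ x, T' (0, x) = T (0, ξ x)) {Y : Set N} {y y' z z' : Y} {c : Path y y'} {s : Path z y} {s' : Path y' z'}
    (hc : RepI (fun x => T (0, x)) (1 / 8) (7 / 8) c) (hs : RepI (fun t => κ (p, (t : ℂ))) (ρ / 8) (ε / 8) s)
    (hs' : RepI (fun t => κ (p', (t : ℂ))) (ε / 8) (ρ / 8) s') :
    RepI (fun x => T' (0, x)) (1 / 8) (7 / 8) (s.trans (c.trans s')) := by
  obtain ⟨b, hb⟩ : ∃ b : ℝ, b = ρ / (8 * ε) := ⟨_, rfl⟩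
  have hεb : ε * b = ρ / 8 := by rw [hb]; field_simp
  have hb0 : 0 < b := by rw [hb]; positivity
  have hb8 : b ≤ 1 / 8 := by
    rw [hb, div_le_div_iff₀ (by positivity) (by norm_num)]
    linarith
  rw [← hb] at h1 h7
  have hfoot : ∀ x : ℝ, -(1 / 4) < x → x < 1 / 4 → T (0, x) = κ (p, ((ε * x : ℝ) : ℂ)) := by
    intro x hx1 hx2
    rw [hS.foot (0, x) ⟨by simp, hx1, by linarith⟩ hx2]
    unfold footT
    have e1 : p + ε * ((r : ℂ) * (0 : ℂ)).re = p := by simp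
    have e2 : (ε : ℂ) * ⟨x, ((r : ℂ) * (0 : ℂ)).im⟩ = ((ε * x : ℝ) : ℂ) := by
      apply Complex.ext <;> simp
    show κ (p + ε * ((r : ℂ) * (0 : ℂ)).re, (ε : ℂ) * ⟨x, ((r : ℂ) * (0 : ℂ)).im⟩) = _
    rw [e1, e2]
  have htip : ∀ x : ℝ, 3 / 4 < x → x < 5 / 4 → T (0, x) = κ (p', ((ε * (1 - x) : ℝ) : ℂ)) := by
    intro x hx1 hx2
    rw [hS.tip (0, x) ⟨by simp, by linarith, hx2⟩ hx1]
    unfold tipT
    have e1 : p' + σ * ε * ((r : ℂ) * (0 : ℂ)).im = p' := by simp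
    have e2 : (ε : ℂ) * ⟨1 - x, ((r : ℂ) * (0 : ℂ)).re⟩ = ((ε * (1 - x) : ℝ) : ℂ) := by
      apply Complex.ext <;> simp
    show κ (p' + σ * ε * ((r : ℂ) * (0 : ℂ)).im, (ε : ℂ) * ⟨1 - x, ((r : ℂ) * (0 : ℂ)).re⟩) = _
    rw [e1, e2]
  obtain ⟨k1, k2, -, -⟩ := repI_cont hs
  obtain ⟨l1, l2, -, -⟩ := repI_cont hs'
  have s1 : RepI (fun x => T (0, x)) b (1 / 8) s := by
    have h : RepI (fun t : ℝ => κ (p, (t : ℂ))) ((fun x : ℝ => ε * x) b) ((fun x : ℝ => ε * x) (1 / 8)) s := by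
      have e1 : (fun x : ℝ => ε * x) b = ρ / 8 := hεb
      have e2 : (fun x : ℝ => ε * x) (1 / 8) = ε / 8 := by show ε * (1 / 8) = ε / 8; ring
      rw [e1, e2]; exact hs
    have h' := repI_comp (f := fun t : ℝ => κ (p, (t : ℂ))) (g := fun x : ℝ => ε * x) (a := b) (b := 1 / 8)
      (a' := ρ / 8) (b' := ε / 8) h (by fun_prop) k1 k2 (by
      intro t ht
      rw [uIcc_of_le hb8] at ht
      rw [uIcc_of_le (by linarith), ← hεb]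
      exact ⟨mul_le_mul_of_nonneg_left ht.1 hε.le, by
        have := mul_le_mul_of_nonneg_left ht.2 hε.le
        show ε * t ≤ ε / 8
        linarith⟩)
    refine repI_congr h' fun t ht => ?_
    rw [uIcc_of_le hb8] at ht
    exact hfoot t (by linarith [ht.1]) (by linarith [ht.2])
  have s2 : RepI (fun x => T (0, x)) (7 / 8) (1 - b) s' := by
    have h : RepI (fun t : ℝ => κ (p', (t : ℂ))) ((fun x : ℝ => ε * (1 - x)) (7 / 8)) ((fun x : ℝ => ε * (1 - x)) (1 - b))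
        s' := by
      have e1 : (fun x : ℝ => ε * (1 - x)) (1 - b) = ρ / 8 := by
        show ε * (1 - (1 - b)) = ρ / 8
        rw [← hεb]; ring
      have e2 : (fun x : ℝ => ε * (1 - x)) (7 / 8) = ε / 8 := by show ε * (1 - 7 / 8) = ε / 8; ring
      rw [e1, e2]; exact hs'
    have h' := repI_comp (f := fun t : ℝ => κ (p', (t : ℂ))) (g := fun x : ℝ => ε * (1 - x)) (a := 7 / 8) (b := 1 - b)
      (a' := ε / 8) (b' := ρ / 8) h (by fun_prop) l1 l2 (by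
      intro t ht
      rw [uIcc_of_le (by linarith)] at ht
      rw [uIcc_of_ge (by linarith), ← hεb]
      constructor
      · exact mul_le_mul_of_nonneg_left (by linarith [ht.2]) hε.le
      · have := mul_le_mul_of_nonneg_left (show 1 - t ≤ 1 / 8 by linarith [ht.1]) hε.le
        show ε * (1 - t) ≤ ε / 8
        linarith)
    refine repI_congr h' fun t ht => ?_
    rw [uIcc_of_le (by linarith)] at ht
    exact htip t (by linarith [ht.1]) (by linarith [ht.2])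
  have s3 : RepI (fun x => T (0, x)) b (1 - b) (s.trans (c.trans s')) := repI_trans s1 (repI_trans hc s2)
  obtain ⟨m1, m2, -, -⟩ := repI_cont s3
  have s4 : RepI (fun x => T (0, x)) (ξ (1 / 8)) (ξ (7 / 8)) (s.trans (c.trans s')) := by
    rw [h1, h7]; exact s3
  have s5 := repI_comp (a' := b) (b' := 1 - b) s4 hξ.continuousOn m1 m2 (by
    intro t ht
    rw [uIcc_of_le (by norm_num)] at ht
    rw [uIcc_of_le (by linarith), ← h7]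
    nth_rewrite 1 [← h1]
    exact ⟨hm.monotone ht.1, hm.monotone ht.2⟩)
  exact repI_congr s5 fun t _ => hT t

end

section
variable {N : Type*} [TopologicalSpace N] [ChartedSpace E3 N] [IsManifold (𝓡 3) ∞ N] [T2Space N]

/-- `exists_stdE_unif` for `η = 1` -/
theorem bas_unif {κ : ℝ × ℂ → N} (hκ : Thick κ) {p p' ε σ r : ℝ} (A : Adm p p' ε) {T : E → N} (hT : Chd (core κ) T)
    (hS : StdR κ p p' ε σ r T) {b : ℝ} (hb : 0 < b) :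
    ∃ (ε₁ : ℝ) (T' : E → N) (ξ : ℝ → ℝ), 0 < ε₁ ∧ ε₁ < b ∧ ε₁ ≤ ε ∧ Chd (core κ) T' ∧ StdE κ p p' ε₁ σ T' ∧
      LEqN (kn (core κ) T) (kn (core κ) T') ∧ (∀ x, T' (0, x) = T (0, ξ x)) ∧ Continuous ξ ∧ StrictMono ξ ∧
      ξ (1 / 8) = ε₁ / (8 * ε) ∧ ξ (7 / 8) = 1 - ε₁ / (8 * ε) := by
  obtain ⟨ε₀, h0, h1, h⟩ := exists_stdE_unif hκ A hT hS one_pos
  obtain ⟨ε₁, hε₁, hε₁0, hε₁b⟩ : ∃ ε₁ : ℝ, 0 < ε₁ ∧ ε₁ < ε₀ ∧ ε₁ < b :=
    ⟨min (ε₀ / 2) (b / 2), lt_min (by linarith) (by linarith), (min_le_left _ _).trans_lt (by linarith),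
      (min_le_right _ _).trans_lt (by linarith)⟩
  obtain ⟨T', ξ, g1, g2, g3, -, g4, g5, g6, -, -, g7, g8⟩ := h 1 ε₁ one_pos le_rfl hε₁ hε₁0
  have e1 : (fun q : ℝ × ℂ => κ (q.1, ((1 : ℝ) : ℂ) * q.2)) = κ := by
    funext q
    rw [Complex.ofReal_one, one_mul]
  rw [e1] at g2
  rw [one_mul] at g7 g8
  exact ⟨ε₁, T', ξ, hε₁, hε₁b, by linarith, g1, g2, g3, g4, g5.continuous, g6, g7, g8⟩

omit [IsManifold (𝓡 3) ∞ N] in
/-- the same size of the ends -/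
theorem x_in₀ {κ : ℝ × ℂ → N} {p p' ε σ : ℝ} (hσ : σ = 1 ∨ σ = -1) {T : E → N} (hT : Chd (core κ) T)
    (hS : StdE κ p p' ε σ T) : ∃ K' : Set N, LEqN (kn (core κ) T) K' ∧ ∀ {y y' : ((core κ)ᶜ : Set N)} (c : Path y y'),
      RepI (fun x => T (0, x)) (1 / 8) (7 / 8) c → Fgr κ p p' ε c K' := by
  obtain ⟨h1, h2, h3⟩ := NHQ.std_fat hσ hT hS
  refine ⟨_, h3, fun {y y'} c hc => ⟨σ, 1 / 8, _, h1, h2, repI_congr hc fun t _ => ?_, rfl⟩⟩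
  show T ((1 / 8 : ℂ) * 0, t) = T (0, t)
  rw [mul_zero]

theorem x_in {κ : ℝ × ℂ → N} (hκ : Thick κ) {p p' ε σ : ℝ} (A : Adm p p' ε) (hσ : σ = 1 ∨ σ = -1) {T : E → N}
    (hT : Chd (core κ) T) (hS : StdE κ p p' ε σ T) {b : ℝ} (hb : 0 < b) :
    ∃ ε₁ : ℝ, 0 < ε₁ ∧ ε₁ < b ∧ ε₁ ≤ ε ∧ ∃ K' : Set N, LEqN (kn (core κ) T) K' ∧
      ∀ {y y' z z' : ((core κ)ᶜ : Set N)} (c : Path y y') (s : Path z y) (s' : Path y' z'),
        RepI (fun x => T (0, x)) (1 / 8) (7 / 8) c → RepI (fun t => κ (p, (t : ℂ))) (ε₁ / 8) (ε / 8) s →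
        RepI (fun t => κ (p', (t : ℂ))) (ε / 8) (ε₁ / 8) s' → Fgr κ p p' ε₁ (s.trans (c.trans s')) K' := by
  obtain ⟨h1, h2, h3⟩ := NHQ.std_fat hσ hT hS
  obtain ⟨ε₁, T', ξ, hε₁, hε₁b, hε₁ε, g1, g2, g3, g4, g5, g6, g7, g8⟩ := bas_unif hκ A h1 h2 hb
  obtain ⟨K', hK', hF⟩ := x_in₀ hσ g1 g2
  refine ⟨ε₁, hε₁, hε₁b, hε₁ε, K', h3.trans (g3.trans hK'), ?_⟩
  intro y y' z z' c s s' hc hs hs'
  refine hF _ (x_class A.pos h2 g5 g6 g7 g8 hε₁ hε₁ε g4 (repI_congr hc fun t _ => ?_) hs hs')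
  show T ((1 / 8 : ℂ) * 0, t) = T (0, t)
  rw [mul_zero]

theorem x_out (hO : Ori N) {κ : ℝ × ℂ → N} (hκ : Thick κ) {p p' ε : ℝ} (A : Adm p p' ε) {y y' : ((core κ)ᶜ : Set N)}
    {c : Path y y'} {K' : Set N} (h : Fgr κ p p' ε c K') {b : ℝ} (hb : 0 < b) :
    ∃ ε₁ : ℝ, 0 < ε₁ ∧ ε₁ < b ∧ ε₁ ≤ ε ∧ ∃ T : E → N, Chd (core κ) T ∧ StdE κ p p' ε₁ 1 T ∧ LEqN K' (kn (core κ) T) ∧
      ∀ {z z' : ((core κ)ᶜ : Set N)} (s : Path z y) (s' : Path y' z'),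
        RepI (fun t => κ (p, (t : ℂ))) (ε₁ / 8) (ε / 8) s → RepI (fun t => κ (p', (t : ℂ))) (ε / 8) (ε₁ / 8) s' →
        RepI (fun x => T (0, x)) (1 / 8) (7 / 8) (s.trans (c.trans s')) := by
  obtain ⟨σ, r, T₀, h1, h2, hc, rfl⟩ := h
  obtain ⟨ε₁, T', ξ, hε₁, hε₁b, hε₁ε, g1, g2, g3, g4, g5, g6, g7, g8⟩ := bas_unif hκ A h1 h2 hb
  have hσ : σ = 1 := hO κ p p' ε₁ σ T' hκ hε₁ h2.sgn g1 g2
  subst hσ
  exact ⟨ε₁, hε₁, hε₁b, hε₁ε, T', g1, g2, g3, fun {z z'} s s' hs hs' =>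
    x_class A.pos h2 g5 g6 g7 g8 hε₁ hε₁ε g4 hc hs hs'⟩

end

end Pool.Agent.NHX
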