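import Mathlib
import Pool.Agent.NHX.Bas
import Pool.Agent.NHE.Exf
import Pool.Agent.NHE.Scx
import Pool.Agent.NHE.Siz
import Pool.Agent.NHE.Mvc

/-!
# NHX/Xe1: the field `E1` of `Ext` (difficulty 3)

`Y = O ∩ (core κ)ᶜ` (`= O \ core κ`), `a = κ (p, ε/8)`, `a' = κ (p', ε/8)`; `c₀ : Path a a'` the class of `f` (`path_rI`).  All points `κ (p, t)`, `0 < t < 4 ε`, are in `Y` (hypothesis and `Thick.inj`), so there are the radial classes `t : Path (κ (p, ε/2)) a`, `t' : Path a' (κ (p', ε/2))`.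
`exists_chord` for `4 ε` and `c = t.trans (c₀.trans t')` (`4 ε / 8 = ε / 2`; `eb κ p (4 ε) ⊆ O`: `(l - p)² + ‖v‖² < (4 ε)²`): `σ, r, T₁`.  `exists_stdE_unif` (`η = 1`, `δ = 1`) for `T₁`: `T₂` with `StdE κ p p' ε₃ σ` for some `ε₃ < ε`, `T₂ '' TD ⊆ T₁ '' TD ⊆ O`; `σ = 1` by `hO`.
`exists_scale` for `4 ε` and `ε' = 4 ε₃` : `X`.  `T q = X 1 (T₂ q)`: `chd_push` (`X 1 '' core κ = core κ`), `X 1 '' O = O` (the push is supported in the two balls `⊆ O`: `Push.mono`, `Push.image`).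
`StdE κ p p' ε 1 T`: for `q ∈ TD`, `q.2 < 1/4`: `T₂ q = footT κ p ε₃ q = footT κ p 1 (ε₃ • q)` (`foot_smul`), `nr (ε₃ • q) ≤ ε₃² (1 + 1/16) ≤ (2 ε₃)²`, so `X 1` of it is `footT κ p 1 ((4 ε / (4 ε₃)) • ε₃ • q) = footT κ p ε q`; the tip in the same way (`tip_foot`: `tipT κ p' ε σ q = footT κ p' ε (..)`).
Class: `x_class` (`ρ = ε₃`, size `4 ε`): the core of `T₂` has the class `s.trans (c.trans s')`, `s` radial from `ε₃/8` to `ε/2`.  `class_move` for `X` in `Y` (`X s` maps `Y` to `Y`): traces of `κ (p, ε₃/8)`, `κ (p', ε₃/8)`: `radial_trace` with the last clause of `exists_scale` (`X 1 (κ (p, ε₃/8)) = κ (p, ε/8)`: `κ (p, t) = footT κ p 1 (0, t)`):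
`d` radial from `ε₃/8` to `ε/8`.  So the core of `T` has the class `d.symm.trans ((s.trans (c.trans s')).trans d')`, all radial pieces at `p` compose to a radial loop at `ε/8`, which is constant (`repI_trans`, `repI_symm`, `repI_const`, `repI_iff` for the function `t ↦ κ (p, t)`), so it is homotopic to `c₀`.  `rI_hmt`, `rI_cor`.
-/

open scoped Manifold ContDiff Topology
open Set Filter
open Pool.Agent.CSG (stp)
open Pool.Agent.RSG (E3 ex Thick)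
open Pool.Agent.KNT (Dom Str Str2 BalC bmp)
open Pool.Agent.NHP
open Pool.Agent.NHE
open Pool.Agent.NHQ (Ori)
open Pool.Agent.NHR (PathOn Hmt cat rv seg mer cor kap FinE radc)

namespace Pool.Agent.NHX

variable {N : Type*} [TopologicalSpace N] [ChartedSpace E3 N] [IsManifold (𝓡 3) ∞ N] [T2Space N]

theorem ext_E1 (hO : Ori N) {κ : ℝ × ℂ → N} (hκ : Thick κ) {p p' ε : ℝ} (A : Adm p p' ε) (A4 : Adm p p' (4 * ε)) {O : Set N}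
    (hOo : IsOpen O) (hf : ∀ (l : ℝ) (v : ℂ), |l - p| < 4 * ε → ‖v‖ < 4 * ε → κ (l, v) ∈ O)
    (ht : ∀ (l : ℝ) (v : ℂ), |l - p'| < 4 * ε → ‖v‖ < 4 * ε → κ (l, v) ∈ O) {f : ℝ → N} (hfp : PathOn (O \ core κ) f)
    (h0 : f 0 = κ (p, ((ε / 8 : ℝ) : ℂ))) (h1 : f 1 = κ (p', ((ε / 8 : ℝ) : ℂ))) :
    ∃ T : E → N, Chd (core κ) T ∧ StdE κ p p' ε 1 T ∧ T '' TD ⊆ O ∧ Hmt (O \ core κ) (cor T) f := by
  have hε := A.pos
  have hε4 := A4.lt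
  have hYe : O \ core κ = O ∩ (core κ)ᶜ := by
    ext x
    exact Iff.rfl
  rw [hYe] at hfp
  have heb : ∀ P : ℝ, (∀ (l : ℝ) (v : ℂ), |l - P| < 4 * ε → ‖v‖ < 4 * ε → κ (l, v) ∈ O) → eb κ P (4 * ε) ⊆ O := by
    intro P hP
    rintro _ ⟨q, hq, rfl⟩
    have hq' : (q.1 - P) ^ 2 + ‖q.2‖ ^ 2 < (4 * ε) ^ 2 := hq
    refine hP q.1 q.2 ?_ ?_
    · exact abs_lt_of_sq_lt_sq (by nlinarith [sq_nonneg ‖q.2‖]) (by positivity)
    · exact lt_of_pow_lt_pow_left₀ 2 (by positivity) (by nlinarith [sq_nonneg (q.1 - P)])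
  have hOp := heb p hf
  have hOp' := heb p' ht
  have mr : ∀ P : ℝ, eb κ P (4 * ε) ⊆ O → ∀ t ∈ Ioo (0 : ℝ) (4 * ε), κ (P, (t : ℂ)) ∈ O ∩ (core κ)ᶜ :=
    fun P hP t ht => Exf_mem hκ hε4 hP ht
  have i8 : ε / 8 ∈ Ioo (0 : ℝ) (4 * ε) := ⟨by positivity, by linarith⟩
  have i2 : 4 * ε / 8 ∈ Ioo (0 : ℝ) (4 * ε) := ⟨by positivity, by linarith⟩
  -- base points
  let a : (O ∩ (core κ)ᶜ : Set N) := ⟨κ (p, ((ε / 8 : ℝ) : ℂ)), mr p hOp _ i8⟩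
  let a' : (O ∩ (core κ)ᶜ : Set N) := ⟨κ (p', ((ε / 8 : ℝ) : ℂ)), mr p' hOp' _ i8⟩
  let b : (O ∩ (core κ)ᶜ : Set N) := ⟨κ (p, ((4 * ε / 8 : ℝ) : ℂ)), mr p hOp _ i2⟩
  let b' : (O ∩ (core κ)ᶜ : Set N) := ⟨κ (p', ((4 * ε / 8 : ℝ) : ℂ)), mr p' hOp' _ i2⟩
  obtain ⟨c₀, hc₀⟩ := path_rI (y := a) (y' := a') hfp h0 h1
  obtain ⟨t, htr⟩ := Exf_rep (y := b) (y' := a) hκ hε4 hOp i2 i8 rfl rfl
  obtain ⟨t', htr'⟩ := Exf_rep (y := a') (y' := b') hκ hε4 hOp' i8 i2 rfl rfl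
  obtain ⟨σ, r, T₁, hT₁, hS₁, hT₁O, hc₁⟩ := exists_chord hκ A4 hOo hOp hOp' (t.trans (c₀.trans t')) rfl rfl
  obtain ⟨ε₀, hε₀, hε₀ε, hex⟩ := exists_stdE_unif hκ A4 hT₁ hS₁ (δ := 1) one_pos
  obtain ⟨ε₃, h3, h30, h3ε⟩ : ∃ ε₃ : ℝ, 0 < ε₃ ∧ ε₃ < ε₀ ∧ ε₃ < ε :=
    ⟨min (ε₀ / 2) (ε / 2), lt_min (by linarith) (by linarith), lt_of_le_of_lt (min_le_left _ _) (by linarith),
      lt_of_le_of_lt (min_le_right _ _) (by linarith)⟩
  obtain ⟨T₂, ξ, hT₂, hS₂, -, hsub, hξT, hξs, hξm, -, -, hξ1, hξ7⟩ := hex 1 ε₃ one_pos le_rfl h3 h30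
  have hfun : (fun q : ℝ × ℂ => κ (q.1, ((1 : ℝ) : ℂ) * q.2)) = κ := by
    funext q
    rw [Complex.ofReal_one, one_mul]
  rw [hfun] at hS₂
  have hσ : σ = 1 := hO κ p p' ε₃ σ T₂ hκ h3 hS₁.sgn hT₂ hS₂
  subst hσ
  obtain ⟨X, hX, hXK, hXp, hXp', hXr⟩ := exists_scale hκ A4 (ε' := 4 * ε₃) (by positivity) (by linarith)
  have hXO : Push O X := hX.mono (union_subset hOp hOp')
  have hT₂O : ∀ q ∈ TD, T₂ q ∈ O := by
    intro q hq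
    obtain ⟨q', hq', he⟩ := hsub (mem_image_of_mem T₂ hq)
    rw [← he]
    exact hT₁O ⟨q', hq'.1, rfl⟩
  have hsc : 4 * ε / (4 * ε₃) * ε₃ = ε := by field_simp
  have hchd := (chd_push hT₂ hX 1).1
  rw [hXK 1] at hchd
  have hi3 : ε₃ / 8 ∈ Ioo (0 : ℝ) (4 * ε) := ⟨by positivity, by linarith⟩
  have hfoot : ∀ (P x : ℝ), footT κ P 1 ((0, x) : E) = κ (P, (x : ℂ)) := by
    intro P x
    have := Exf_foot κ P 1 x
    rw [one_mul] at this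
    exact this
  have hnrbound : ∀ (w : ℂ) (x : ℝ), ‖w‖ < 1 → x ^ 2 ≤ 1 / 16 → nr (ε₃ • ((w, x) : E)) ≤ (4 * ε₃ / 2) ^ 2 := by
    intro w x hw hx
    rw [nr_smul]
    have h1 : nr ((w, x) : E) ≤ 2 := by
      change ‖w‖ ^ 2 + x ^ 2 ≤ 2
      nlinarith [norm_nonneg w]
    nlinarith [sq_nonneg ε₃]
  have hstd : StdE κ p p' ε 1 (fun q => X 1 (T₂ q)) := by
    constructor
    · intro q hq hq2
      rw [hS₂.foot q hq hq2, foot_smul κ p ε₃ q, hXp _ (hnrbound q.1 q.2 hq.1 (by nlinarith [hq.2.1])), smul_smul, hsc,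
        ← foot_smul]
    · intro q hq hq2
      have e1 : ((⟨1 * ε₃ * q.1.im, ε₃ * q.1.re⟩ : ℂ), ε₃ * (1 - q.2)) = ε₃ • (((⟨q.1.im, q.1.re⟩ : ℂ), 1 - q.2) : E) := by
        refine Prod.ext (Complex.ext ?_ ?_) ?_
        · simp
        · simp
        · simp
      have e2 : ((⟨1 * ε * q.1.im, ε * q.1.re⟩ : ℂ), ε * (1 - q.2)) = ε • (((⟨q.1.im, q.1.re⟩ : ℂ), 1 - q.2) : E) := by
        refine Prod.ext (Complex.ext ?_ ?_) ?_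
        · simp
        · simp
        · simp
      have hn : ‖(⟨q.1.im, q.1.re⟩ : ℂ)‖ < 1 := by
        have : ‖(⟨q.1.im, q.1.re⟩ : ℂ)‖ = ‖q.1‖ := by
          rw [Complex.norm_def, Complex.norm_def, Complex.normSq_mk, Complex.normSq_apply]
          ring_nf
        rw [this]
        exact hq.1
      rw [hS₂.tip q hq hq2, tip_foot, e1, hXp' _ (hnrbound _ _ hn (by nlinarith [hq.2.2])), smul_smul, hsc, tip_foot, e2]
  refine ⟨fun q => X 1 (T₂ q), hchd, hstd, ?_, ?_⟩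
  · rintro _ ⟨q, hq, rfl⟩
    exact hXO.mem 1 (hT₂O q hq)
  -- the class
  let z : (O ∩ (core κ)ᶜ : Set N) := ⟨κ (p, ((ε₃ / 8 : ℝ) : ℂ)), mr p hOp _ hi3⟩
  let z' : (O ∩ (core κ)ᶜ : Set N) := ⟨κ (p', ((ε₃ / 8 : ℝ) : ℂ)), mr p' hOp' _ hi3⟩
  obtain ⟨s, hs⟩ := Exf_rep (y := z) (y' := b) hκ hε4 hOp hi3 i2 rfl rfl
  obtain ⟨s', hs'⟩ := Exf_rep (y := b') (y' := z') hκ hε4 hOp' i2 hi3 rfl rfl
  obtain ⟨d, hd⟩ := Exf_rep (y := z) (y' := a) hκ hε4 hOp hi3 i8 rfl rfl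
  obtain ⟨d', hd'⟩ := Exf_rep (y := z') (y' := a') hκ hε4 hOp' hi3 i8 rfl rfl
  have hcls := x_class (T' := T₂) (ρ := ε₃) (by positivity : (0 : ℝ) < 4 * ε) hS₁ hξs.continuous hξm
    (by rw [hξ1, one_mul]) (by rw [hξ7, one_mul]) h3 (by linarith) hξT hc₁ hs hs'
  have hXY : ∀ s ∈ Icc (0 : ℝ) 1, ∀ x ∈ O ∩ (core κ)ᶜ, X s x ∈ O ∩ (core κ)ᶜ := by
    rintro s - x ⟨hx, hx'⟩
    refine ⟨hXO.mem s hx, ?_⟩
    intro hc
    rw [← hXK s] at hc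
    obtain ⟨y, hy, hyx⟩ := hc
    exact hx' ((X s).injective hyx ▸ hy)
  have hend : ∀ P : ℝ, (∀ q : E, nr q ≤ (4 * ε₃ / 2) ^ 2 → X 1 (footT κ P 1 q) = footT κ P 1 ((4 * ε / (4 * ε₃)) • q)) →
      X 1 (κ (P, ((ε₃ / 8 : ℝ) : ℂ))) = κ (P, ((ε / 8 : ℝ) : ℂ)) := by
    intro P hP
    rw [← hfoot, hP, ← hfoot]
    · congr 1
      refine Prod.ext ?_ ?_
      · simp
      · change 4 * ε / (4 * ε₃) * (ε₃ / 8) = ε / 8
        field_simp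
    · change ‖(0 : ℂ)‖ ^ 2 + (ε₃ / 8) ^ 2 ≤ _
      rw [norm_zero]
      nlinarith [sq_nonneg ε₃]
  have tr := radial_trace hκ (by linarith) hX (fun s t ht => (hXr p (Or.inl rfl) s t ht).1) hi3 i8 (hend p hXp)
    (mr p hOp) hd
  have tr' := radial_trace hκ (by linarith) hX (fun s t ht => (hXr p' (Or.inr rfl) s t ht).1) hi3 i8 (hend p' hXp')
    (mr p' hOp') hd'
  have hT₂0 : T₂ (0, 1 / 8) = κ (p, ((ε₃ / 8 : ℝ) : ℂ)) := by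
    have hq : ((0, 1 / 8) : E) ∈ TD := ⟨by simp, by norm_num, by norm_num⟩
    rw [hS₂.foot _ hq (by norm_num), Exf_foot]
    congr 4
    ring
  have hT₂1 : T₂ (0, 7 / 8) = κ (p', ((ε₃ / 8 : ℝ) : ℂ)) := by
    have hq : ((0, 7 / 8) : E) ∈ TD := ⟨by simp, by norm_num, by norm_num⟩
    rw [hS₂.tip _ hq (by norm_num), Exf_tip]
    congr 4
    ring
  rw [← hT₂0] at tr
  rw [← hT₂1] at tr'
  have hmv := class_move (f := fun x => T₂ (0, x)) hX hXY hcls tr tr'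
  have loop : ∀ (P : ℝ) {u v : (O ∩ (core κ)ᶜ : Set N)} {g : Path u u}, RepI (fun t => κ (P, (t : ℂ))) (ε / 8) (ε / 8) g →
      (u : N) = κ (P, ((ε / 8 : ℝ) : ℂ)) → g.Homotopic (Path.refl u) := by
    intro P u v g hg hu
    refine (repI_iff hg).1 (repI_const ?_)
    intro t ht
    rw [uIcc_self, mem_singleton_iff] at ht
    rw [ht, hu]
  have l1 : ((d.symm.trans s).trans t).Homotopic (Path.refl a) :=
    loop p (v := a) (repI_trans (repI_trans (repI_symm hd) hs) htr) rfl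
  have l2 : ((t'.trans s').trans d').Homotopic (Path.refl a') :=
    loop p' (v := a') (repI_trans (repI_trans htr' hs') hd') rfl
  have hfin : RepI (fun x => X 1 (T₂ (0, x))) (1 / 8) (7 / 8) c₀ :=
    (repI_iff hmv).2 (Exf_hom (Path.Homotopic.refl _) l1 l2)
  have hcor : RepI (cor fun q => X 1 (T₂ q)) 0 1 c₀ := rI_cor.2 hfin
  rw [hYe]
  exact rI_hmt hcor hc₀

end Pool.Agent.NHX
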