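import Mathlib
import Pool.Agent.NHX.Bas
import Pool.Agent.NHE.Unq

/-!
# NHX/Xe2: the field `E2` of `Ext` (difficulty 1)

`cor T`, `cor T'` are paths in `(core κ)ᶜ` with the same ends (`hh` gives `PathOn`, `hh.zero` ..); classes `c` of `cor T` (`path_rI` for `cor T`: continuous, values in `(core κ)ᶜ`: from `hh`), by `hmt_rI` also the class of `cor T'`; `rI_cor`; `x_in₀` for `T` and for `T'`; `fgr_unique` with `c` and `c' = c`.
-/

open scoped Manifold ContDiff Topology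
open Set Filter
open Pool.Agent.RSG (E3 ex Thick)
open Pool.Agent.NHP
open Pool.Agent.NHE
open Pool.Agent.NHR (PathOn Hmt cat rv seg mer cor kap FinE radc)

namespace Pool.Agent.NHX

variable {N : Type*} [TopologicalSpace N] [ChartedSpace E3 N] [IsManifold (𝓡 3) ∞ N] [T2Space N]

theorem xe2_left {N : Type*} [TopologicalSpace N] {Y : Set N} {f g : ℝ → N} (h : Hmt Y f g) : PathOn Y f := by
  obtain ⟨H, hc, hY, h01, -⟩ := h
  have m0 : (0 : ℝ) ∈ Icc (0 : ℝ) 1 := ⟨le_rfl, zero_le_one⟩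
  refine ⟨?_, fun t ht => ?_⟩
  · have h1 : ContinuousOn (fun t : ℝ => H (0, t)) (Icc 0 1) := by
      refine hc.comp (by fun_prop) ?_
      intro t ht
      exact ⟨m0, ht⟩
    exact h1.congr fun t ht => (h01 t ht).1.symm
  · rw [← (h01 t ht).1]
    exact hY _ ⟨m0, ht⟩

theorem ext_E2 {κ : ℝ × ℂ → N} (hκ : Thick κ) {p p' ε : ℝ} (A : Adm p p' ε) {T T' : E → N} (hT : Chd (core κ) T)
    (hT' : Chd (core κ) T') (hS : StdE κ p p' ε 1 T) (hS' : StdE κ p p' ε 1 T') (hh : Hmt (core κ)ᶜ (cor T) (cor T')) :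
    LEqN (kn (core κ) T) (kn (core κ) T') := by
  have hp : PathOn (core κ)ᶜ (cor T) := xe2_left hh
  have m0 : (0 : ℝ) ∈ Icc (0 : ℝ) 1 := ⟨le_rfl, zero_le_one⟩
  have m1 : (1 : ℝ) ∈ Icc (0 : ℝ) 1 := ⟨zero_le_one, le_rfl⟩
  obtain ⟨c, hc⟩ := path_rI (y := (⟨cor T 0, hp.2 0 m0⟩ : ((core κ)ᶜ : Set N)))
    (y' := (⟨cor T 1, hp.2 1 m1⟩ : ((core κ)ᶜ : Set N))) hp rfl rfl
  have hc' := hmt_rI hh hc
  obtain ⟨K₁, hK₁, h1⟩ := x_in₀ (Or.inl rfl) hT hS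
  obtain ⟨K₂, hK₂, h2⟩ := x_in₀ (Or.inl rfl) hT' hS'
  have f1 := h1 c (rI_cor.1 hc)
  have f2 := h2 c (rI_cor.1 hc')
  exact hK₁.trans ((fgr_unique hκ A (Path.Homotopic.refl c) f1 f2).trans hK₂.symm)

end Pool.Agent.NHX
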