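import Mathlib
import Pool.Agent.NHE.Tyc

/-!
# NHX/Xba: a push which carries the tip germ to the foot germ, in an open set `Y` off the closed end boxes (difficulty 2, copy)

The real file is /team-store/nhe_Tyc.lean (helper51): copy `tyc_first` and `tyc_second` with `Yt κ O p p' ε` replaced by `Y`: `Yt_open` becomes `hY`, `tyc_foot_Yt` becomes `hYt` (all charts used there have `‖q.1‖ < 1/2`, `1/4 < q.2 < 5/8`), membership `∉ Yt` of the points of the box becomes `hYb`.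
All helper lemmas (`tycF`, `tyc_tipF`, `tyc_foot0`, `tyc_tip0`, `tyc_footCht`, `tyc_tipCht`, `tyc_transl`, `tyc_half`, `tyc_ball`, `tyc_interval`, `tyc_nr0`, `tyc_nr0'`, `tyc_tip_ne_foot`, `tyc_fix`, `tyc_tip_curve_smooth`, ..) are available from NHE/Tyc.
-/

open scoped Manifold ContDiff Topology
open Set Filter
open Pool.Agent.CSG (stp)
open Pool.Agent.RSG (E3 ex Thick)
open Pool.Agent.KNT (Dom Str Str2 BalC bmp)
open Pool.Agent.NHP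
open Pool.Agent.NHE

namespace Pool.Agent.NHX

variable {N : Type*} [TopologicalSpace N] [ChartedSpace E3 N] [IsManifold (𝓡 3) ∞ N] [T2Space N]

theorem xba_first {κ : ℝ × ℂ → N} (hκ : Thick κ) {p p' ε : ℝ} (A : Adm p p' ε) {Y : Set N} (hY : IsOpen Y)
    (hYt : ∀ q : E, ‖q.1‖ < 1 / 2 → 1 / 4 < q.2 → q.2 < 5 / 8 → footT κ p ε q ∈ Y ∧ footT κ p' ε q ∈ Y)
    {z z' : Y} (c₁ : Path z z')
    (hz : (z : N) = κ (p, ((ε / 2 : ℝ) : ℂ))) (hz' : (z' : N) = κ (p', ((ε / 2 : ℝ) : ℂ))) :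
    ∃ (σ : ℝ) (V : ℝ → Equiv.Perm N), (σ = 1 ∨ σ = -1) ∧ Push Y V ∧ Follows V c₁.symm ∧
      ∃ ρ : ℝ, 0 < ρ ∧ ρ ≤ 1 / 8 ∧ ∀ q ∈ Bl ρ, V 1 (tipT κ p' ε σ (q.1, 1 / 2 + q.2)) = footT κ p ε (q.1, 1 / 2 + q.2) := by
  have hφ : Cht (Bl (1 / 8)) fun q => tipT κ p' ε 1 (((0, 1 / 2) : E) + q) := by
    refine tyc_transl (tyc_tipCht hκ p' A.pos A.lt (Or.inl rfl)) (isOpen_Bl _) _ fun q hq => ?_
    obtain ⟨h1, h2⟩ := tyc_ball hq
    show nr (tycF 1 _) < 2 ^ 2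
    rw [tyc_nrF (Or.inl rfl), tyc_half]
    show ‖q.1‖ ^ 2 + (1 - (1 / 2 + q.2)) ^ 2 < 2 ^ 2
    rw [abs_lt] at h2
    have := norm_nonneg q.1
    nlinarith
  have hφ' : Cht (Bl (1 / 8)) fun q => footT κ p ε (((0, 1 / 2) : E) + q) := by
    refine tyc_transl (tyc_footCht hκ p A.pos A.lt) (isOpen_Bl _) _ fun q hq => ?_
    obtain ⟨h1, h2⟩ := tyc_ball hq
    rw [tyc_half]
    show ‖q.1‖ ^ 2 + (1 / 2 + q.2) ^ 2 < 2 ^ 2
    rw [abs_lt] at h2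
    have := norm_nonneg q.1
    nlinarith
  have hY' : (fun q => footT κ p ε (((0, 1 / 2) : E) + q)) '' Bl (1 / 8) ⊆ Y := by
    rintro x ⟨q, hq, rfl⟩
    obtain ⟨h1, h2⟩ := tyc_ball hq
    rw [abs_lt] at h2
    show footT κ p ε (((0, 1 / 2) : E) + q) ∈ _
    rw [tyc_half]
    exact (hYt _ (by show ‖q.1‖ < 1 / 2; linarith) (by show 1 / 4 < 1 / 2 + q.2; linarith)
      (by show 1 / 2 + q.2 < 5 / 8; linarith)).1
  have e0 : tipT κ p' ε 1 (((0, 1 / 2) : E) + 0) = z' := by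
    rw [add_zero, tyc_tip0, hz']
    congr 3
    ring
  have e1 : footT κ p ε (((0, 1 / 2) : E) + 0) = z := by
    rw [add_zero, tyc_foot0, hz]
    congr 3
    ring
  obtain ⟨V, hV1, hV2, ρ, hρ, hcase⟩ := connect hY c₁.symm (by norm_num : (0 : ℝ) < 1 / 8) hφ hφ' hY' e0 e1
  have hmono : ∀ q ∈ Bl (min ρ (1 / 8)), q ∈ Bl ρ := fun q hq =>
    Bl_mono (lt_min hρ (by norm_num)) (min_le_left _ _) hq
  rcases hcase with hcase | hcase
  · refine ⟨1, V, Or.inl rfl, hV1, hV2, min ρ (1 / 8), lt_min hρ (by norm_num), min_le_right _ _, fun q hq => ?_⟩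
    have := hcase q (hmono q hq)
    rw [tyc_half] at this
    exact this
  · refine ⟨-1, V, Or.inr rfl, hV1, hV2, min ρ (1 / 8), lt_min hρ (by norm_num), min_le_right _ _, fun q hq => ?_⟩
    have hrq : ((starRingEnd ℂ q.1, q.2) : E) ∈ Bl ρ := by
      have h1 : nr q < ρ ^ 2 := hmono q hq
      show nr _ < ρ ^ 2
      unfold nr at h1 ⊢
      show ‖starRingEnd ℂ q.1‖ ^ 2 + q.2 ^ 2 < ρ ^ 2
      rw [RCLike.norm_conj]
      exact h1
    have h2 := hcase _ hrq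
    rw [refL_apply, tyc_half, tyc_half] at h2
    have h3 : tipT κ p' ε (-1) (q.1, 1 / 2 + q.2) = tipT κ p' ε 1 (starRingEnd ℂ q.1, 1 / 2 + q.2) := by
      rw [tyc_tipF, tyc_tipF]
      congr 1
      unfold tycF
      refine Prod.ext (Complex.ext ?_ ?_) rfl
      · simp
      · simp
    rw [h3]
    simp only [Complex.conj_conj] at h2
    exact h2

theorem xba_main {κ : ℝ × ℂ → N} (hκ : Thick κ) {p p' ε : ℝ} (A : Adm p p' ε) {Y : Set N} (hY : IsOpen Y)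
    (hYb : ∀ q : E, ‖q.1‖ ≤ 1 → |q.2| ≤ 1 / 4 → footT κ p ε q ∉ Y ∧ footT κ p' ε q ∉ Y)
    (hYt : ∀ q : E, ‖q.1‖ < 1 / 2 → 1 / 4 < q.2 → q.2 < 5 / 8 → footT κ p ε q ∈ Y ∧ footT κ p' ε q ∈ Y)
    {z z' : Y} (c₁ : Path z z') (hz : (z : N) = κ (p, ((ε / 2 : ℝ) : ℂ))) (hz' : (z' : N) = κ (p', ((ε / 2 : ℝ) : ℂ))) :
    ∃ (σ : ℝ) (V : ℝ → Equiv.Perm N), (σ = 1 ∨ σ = -1) ∧ Push Y V ∧ Follows V c₁.symm ∧
      (∃ ρ : ℝ, 0 < ρ ∧ ρ ≤ 1 / 8 ∧
        ∀ q ∈ Bl ρ, V 1 (tipT κ p' ε σ (q.1, 1 / 2 + q.2)) = footT κ p ε (q.1, 1 / 2 + q.2)) ∧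
      ∀ t ∈ Icc (1 / 2 : ℝ) (5 / 4), ∀ x ∈ Ioo (1 / 4 : ℝ) (1 / 2),
        V 1 (tipT κ p' ε σ ((0 : ℂ), t)) ≠ footT κ p ε ((0 : ℂ), x) := by
  obtain ⟨σ, V, hσ, hV, hF, ρ, hρ, hρ1, hg⟩ := xba_first hκ A hY hYt c₁ hz hz'
  have h0 := A.pos
  have h1 := A.lt
  -- the chart of the segment
  have hsub : ∀ q : E, ‖q.1‖ < 1 / 2 ∧ 1 / 4 < q.2 ∧ q.2 < 1 / 2 → nr q < 1 := by
    rintro q ⟨a1, a2, a3⟩
    unfold nr
    nlinarith [norm_nonneg q.1]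
  have hβo : IsOpen {q : E | ‖q.1‖ < 1 / 2 ∧ 1 / 4 < q.2 ∧ q.2 < 1 / 2} :=
    (isOpen_lt (continuous_norm.comp continuous_fst) continuous_const).inter
      ((isOpen_lt continuous_const continuous_snd).inter (isOpen_lt continuous_snd continuous_const))
  have hβ : Cht {q : E | ‖q.1‖ < 1 / 2 ∧ 1 / 4 < q.2 ∧ q.2 < 1 / 2} (footT κ p ε) :=
    (tyc_footCht hκ p h0 h1).mono hβo fun q hq => (show nr q < 2 ^ 2 by linarith [hsub q hq])
  have hβY : footT κ p ε '' {q : E | ‖q.1‖ < 1 / 2 ∧ 1 / 4 < q.2 ∧ q.2 < 1 / 2} ⊆ Y := by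
    rintro x ⟨q, hq, rfl⟩
    exact (hYt q hq.1 hq.2.1 (by linarith [hq.2.2])).1
  -- near the parameter `1/2` the curves agree
  have hnear : ∀ t ∈ Icc (1 / 2 : ℝ) (1 / 2 + ρ / 2), V 1 (tipT κ p' ε σ ((0 : ℂ), t)) = footT κ p ε ((0 : ℂ), t) := by
    intro t ht
    have hb : (((0 : ℂ), t - 1 / 2) : E) ∈ Bl ρ := by
      show nr ((0 : ℂ), t - 1 / 2) < ρ ^ 2
      rw [tyc_nr0]
      nlinarith [ht.1, ht.2]
    have := hg _ hb
    simp only [add_sub_cancel] at this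
    exact this
  have hgc : ContinuousOn (fun t : ℝ => V 1 (tipT κ p' ε σ ((0 : ℂ), t))) (Icc (1 / 2 + ρ / 2) (5 / 4)) := fun t ht =>
    (tyc_tip_curve_smooth hκ h0 h1 hσ hV (t := t)
      ⟨by linarith [ht.1], by linarith [ht.2]⟩).continuousAt.continuousWithinAt
  have hfc : ContinuousOn (fun x : ℝ => footT κ p ε ((0 : ℂ), x)) (Icc (1 / 4) (1 / 2)) :=
    (tyc_foot_curve_cont hκ h0 h1).mono fun x hx => ⟨by linarith [hx.1], by linarith [hx.2]⟩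
  set B : Set (ℝ × ℝ) := Icc (1 / 2 + ρ / 2) (5 / 4) ×ˢ Icc (1 / 4) (1 / 2) with hB
  have hBc : IsCompact B := isCompact_Icc.prod isCompact_Icc
  set S : Set (ℝ × ℝ) := B ∩ (fun r : ℝ × ℝ => (V 1 (tipT κ p' ε σ ((0 : ℂ), r.1)), footT κ p ε ((0 : ℂ), r.2))) ⁻¹'
    diagonal N with hS
  have hSc : IsCompact S := by
    have hcl : IsClosed S := by
      refine ContinuousOn.preimage_isClosed_of_isClosed ?_ hBc.isClosed isClosed_diagonal
      exact (hgc.comp continuousOn_fst fun r hr => hr.1).prodMk (hfc.comp continuousOn_snd fun r hr => hr.2)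
    exact hBc.of_isClosed_subset hcl inter_subset_left
  have hKc : IsCompact (Prod.snd '' S) := hSc.image continuous_snd
  have hKs : Prod.snd '' S ⊆ Ioo (1 / 4 : ℝ) (1 / 2) := by
    rintro x ⟨⟨t, x'⟩, ⟨⟨ht, hx⟩, hd⟩, rfl⟩
    have hd' : V 1 (tipT κ p' ε σ ((0 : ℂ), t)) = footT κ p ε ((0 : ℂ), x') := hd
    have ht1 : 1 / 2 + ρ / 2 ≤ t := ht.1
    have ht2 : t ≤ 5 / 4 := ht.2
    have hx1 : 1 / 4 ≤ x' := hx.1
    have hx2 : x' ≤ 1 / 2 := hx.2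
    refine ⟨lt_of_le_of_ne hx1 ?_, lt_of_le_of_ne hx2 ?_⟩
    · intro (he : 1 / 4 = x')
      have hno : footT κ p ε ((0 : ℂ), x') ∉ Y := by
        refine (hYb ((0 : ℂ), x') ?_ ?_).1
        · simp
        · show |x'| ≤ 1 / 4
          rw [← he, abs_of_pos (by norm_num)]
      have h2 := tyc_fix hV hd' hno
      refine tyc_tip_ne_foot hκ A ?_ ?_ h2
      · rw [tyc_nr0' t hσ]
        nlinarith
      · rw [tyc_nr0]
        nlinarith
    · intro (he : x' = 1 / 2)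
      have h2 := hnear (1 / 2) ⟨le_refl _, by linarith⟩
      rw [he, ← h2] at hd'
      have h3 := (V 1).injective hd'
      have h4 := tyc_tip_inj hκ h0 h1 hσ (x := t) (x' := 1 / 2) ⟨by linarith, by linarith⟩ ⟨by norm_num, by norm_num⟩ h3
      linarith
  obtain ⟨x₀, x₁, hx0, hx01, hx1, hKx⟩ := tyc_interval hKc (by norm_num) hKs
  obtain ⟨P, hP, hPne⟩ := arc_off (a := 1 / 2) (b := 5 / 4) (by norm_num : (0 : ℝ) < 1 / 2) hβ
    (g := fun t : ℝ => V 1 (tipT κ p' ε σ ((0 : ℂ), t))) (U := Ioo 0 2) isOpen_Ioo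
    (fun t ht => ⟨by linarith [ht.1], by linarith [ht.2]⟩)
    (fun t ht => tyc_tip_curve_smooth hκ h0 h1 hσ hV ht) hx0 hx01 hx1 (by
      intro t ht x hx he
      have ht3 : 1 / 2 + ρ / 2 ≤ t := by
        by_contra hlt
        rw [not_le] at hlt
        have h2 := hnear t ⟨ht.1, hlt.le⟩
        have he' : V 1 (tipT κ p' ε σ ((0 : ℂ), t)) = footT κ p ε ((0 : ℂ), x) := he
        rw [h2] at he'
        have h3 := tyc_foot_inj hκ h0 h1 (x := t) (x' := x) ⟨by linarith [ht.1], by linarith [ht.2]⟩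
          ⟨by linarith [hx.1], by linarith [hx.2]⟩ he'
        linarith [ht.1, hx.2]
      exact hKx ⟨(t, x), ⟨⟨⟨ht3, ht.2⟩, ⟨hx.1.le, hx.2.le⟩⟩, he⟩, rfl⟩)
  have hPY : Push Y P := hP.mono hβY
  have hzβ : (z : N) ∉ footT κ p ε '' {q : E | ‖q.1‖ < 1 / 2 ∧ 1 / 4 < q.2 ∧ q.2 < 1 / 2} := by
    rintro ⟨q, hq, he⟩
    have h2 : (z : N) = footT κ p ε ((0 : ℂ), 1 / 2) := by
      rw [tyc_foot0, hz]
      congr 3
      ring
    rw [h2] at he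
    have h3 : q = ((0 : ℂ), 1 / 2) := by
      refine (tyc_footCht hκ p h0 h1).inj (show nr q < 2 ^ 2 by linarith [hsub q hq]) ?_ he
      show nr ((0 : ℂ), (1 / 2 : ℝ)) < 2 ^ 2
      rw [tyc_nr0]
      norm_num
    have h4 := hq.2.2
    rw [h3] at h4
    exact lt_irrefl _ h4
  refine ⟨σ, fun s => (V s).trans (P s), hσ, hV.comp hPY, ?_, ?_, ?_⟩
  · have h2 : Follows P (Path.refl z) := follows_refl z fun t _ => hP.out t hzβ
    have h3 := follows_comp hV hPY hF h2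
    exact (rep_iff h3).2 ⟨Path.Homotopy.transRefl _⟩
  · obtain ⟨C, hC, hCβ, hCfix⟩ := hP.supp
    have hzC : (z : N) ∉ C := fun h => hzβ (hCβ h)
    have hcont : ContinuousAt (fun q : E => footT κ p ε (((0, 1 / 2) : E) + q)) 0 := by
      have hm : ((0, 1 / 2) : E) + 0 ∈ Bl 2 := by
        rw [add_zero]
        show nr ((0 : ℂ), (1 / 2 : ℝ)) < 2 ^ 2
        rw [tyc_nr0]
        norm_num
      have g1 := ((tyc_footCht hκ p h0 h1).loc _ hm).contMDiffAt.continuousAt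
      exact ContinuousAt.comp (f := fun q : E => ((0, 1 / 2) : E) + q) g1 (by fun_prop)
    have hz0 : footT κ p ε (((0, 1 / 2) : E) + 0) = z := by
      rw [add_zero, tyc_foot0, hz]
      congr 3
      ring
    have hnb : (fun q : E => footT κ p ε (((0, 1 / 2) : E) + q)) ⁻¹' Cᶜ ∈ 𝓝 (0 : E) := by
      refine hcont.preimage_mem_nhds ?_
      show Cᶜ ∈ 𝓝 (footT κ p ε (((0, 1 / 2) : E) + 0))
      rw [hz0]
      exact hC.isClosed.isOpen_compl.mem_nhds hzC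
    obtain ⟨ρ₂, hρ₂, hb⟩ := exists_Bl hnb
    refine ⟨min ρ ρ₂, lt_min hρ hρ₂, (min_le_left _ _).trans hρ1, fun q hq => ?_⟩
    have hq1 : q ∈ Bl ρ := Bl_mono (lt_min hρ hρ₂) (min_le_left _ _) hq
    have hq2 : q ∈ Bl ρ₂ := Bl_mono (lt_min hρ hρ₂) (min_le_right _ _) hq
    have h3 : footT κ p ε (((0, 1 / 2) : E) + q) ∉ C := hb (show nr q ≤ ρ₂ ^ 2 from le_of_lt hq2)
    rw [tyc_half] at h3
    show P 1 (V 1 (tipT κ p' ε σ (q.1, 1 / 2 + q.2))) = _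
    rw [hg q hq1]
    exact hCfix 1 _ h3
  · intro t ht x hx
    exact hPne t ht x hx

end Pool.Agent.NHX
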