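import Mathlib
import Pool.Agent.NHX.Xba
import Pool.Agent.NHX.Dict
import Pool.Agent.NHE.Tub
import Pool.Agent.NHE.Mvc
import Pool.Agent.NHQ.KerD

/-!
# NHX/Xeb: the field `E1b` of `Ext` (difficulty 4)

As `tiny_chord` (/team-store/nhe_Tyc.lean, helper51; copy what you can), but with ends of FULL width.  `c₁` = class of `f` in `Y` (`path_rI`), `xba_main`: `σ, V, ρ`.  `G = tycG κ p p' ε σ V` (foot for `x ≤ 1/2`, `V 1 (tipT ..)` for `x > 1/2`).  `tycG_loc` applies; `tycG_inj` is copied with `Y` (for `x ≤ 1/4` the foot point is `∉ Y`, fixed by `V`).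
`exists_tube` with `O = univ`: `r₀`, `G` is a chart on `{‖w‖ < r₀, -1/4 < x < 5/4}`.
`μ`: the support `C ⊆ Y` of `V` (`Push.supp`) is compact and disjoint from the compact closed boxes `{‖w‖ ≤ 1, |x| ≤ 1/4}` at `p` and `p'`, so there is `0 < μ ≤ 1/16` with `footT κ p ε q ∉ C`, `footT κ p' ε q ∉ C` for `‖q.1‖ ≤ 1`, `|q.2| ≤ 1/4 + μ` (generalized tube lemma / compactness of `{‖w‖ ≤ 1, |x| ≤ 5/16}`: distance in `E` of the compact box from the closed preimage of `C`).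
SEPARATION: `footT κ p ε q ≠ footT κ p' ε q'` for `‖q.1‖, ‖q'.1‖ ≤ 1`, `|q.2|, |q'.2| ≤ 5/4` (`Thick.inj`: the norms of the second components are `≤ ε · 2 < 1`, so `p + ε re q.1 - p' - ε re q'.1 = k ∈ ℤ`; but `2 ε < |p - p' - k|`, `Adm.far`).
SHAPE: `a x = r + (1 - r) (1 - stp (1/4) (1/4 + μ) x + stp (3/4 - μ) (3/4) x)`, `r = min r₀ (1/4) / 2`: smooth, `0 < a ≤ 1`, `a = 1` for `x ≤ 1/4` and `x ≥ 3/4`, `a = r` for `1/4 + μ ≤ x ≤ 3/4 - μ`.  `T q = G (a q.2 * q.1, q.2)`.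
`R = {(w, x) : ‖w‖ < a x, -1/4 < x < 5/4}` is open; `G` is a local diffeomorphism on `R`: for `‖w‖ < r₀` by the tube; otherwise `x < 1/4 + μ` (foot chart, `nr < 4`) or `x > 3/4 - μ` (`V 1` of the tip chart).  `G` is injective on `R`: let `G P = G P'`, `P = (w, x)`, `P' = (w', x')`.  If both are in the tube: done.  If `x < 1/4 + μ`: `G P = footT P ∉ C`;
if `x' ≤ 1/2` use the foot chart; if `x' > 1/2`: `V 1 (tipT P') = footT P ∉ C`, so `tipT P' = footT P` (`V` is the identity off `C`, injective): contradiction to SEPARATION (`tipT P' = footT κ p' ε (tycF σ P')`, `‖(tycF σ P').1‖ = ‖w'‖`).  If `x > 3/4 - μ`: `tipT P ∉ C` (`tycF`: second component `1 - x`, `|1 - x| ≤ 1/4 + μ`), so `G P = tipT P`;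
`x' > 1/2`: the push and the tip chart are injective; `x' ≤ 1/2`: SEPARATION.  So `Cht R G`; `(w, x) ↦ (a x w, x)` is injective with bijective derivative, maps `TD` into `R`: `Cht TD T`.
`T q ∈ core κ ↔ q ∈ TS`-conditions as in `tiny_chord` (`a 0 = a 1 = 1`; `V` preserves `core κ` and its complement since `Y` is disjoint from it).  `StdE κ p p' ε σ T` : `a = 1`, `V 1 (tipT q) = tipT q` for `x > 3/4`.  `σ = 1` by `hO`.
MIDDLE part: `1/4 ≤ x ≤ 3/8`: `q' = (a w, x)`.  `5/8 ≤ x ≤ 3/4`, `x > 3/4 - μ`: `T q = tipT (a w, x) = footT κ p' ε q'`, `q' = tycF σ (a w, x)`, `1/4 ≤ q'.2 ≤ 3/8`.  `5/8 ≤ x ≤ 3/4 - μ`: `‖a w‖ < r < 1/2`, `tipT (..) = footT κ p' ε (.., 1 - x) ∈ Y` (`1/4 < 1 - x < 5/8`), and `V 1` maps `Y` to `Y`.  `3/8 < x < 5/8`: in `Y` likewise.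
CLASS (as (4) in `tiny_chord`): `class_move` for `V` and the curve `tipT κ p' ε σ (0, ·)` from `1/2` to `7/8` in `(core κ)ᶜ` (`a` does not matter for `w = 0`): `RepI (fun x => T (0, x)) (1/2) (7/8)` has the class `(inc c₁)`-then-radial, `repI_trans` with the radial path from `ε/8` to `ε/2`; compare with `cat (cat seg f) seg` by `rI_cat`, `rI_seg`, `rI_hmt`.
-/

open scoped Manifold ContDiff Topology
open Set Filter
open Pool.Agent.CSG (stp)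
open Pool.Agent.RSG (E3 ex Thick)
open Pool.Agent.KNT (Dom Str Str2 BalC bmp)
open Pool.Agent.NHP
open Pool.Agent.NHE
open Pool.Agent.NHQ (Ori)
open Pool.Agent.NHR (PathOn Hmt cat rv seg mer cor)

namespace Pool.Agent.NHX

variable {N : Type*} [TopologicalSpace N] [ChartedSpace E3 N] [IsManifold (𝓡 3) ∞ N] [T2Space N]

/-! ### the shape function -/

/-- `1` for `x ≤ 1/4` and for `x ≥ 3/4`, `r` in the middle -/
noncomputable def xebA (r μ x : ℝ) : ℝ :=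
  r + (1 - r) * (1 - stp (1 / 4) (1 / 4 + μ) x + stp (3 / 4 - μ) (3 / 4) x)

theorem xebA_smooth (r μ : ℝ) : ContDiff ℝ ∞ (xebA r μ) := by
  unfold xebA
  exact contDiff_const.add (contDiff_const.mul ((contDiff_const.sub (CSG.stp_smooth _ _)).add (CSG.stp_smooth _ _)))

theorem xebA_lo {r μ x : ℝ} (hμ : 0 < μ) (hμ1 : μ ≤ 1 / 16) (hx : x ≤ 1 / 4) : xebA r μ x = 1 := by
  unfold xebA
  rw [CSG.stp_zero (by linarith) hx, CSG.stp_zero (by linarith) (by linarith)]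
  ring

theorem xebA_hi {r μ x : ℝ} (hμ : 0 < μ) (hμ1 : μ ≤ 1 / 16) (hx : 3 / 4 ≤ x) : xebA r μ x = 1 := by
  unfold xebA
  rw [CSG.stp_one (by linarith) (by linarith), CSG.stp_one (by linarith) hx]
  ring

theorem xebA_mid {r μ x : ℝ} (hμ : 0 < μ) (hx : 1 / 4 + μ ≤ x) (hx' : x ≤ 3 / 4 - μ) : xebA r μ x = r := by
  unfold xebA
  rw [CSG.stp_one (by linarith) hx, CSG.stp_zero (by linarith) hx']
  ring

theorem xebA_bd {r μ : ℝ} (x : ℝ) (hr : 0 < r) (hr1 : r ≤ 1) (hμ : 0 < μ) (hμ1 : μ ≤ 1 / 16) :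
    0 < xebA r μ x ∧ xebA r μ x ≤ 1 := by
  have h1 := CSG.stp_nonneg (1 / 4) (1 / 4 + μ) x
  have h2 := CSG.stp_le_one (1 / 4) (1 / 4 + μ) x
  have h3 := CSG.stp_nonneg (3 / 4 - μ) (3 / 4) x
  have h4 := CSG.stp_le_one (3 / 4 - μ) (3 / 4) x
  unfold xebA
  constructor
  · have : 0 ≤ (1 - r) * (1 - stp (1 / 4) (1 / 4 + μ) x + stp (3 / 4 - μ) (3 / 4) x) :=
      mul_nonneg (by linarith) (by linarith)
    linarith
  · rcases le_or_gt x (3 / 4 - μ) with hx | hx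
    · rw [CSG.stp_zero (by linarith) hx]
      nlinarith
    · rw [CSG.stp_one (a := 1 / 4) (by linarith) (by linarith)]
      nlinarith

/-- the change of coordinates -/
noncomputable def xebS (a : ℝ → ℝ) (ha : ∀ x, 0 < a x) : E ≃ E where
  toFun q := ((a q.2 : ℂ) * q.1, q.2)
  invFun q := ((a q.2 : ℂ)⁻¹ * q.1, q.2)
  left_inv q := by
    have h : (a q.2 : ℂ) ≠ 0 := Complex.ofReal_ne_zero.2 (ha q.2).ne'
    refine Prod.ext ?_ rfl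
    show (a q.2 : ℂ)⁻¹ * ((a q.2 : ℂ) * q.1) = q.1
    rw [← mul_assoc, inv_mul_cancel₀ h, one_mul]
  right_inv q := by
    have h : (a q.2 : ℂ) ≠ 0 := Complex.ofReal_ne_zero.2 (ha q.2).ne'
    refine Prod.ext ?_ rfl
    show (a q.2 : ℂ) * ((a q.2 : ℂ)⁻¹ * q.1) = q.1
    rw [← mul_assoc, mul_inv_cancel₀ h, one_mul]

theorem xebS_apply (a : ℝ → ℝ) (ha : ∀ x, 0 < a x) (q : E) : xebS a ha q = ((a q.2 : ℂ) * q.1, q.2) := rfl

theorem xebS_ld (a : ℝ → ℝ) (ha : ∀ x, 0 < a x) (hs : ContDiff ℝ ∞ a) (q : E) :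
    IsLocalDiffeomorphAt 𝓘(ℝ, ℂ × ℝ) 𝓘(ℝ, ℂ × ℝ) ∞ (xebS a ha) q := by
  have h1 : ContDiff ℝ ∞ fun q : E => (a q.2 : ℂ) := Complex.ofRealCLM.contDiff.comp (hs.comp contDiff_snd)
  refine CSG.ld_of_perm (f := xebS a ha) ?_ ?_ q
  · exact (h1.mul contDiff_fst).prodMk contDiff_snd
  · refine ContDiff.prodMk (ContDiff.mul (h1.inv ?_) contDiff_fst) contDiff_snd
    intro x
    exact Complex.ofReal_ne_zero.2 (ha x.2).ne'

/-! ### separation -/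

theorem xeb_norm {ε : ℝ} (h0 : 0 < ε) (h1 : ε < 1 / 4) {q : E} (hq : ‖q.1‖ ≤ 1) (hq2 : |q.2| ≤ 5 / 4) :
    ‖(ε : ℂ) * (⟨q.2, q.1.im⟩ : ℂ)‖ < 1 := by
  have e1 : ‖(⟨q.2, q.1.im⟩ : ℂ)‖ ≤ |q.2| + |q.1.im| := Complex.norm_le_abs_re_add_abs_im _
  have e2 : |q.1.im| ≤ 1 := (Complex.abs_im_le_norm _).trans hq
  rw [norm_mul, Complex.norm_real, Real.norm_eq_abs, abs_of_pos h0]
  nlinarith [norm_nonneg (⟨q.2, q.1.im⟩ : ℂ)]

section
variable {N : Type*} [TopologicalSpace N] [ChartedSpace E3 N]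

theorem xeb_sep {κ : ℝ × ℂ → N} (hκ : Thick κ) {p p' ε : ℝ} (A : Adm p p' ε) {q q' : E} (hq : ‖q.1‖ ≤ 1)
    (hq2 : |q.2| ≤ 5 / 4) (hq' : ‖q'.1‖ ≤ 1) (hq2' : |q'.2| ≤ 5 / 4) : footT κ p ε q ≠ footT κ p' ε q' := by
  intro h
  unfold footT at h
  obtain ⟨-, m, hm⟩ := hκ.inj _ _ _ _ (xeb_norm A.pos A.lt hq hq2) (xeb_norm A.pos A.lt hq' hq2') h
  have h1 := A.far m
  have h2 : p - p' + m = ε * q'.1.re - ε * q.1.re := by linarith
  have h3 : |q.1.re| ≤ 1 := (Complex.abs_re_le_norm _).trans hq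
  have h4 : |q'.1.re| ≤ 1 := (Complex.abs_re_le_norm _).trans hq'
  rw [h2] at h1
  rw [abs_le] at h3 h4
  have h0 := A.pos
  have h5 : |ε * q'.1.re - ε * q.1.re| ≤ 2 * ε := by
    rw [abs_le]
    constructor <;> nlinarith
  linarith

theorem xeb_nr {q : E} (hq : ‖q.1‖ ≤ 1) (hq2 : |q.2| ≤ 5 / 4) : nr q < 2 ^ 2 := by
  unfold nr
  have h1 := norm_nonneg q.1
  rw [abs_le] at hq2
  nlinarith

/-- the closed box has a neighbourhood off the compact set `C` -/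
theorem xeb_mu [T2Space N] {κ : ℝ × ℂ → N} (hκ : Thick κ) {p ε : ℝ} (h0 : 0 < ε) (h1 : ε < 1 / 4) {C : Set N} (hC : IsCompact C)
    (hb : ∀ q : E, ‖q.1‖ ≤ 1 → |q.2| ≤ 1 / 4 → footT κ p ε q ∉ C) :
    ∃ μ : ℝ, 0 < μ ∧ μ ≤ 1 / 16 ∧ ∀ q : E, ‖q.1‖ ≤ 1 → |q.2| ≤ 1 / 4 + μ → footT κ p ε q ∉ C := by
  have hBd : {q : E | ‖q.1‖ ≤ 1 ∧ |q.2| ≤ 5 / 16} = Metric.closedBall (0 : ℂ) 1 ×ˢ Metric.closedBall (0 : ℝ) (5 / 16) := by
    ext q
    simp [Metric.mem_closedBall, dist_zero_right]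
  have hBc : IsCompact {q : E | ‖q.1‖ ≤ 1 ∧ |q.2| ≤ 5 / 16} := by
    rw [hBd]
    exact (isCompact_closedBall _ _).prod (isCompact_closedBall _ _)
  have hcont : ContinuousOn (footT κ p ε) {q : E | ‖q.1‖ ≤ 1 ∧ |q.2| ≤ 5 / 16} := by
    refine (tyc_footCht hκ p h0 h1).contOn.mono fun q hq => ?_
    exact xeb_nr hq.1 (hq.2.trans (by norm_num))
  have hSc : IsCompact ({q : E | ‖q.1‖ ≤ 1 ∧ |q.2| ≤ 5 / 16} ∩ footT κ p ε ⁻¹' C) :=
    hBc.of_isClosed_subset (hcont.preimage_isClosed_of_isClosed hBc.isClosed hC.isClosed) inter_subset_left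
  rcases ({q : E | ‖q.1‖ ≤ 1 ∧ |q.2| ≤ 5 / 16} ∩ footT κ p ε ⁻¹' C).eq_empty_or_nonempty with he | hne
  · refine ⟨1 / 16, by norm_num, le_refl _, fun q hq hq2 hqC => ?_⟩
    have : q ∈ ({q : E | ‖q.1‖ ≤ 1 ∧ |q.2| ≤ 5 / 16} ∩ footT κ p ε ⁻¹' C) := ⟨⟨hq, hq2.trans (by norm_num)⟩, hqC⟩
    rw [he] at this
    exact this
  · obtain ⟨q₀, hq₀, hmin⟩ := hSc.exists_isMinOn hne (f := fun q : E => |q.2|) (by fun_prop)
    have hm : 1 / 4 < |q₀.2| := by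
      by_contra hcon
      exact hb q₀ hq₀.1.1 (not_lt.1 hcon) hq₀.2
    refine ⟨min (1 / 16) ((|q₀.2| - 1 / 4) / 2), lt_min (by norm_num) (by linarith), min_le_left _ _,
      fun q hq hq2 hqC => ?_⟩
    have e1 := min_le_left (1 / 16) ((|q₀.2| - 1 / 4) / 2)
    have e2 := min_le_right (1 / 16) ((|q₀.2| - 1 / 4) / 2)
    have e3 : q ∈ ({q : E | ‖q.1‖ ≤ 1 ∧ |q.2| ≤ 5 / 16} ∩ footT κ p ε ⁻¹' C) := ⟨⟨hq, by linarith⟩, hqC⟩
    have e4 : |q₀.2| ≤ |q.2| := hmin e3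
    linarith

end

theorem xeb_Fn {σ : ℝ} (hσ : σ = 1 ∨ σ = -1) (q : E) : ‖(tycF σ q).1‖ = ‖q.1‖ := by
  have h := tyc_nrF hσ q
  have h2 : nr (tycF σ q) = ‖(tycF σ q).1‖ ^ 2 + (1 - q.2) ^ 2 := rfl
  rw [h2] at h
  have h3 : ‖(tycF σ q).1‖ ^ 2 = ‖q.1‖ ^ 2 := by linarith
  exact (pow_left_inj₀ (norm_nonneg _) (norm_nonneg _) two_ne_zero).1 h3

theorem xeb_F2 (σ : ℝ) (q : E) : (tycF σ q).2 = 1 - q.2 := rfl

theorem xeb_inj {κ : ℝ × ℂ → N} (hκ : Thick κ) {p p' ε σ : ℝ} (A : Adm p p' ε) (hσ : σ = 1 ∨ σ = -1) {Y : Set N}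
    (hYb : ∀ q : E, ‖q.1‖ ≤ 1 → |q.2| ≤ 1 / 4 → footT κ p ε q ∉ Y ∧ footT κ p' ε q ∉ Y)
    {V : ℝ → Equiv.Perm N} (hV : Push Y V) {ρ : ℝ} (hρ : 0 < ρ)
    (hg : ∀ q ∈ Bl ρ, V 1 (tipT κ p' ε σ (q.1, 1 / 2 + q.2)) = footT κ p ε (q.1, 1 / 2 + q.2))
    (hne : ∀ t ∈ Icc (1 / 2 : ℝ) (5 / 4), ∀ x ∈ Ioo (1 / 4 : ℝ) (1 / 2),
      V 1 (tipT κ p' ε σ ((0 : ℂ), t)) ≠ footT κ p ε ((0 : ℂ), x)) :
    InjOn (fun x : ℝ => tycG κ p p' ε σ V ((0 : ℂ), x)) (Icc (-(1 / 4)) (5 / 4)) := by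
  have h0 := A.pos
  have h1 := A.lt
  have hmix : ∀ x ∈ Icc (-(1 / 4) : ℝ) (5 / 4), ∀ x' ∈ Icc (-(1 / 4) : ℝ) (5 / 4), x ≤ 1 / 2 → 1 / 2 < x' →
      footT κ p ε ((0 : ℂ), x) ≠ V 1 (tipT κ p' ε σ ((0 : ℂ), x')) := by
    intro x hx x' hx' hxl hxg he
    rcases le_or_gt x (1 / 4) with hx4 | hx4
    · have hAp : footT κ p ε ((0 : ℂ), x) ∉ Y := by
        refine (hYb ((0 : ℂ), x) ?_ ?_).1
        · simp
        · show |x| ≤ 1 / 4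
          rw [abs_le]
          exact ⟨by linarith [hx.1], hx4⟩
      have h2 := tyc_fix hV he.symm hAp
      refine tyc_tip_ne_foot hκ A ?_ ?_ h2
      · rw [tyc_nr0' x' hσ]
        nlinarith [hx'.1, hx'.2]
      · rw [tyc_nr0]
        nlinarith [hx.1, hx.2]
    · rcases lt_or_eq_of_le hxl with hx5 | hx5
      · exact hne x' ⟨hxg.le, hx'.2⟩ x ⟨hx4, hx5⟩ he.symm
      · have h2 : V 1 (tipT κ p' ε σ ((0 : ℂ), x)) = footT κ p ε ((0 : ℂ), x) := by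
          refine tyc_near hg ?_
          show nr ((0 : ℂ), x - 1 / 2) < ρ ^ 2
          rw [tyc_nr0, hx5, sub_self, zero_pow two_ne_zero]
          exact pow_pos hρ 2
        rw [← h2] at he
        have h3 := tyc_tip_inj hκ h0 h1 hσ (x := x) (x' := x') ⟨by linarith, by linarith⟩ ⟨by linarith, by linarith [hx'.2]⟩
          ((V 1).injective he)
        linarith
  intro x hx x' hx' he
  have he' : tycG κ p p' ε σ V ((0 : ℂ), x) = tycG κ p p' ε σ V ((0 : ℂ), x') := he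
  rcases le_or_gt x (1 / 2) with hx5 | hx5
  · have e1 : tycG κ p p' ε σ V ((0 : ℂ), x) = footT κ p ε ((0 : ℂ), x) := if_pos hx5
    rcases le_or_gt x' (1 / 2) with hx6 | hx6
    · have e2 : tycG κ p p' ε σ V ((0 : ℂ), x') = footT κ p ε ((0 : ℂ), x') := if_pos hx6
      rw [e1, e2] at he'
      exact tyc_foot_inj hκ h0 h1 ⟨by linarith [hx.1], by linarith⟩ ⟨by linarith [hx'.1], by linarith⟩ he'
    · have e2 : tycG κ p p' ε σ V ((0 : ℂ), x') = V 1 (tipT κ p' ε σ ((0 : ℂ), x')) := if_neg (not_le.2 hx6)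
      rw [e1, e2] at he'
      exact absurd he' (hmix x hx x' hx' hx5 hx6)
  · have e1 : tycG κ p p' ε σ V ((0 : ℂ), x) = V 1 (tipT κ p' ε σ ((0 : ℂ), x)) := if_neg (not_le.2 hx5)
    rcases le_or_gt x' (1 / 2) with hx6 | hx6
    · have e2 : tycG κ p p' ε σ V ((0 : ℂ), x') = footT κ p ε ((0 : ℂ), x') := if_pos hx6
      rw [e1, e2] at he'
      exact absurd he'.symm (hmix x' hx' x hx hx6 hx5)
    · have e2 : tycG κ p p' ε σ V ((0 : ℂ), x') = V 1 (tipT κ p' ε σ ((0 : ℂ), x')) := if_neg (not_le.2 hx6)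
      rw [e1, e2] at he'
      exact tyc_tip_inj hκ h0 h1 hσ ⟨by linarith, by linarith [hx.2]⟩ ⟨by linarith, by linarith [hx'.2]⟩
        ((V 1).injective he')

theorem xeb_geo {κ : ℝ × ℂ → N} (hκ : Thick κ) {p p' ε σ : ℝ} (A : Adm p p' ε) (hσ : σ = 1 ∨ σ = -1) {Y : Set N}
    (hYK : Disjoint Y (core κ)) (hYb : ∀ q : E, ‖q.1‖ ≤ 1 → |q.2| ≤ 1 / 4 → footT κ p ε q ∉ Y ∧ footT κ p' ε q ∉ Y)
    (hYt : ∀ q : E, ‖q.1‖ < 1 / 2 → 1 / 4 < q.2 → q.2 < 5 / 8 → footT κ p ε q ∈ Y ∧ footT κ p' ε q ∈ Y)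
    {V : ℝ → Equiv.Perm N} (hV : Push Y V) {ρ : ℝ} (hρ : 0 < ρ)
    (hg : ∀ q ∈ Bl ρ, V 1 (tipT κ p' ε σ (q.1, 1 / 2 + q.2)) = footT κ p ε (q.1, 1 / 2 + q.2))
    (hne : ∀ t ∈ Icc (1 / 2 : ℝ) (5 / 4), ∀ x ∈ Ioo (1 / 4 : ℝ) (1 / 2),
      V 1 (tipT κ p' ε σ ((0 : ℂ), t)) ≠ footT κ p ε ((0 : ℂ), x)) :
    ∃ T : E → N, Chd (core κ) T ∧ StdE κ p p' ε σ T ∧
      (∀ q ∈ TD, 1 / 4 ≤ q.2 → q.2 ≤ 3 / 4 → T q ∈ Y ∨ ∃ q' : E, ‖q'.1‖ < 1 ∧ 1 / 4 ≤ q'.2 ∧ q'.2 ≤ 3 / 8 ∧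
        (T q = footT κ p ε q' ∨ T q = footT κ p' ε q')) ∧
      (∀ x : ℝ, x ≤ 1 / 2 → T (0, x) = footT κ p ε ((0 : ℂ), x)) ∧
      ∀ x : ℝ, 1 / 2 < x → T (0, x) = V 1 (tipT κ p' ε σ ((0 : ℂ), x)) := by
  have h0 := A.pos
  have h1 := A.lt
  -- the tube
  obtain ⟨r₀, hr₀, hCht, -⟩ := exists_tube (G := tycG κ p p' ε σ V) (a := -(1 / 4)) (b := 5 / 4)
    (fun x hx => tycG_loc hκ h0 h1 hσ hV hρ hg hx) (xeb_inj hκ A hσ hYb hV hρ hg hne) isOpen_univ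
    (fun x _ => mem_univ _)
  -- the support
  obtain ⟨C, hC, hCY, hCfix⟩ := hV.supp
  obtain ⟨μ₁, hμ₁, hμ₁', hbox₁⟩ := xeb_mu hκ (p := p) h0 h1 hC fun q hq hq2 hm => (hYb q hq hq2).1 (hCY hm)
  obtain ⟨μ₂, hμ₂, hμ₂', hbox₂⟩ := xeb_mu hκ (p := p') h0 h1 hC fun q hq hq2 hm => (hYb q hq hq2).2 (hCY hm)
  obtain ⟨μ, hμd⟩ : ∃ μ : ℝ, μ = min μ₁ μ₂ := ⟨_, rfl⟩
  have hμ : 0 < μ := by rw [hμd]; exact lt_min hμ₁ hμ₂
  have hμa : μ ≤ μ₁ := by rw [hμd]; exact min_le_left _ _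
  have hμb : μ ≤ μ₂ := by rw [hμd]; exact min_le_right _ _
  have hμ1 : μ ≤ 1 / 16 := hμa.trans hμ₁'
  have hbp : ∀ q : E, ‖q.1‖ ≤ 1 → |q.2| ≤ 1 / 4 + μ → footT κ p ε q ∉ C := fun q hq hq2 =>
    hbox₁ q hq (hq2.trans (by linarith))
  have hbp' : ∀ q : E, ‖q.1‖ ≤ 1 → |q.2| ≤ 1 / 4 + μ → footT κ p' ε q ∉ C := fun q hq hq2 =>
    hbox₂ q hq (hq2.trans (by linarith))
  -- the shape
  obtain ⟨r, hrd⟩ : ∃ r : ℝ, r = min r₀ (1 / 4) / 2 := ⟨_, rfl⟩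
  have hmin : 0 < min r₀ (1 / 4 : ℝ) := lt_min hr₀ (by norm_num)
  have hr : 0 < r := by rw [hrd]; linarith
  have hr8 : r ≤ 1 / 8 := by
    have := min_le_right r₀ (1 / 4 : ℝ)
    rw [hrd]
    linarith
  have hrr : r < r₀ := by
    have := min_le_left r₀ (1 / 4 : ℝ)
    rw [hrd]
    linarith
  obtain ⟨a, had⟩ : ∃ a : ℝ → ℝ, a = xebA r μ := ⟨_, rfl⟩
  have ha0 : ∀ x, 0 < a x := fun x => by rw [had]; exact (xebA_bd x hr (by linarith) hμ hμ1).1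
  have ha1 : ∀ x, a x ≤ 1 := fun x => by rw [had]; exact (xebA_bd x hr (by linarith) hμ hμ1).2
  have halo : ∀ x, x ≤ 1 / 4 → a x = 1 := fun x hx => by rw [had]; exact xebA_lo hμ hμ1 hx
  have hahi : ∀ x, 3 / 4 ≤ x → a x = 1 := fun x hx => by rw [had]; exact xebA_hi hμ hμ1 hx
  have hamid : ∀ x, 1 / 4 + μ ≤ x → x ≤ 3 / 4 - μ → a x = r := fun x hx hx' => by rw [had]; exact xebA_mid hμ hx hx'
  have has : ContDiff ℝ ∞ a := by rw [had]; exact xebA_smooth r μ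
  obtain ⟨G, hGd⟩ : ∃ G : E → N, G = tycG κ p p' ε σ V := ⟨_, rfl⟩
  rw [← hGd] at hCht
  have hG1 : ∀ q : E, q.2 ≤ 1 / 2 → G q = footT κ p ε q := by
    intro q hq
    rw [hGd]
    exact if_pos hq
  have hG2 : ∀ q : E, 1 / 2 < q.2 → G q = V 1 (tipT κ p' ε σ q) := by
    intro q hq
    rw [hGd]
    exact if_neg (not_le.2 hq)
  -- the region
  obtain ⟨R, hRd⟩ : ∃ R : Set E, R = {q : E | ‖q.1‖ < a q.2 ∧ -(1 / 4) < q.2 ∧ q.2 < 5 / 4} := ⟨_, rfl⟩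
  have hR1 : ∀ q ∈ R, ‖q.1‖ ≤ 1 ∧ |q.2| ≤ 5 / 4 := by
    intro q hq
    rw [hRd] at hq
    refine ⟨hq.1.le.trans (ha1 _), ?_⟩
    rw [abs_le]
    exact ⟨by linarith [hq.2.1], hq.2.2.le⟩
  have hnr1 : ∀ q ∈ R, nr q < 2 ^ 2 := fun q hq => xeb_nr (hR1 q hq).1 (hR1 q hq).2
  have hF : ∀ q ∈ R, ‖(tycF σ q).1‖ ≤ 1 ∧ |(tycF σ q).2| ≤ 5 / 4 := by
    intro q hq
    have g1 := hR1 q hq
    rw [hRd] at hq
    rw [xeb_Fn hσ, xeb_F2]
    refine ⟨g1.1, ?_⟩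
    rw [abs_le]
    exact ⟨by linarith [hq.2.2], by linarith [hq.2.1]⟩
  have hnr2 : ∀ q ∈ R, nr (tycF σ q) < 2 ^ 2 := fun q hq => xeb_nr (hF q hq).1 (hF q hq).2
  have hGl : ∀ q ∈ R, IsLocalDiffeomorphAt 𝓘(ℝ, ℂ × ℝ) (𝓡 3) ∞ G q := by
    intro q hq
    have hq' := hq
    rw [hRd] at hq'
    rcases lt_or_ge q.2 (1 / 4 + μ) with hc | hc
    · have ho : IsOpen {q : E | q.2 < 1 / 2} := isOpen_lt continuous_snd continuous_const
      refine CSG.ld_congr ((tyc_footCht hκ p h0 h1).loc q (hnr1 q hq)) ?_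
      filter_upwards [ho.mem_nhds (show q.2 < 1 / 2 by linarith)] with y hy
      exact hG1 y (le_of_lt hy)
    rcases le_or_gt q.2 (3 / 4 - μ) with hc' | hc'
    · have hq1 := hq'.1
      rw [hamid _ hc hc'] at hq1
      exact hCht.loc q ⟨hq1.trans hrr, hq'.2.1, hq'.2.2⟩
    · have ho : IsOpen {q : E | 1 / 2 < q.2} := isOpen_lt continuous_const continuous_snd
      have g1 : IsLocalDiffeomorphAt 𝓘(ℝ, ℂ × ℝ) (𝓡 3) ∞ (fun q : E => V 1 (tipT κ p' ε σ q)) q :=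
        ((tyc_tipCht hκ p' h0 h1 hσ).push hV 1).loc q (hnr2 q hq)
      refine CSG.ld_congr g1 ?_
      filter_upwards [ho.mem_nhds (show 1 / 2 < q.2 by linarith)] with y hy
      exact hG2 y hy
  have hfootinj : ∀ q ∈ R, ∀ q' ∈ R, footT κ p ε q = footT κ p ε q' → q = q' := fun q hq q' hq' h =>
    (tyc_footCht hκ p h0 h1).inj (hnr1 q hq) (hnr1 q' hq') h
  have htipinj : ∀ q ∈ R, ∀ q' ∈ R, tipT κ p' ε σ q = tipT κ p' ε σ q' → q = q' := fun q hq q' hq' h =>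
    (tyc_tipCht hκ p' h0 h1 hσ).inj (hnr2 q hq) (hnr2 q' hq') h
  have hsep : ∀ q ∈ R, ∀ q' ∈ R, footT κ p ε q ≠ tipT κ p' ε σ q' := by
    intro q hq q' hq'
    rw [tyc_tipF]
    exact xeb_sep hκ A (hR1 q hq).1 (hR1 q hq).2 (hF q' hq').1 (hF q' hq').2
  have hVfix : ∀ x, x ∉ C → V 1 x = x := fun x hx => hCfix 1 x hx
  have hVfix' : ∀ x y, V 1 x = y → y ∉ C → x = y := by
    intro x y h hy
    have := hVfix y hy
    exact (V 1).injective (h.trans this.symm)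
  have htipC : ∀ q ∈ R, 3 / 4 - μ ≤ q.2 → tipT κ p' ε σ q ∉ C := by
    intro q hq hq2
    rw [tyc_tipF]
    refine hbp' _ (hF q hq).1 ?_
    rw [hRd] at hq
    rw [xeb_F2, abs_le]
    exact ⟨by linarith [hq.2.2], by linarith⟩
  have hfootC : ∀ q ∈ R, q.2 ≤ 1 / 4 + μ → footT κ p ε q ∉ C := by
    intro q hq hq2
    refine hbp _ (hR1 q hq).1 ?_
    rw [hRd] at hq
    rw [abs_le]
    exact ⟨by linarith [hq.2.1], hq2⟩
  have key : ∀ q ∈ R, ∀ q' ∈ R, (q.2 < 1 / 4 + μ ∨ 3 / 4 - μ < q.2) → G q = G q' → q = q' := by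
    intro q hq q' hq' hc h
    rcases hc with hc | hc
    · rw [hG1 q (by linarith)] at h
      have g1 := hfootC q hq hc.le
      rcases le_or_gt q'.2 (1 / 2) with hd | hd
      · rw [hG1 q' hd] at h
        exact hfootinj q hq q' hq' h
      · rw [hG2 q' hd] at h
        have g2 := hVfix' _ _ h.symm g1
        exact absurd g2.symm (hsep q hq q' hq')
    · have g1 := htipC q hq hc.le
      rw [hG2 q (by linarith)] at h
      rcases le_or_gt q'.2 (1 / 2) with hd | hd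
      · rw [hG1 q' hd, hVfix _ g1] at h
        exact absurd h.symm (hsep q' hq' q hq)
      · rw [hG2 q' hd] at h
        exact htipinj q hq q' hq' ((V 1).injective h)
  have hGi : InjOn G R := by
    intro q hq q' hq' h
    by_cases hc : q.2 < 1 / 4 + μ ∨ 3 / 4 - μ < q.2
    · exact key q hq q' hq' hc h
    by_cases hc' : q'.2 < 1 / 4 + μ ∨ 3 / 4 - μ < q'.2
    · exact (key q' hq' q hq hc' h.symm).symm
    rw [not_or, not_lt, not_lt] at hc hc'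
    rw [hRd] at hq hq'
    have g1 := hq.1
    have g2 := hq'.1
    rw [hamid _ hc.1 hc.2] at g1
    rw [hamid _ hc'.1 hc'.2] at g2
    exact hCht.inj ⟨g1.trans hrr, hq.2.1, hq.2.2⟩ ⟨g2.trans hrr, hq'.2.1, hq'.2.2⟩ h
  -- the chord
  obtain ⟨S, hSd⟩ : ∃ S : E ≃ E, S = xebS a ha0 := ⟨_, rfl⟩
  have hS : ∀ q, S q = ((a q.2 : ℂ) * q.1, q.2) := fun q => by rw [hSd]; rfl
  have hSn : ∀ q : E, ‖(S q).1‖ = a q.2 * ‖q.1‖ := by
    intro q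
    rw [hS]
    show ‖(a q.2 : ℂ) * q.1‖ = _
    rw [norm_mul, Complex.norm_real, Real.norm_eq_abs, abs_of_pos (ha0 _)]
  have hS2 : ∀ q : E, (S q).2 = q.2 := fun q => by rw [hS]
  have hSR : ∀ q ∈ TD, S q ∈ R := by
    intro q hq
    rw [hRd]
    refine ⟨?_, ?_, ?_⟩
    · rw [hSn, hS2]
      have := mul_lt_mul_of_pos_left hq.1 (ha0 q.2)
      linarith
    · rw [hS2]
      exact hq.2.1
    · rw [hS2]
      exact hq.2.2
  have hSlt : ∀ q ∈ TD, ‖(S q).1‖ < 1 := by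
    intro q hq
    rw [hSn]
    have g1 := mul_lt_mul_of_pos_left hq.1 (ha0 q.2)
    have g2 := ha1 q.2
    linarith
  obtain ⟨T, hTd⟩ : ∃ T : E → N, T = fun q => G (S q) := ⟨_, rfl⟩
  have hT1 : ∀ q : E, q.2 ≤ 1 / 2 → T q = footT κ p ε (S q) := by
    intro q hq
    rw [hTd]
    exact hG1 _ (by rw [hS2]; exact hq)
  have hT2 : ∀ q : E, 1 / 2 < q.2 → T q = V 1 (tipT κ p' ε σ (S q)) := by
    intro q hq
    rw [hTd]
    exact hG2 _ (by rw [hS2]; exact hq)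
  have hTcht : Cht TD T := by
    refine ⟨tyc_TD_open, fun q hq => ?_, fun q hq q' hq' h => ?_⟩
    · rw [hTd]
      have g1 : IsLocalDiffeomorphAt 𝓘(ℝ, ℂ × ℝ) 𝓘(ℝ, ℂ × ℝ) ∞ S q := by
        rw [hSd]
        exact xebS_ld a ha0 has q
      exact IsLocalDiffeomorphAt.comp (hf := g1) (hg := hGl (S q) (hSR q hq))
    · rw [hTd] at h
      exact S.injective (hGi (hSR q hq) (hSR q' hq') h)
  have hVY : ∀ x ∈ Y, V 1 x ∈ Y := fun x hx => hV.mem 1 hx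
  have hYn : ∀ x ∈ core κ, x ∉ Y := fun x hx hY' => Set.disjoint_left.1 hYK hY' hx
  have hcoreV : ∀ x, V 1 x ∈ core κ ↔ x ∈ core κ := by
    intro x
    constructor
    · intro h
      have h3 := tyc_fix hV (rfl : V 1 x = V 1 x) (hYn _ h)
      rw [h3]
      exact h
    · intro h
      rw [hV.out 1 (hYn _ h)]
      exact h
  have hcoreT : ∀ q ∈ TD, T q ∈ core κ ↔ ((q.2 = 0 ∧ q.1.im = 0) ∨ (q.2 = 1 ∧ q.1.re = 0)) := by
    intro q hq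
    have hane := (ha0 q.2).ne'
    rcases le_or_gt q.2 (1 / 2) with hc | hc
    · rw [hT1 q hc, tyc_foot_core hκ p h0 h1 (hnr1 _ (hSR q hq)), hS]
      have e1 : ((a q.2 : ℂ) * q.1).im = a q.2 * q.1.im := by simp
      show q.2 = 0 ∧ ((a q.2 : ℂ) * q.1).im = 0 ↔ _
      rw [e1]
      constructor
      · rintro ⟨b, c⟩
        exact Or.inl ⟨b, (mul_eq_zero.1 c).resolve_left hane⟩
      · rintro (⟨b, c⟩ | ⟨b, _⟩)
        · exact ⟨b, by rw [c, mul_zero]⟩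
        · rw [b] at hc
          norm_num at hc
    · rw [hT2 q hc, hcoreV, tyc_tipF, tyc_foot_core hκ p' h0 h1 (hnr2 _ (hSR q hq)), hS]
      have e1 : ((a q.2 : ℂ) * q.1).re = a q.2 * q.1.re := by simp
      show 1 - q.2 = 0 ∧ ((a q.2 : ℂ) * q.1).re = 0 ↔ _
      rw [e1]
      constructor
      · rintro ⟨b, c⟩
        exact Or.inr ⟨by linarith, (mul_eq_zero.1 c).resolve_left hane⟩
      · rintro (⟨b, _⟩ | ⟨b, c⟩)
        · rw [b] at hc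
          norm_num at hc
        · exact ⟨by rw [b, sub_self], by rw [c, mul_zero]⟩
  refine ⟨T, ⟨hTcht, ?_⟩, ⟨?_, ?_⟩, ?_, ?_, ?_⟩
  · ext x
    constructor
    · rintro ⟨hx, q, hq, rfl⟩
      exact ⟨q, ⟨hq, (hcoreT q hq).1 hx⟩, rfl⟩
    · rintro ⟨q, ⟨hq, hc⟩, rfl⟩
      exact ⟨(hcoreT q hq).2 hc, q, hq, rfl⟩
  · intro q _ hq2
    have e : S q = q := by
      rw [hS, halo _ hq2.le]
      exact Prod.ext (by simp) rfl
    rw [hT1 q (by linarith), e]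
  · intro q hq hq2
    have e : S q = q := by
      rw [hS, hahi _ hq2.le]
      exact Prod.ext (by simp) rfl
    have g1 := htipC (S q) (hSR q hq) (by rw [hS2]; linarith)
    rw [hT2 q (by linarith), hVfix _ g1, e]
  · intro q hq hqa hqb
    have hm := hSR q hq
    -- the thin middle part
    have hthin : 1 / 4 + μ ≤ q.2 → q.2 ≤ 3 / 4 - μ → ‖(S q).1‖ < 1 / 2 := by
      intro hc hc'
      rw [hSn, hamid _ hc hc']
      have := mul_lt_mul_of_pos_left hq.1 hr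
      linarith
    rcases le_or_gt q.2 (3 / 8) with hc | hc
    · refine Or.inr ⟨S q, hSlt q hq, by rw [hS2]; exact hqa, by rw [hS2]; exact hc, Or.inl (hT1 q (by linarith))⟩
    rcases le_or_gt q.2 (1 / 2) with hd | hd
    · left
      rw [hT1 q hd]
      refine (hYt _ (hthin (by linarith) (by linarith)) ?_ ?_).1
      · rw [hS2]
        linarith
      · rw [hS2]
        linarith
    rcases le_or_gt q.2 (3 / 4 - μ) with he | he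
    · left
      rw [hT2 q hd]
      refine hVY _ ?_
      rw [tyc_tipF]
      refine (hYt _ ?_ ?_ ?_).2
      · rw [xeb_Fn hσ]
        exact hthin (by linarith) he
      · rw [xeb_F2, hS2]
        linarith
      · rw [xeb_F2, hS2]
        linarith
    · right
      refine ⟨tycF σ (S q), ?_, ?_, ?_, Or.inr ?_⟩
      · rw [xeb_Fn hσ]
        exact hSlt q hq
      · rw [xeb_F2, hS2]
        linarith
      · rw [xeb_F2, hS2]
        linarith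
      · rw [hT2 q hd, hVfix _ (htipC (S q) hm (by rw [hS2]; exact he.le)), tyc_tipF]
  · intro x hx
    have e : S ((0 : ℂ), x) = ((0 : ℂ), x) := by
      rw [hS]
      exact Prod.ext (by simp) rfl
    rw [hT1 _ (show ((0 : ℂ), x).2 ≤ 1 / 2 from hx), e]
  · intro x hx
    have e : S ((0 : ℂ), x) = ((0 : ℂ), x) := by
      rw [hS]
      exact Prod.ext (by simp) rfl
    rw [hT2 _ (show 1 / 2 < ((0 : ℂ), x).2 from hx), e]

/-- the class of the core of the chord -/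
theorem xeb_cls {κ : ℝ × ℂ → N} (_hκ : Thick κ) {p p' ε σ : ℝ} (A : Adm p p' ε) (hσ : σ = 1 ∨ σ = -1) {Y : Set N}
    (hYK : Y ⊆ (core κ)ᶜ) (hYb : ∀ q : E, ‖q.1‖ ≤ 1 → |q.2| ≤ 1 / 4 → footT κ p ε q ∉ Y ∧ footT κ p' ε q ∉ Y)
    {V : ℝ → Equiv.Perm N} (hV : Push Y V) {ρ : ℝ} (hρ : 0 < ρ)
    (hg : ∀ q ∈ Bl ρ, V 1 (tipT κ p' ε σ (q.1, 1 / 2 + q.2)) = footT κ p ε (q.1, 1 / 2 + q.2))
    {z z' : Y} {c₁ : Path z z'} (hz' : (z' : N) = κ (p', ((ε / 2 : ℝ) : ℂ))) (hF : Follows V c₁.symm)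
    {T : E → N} (hT1 : ∀ x : ℝ, x ≤ 1 / 2 → T (0, x) = footT κ p ε ((0 : ℂ), x))
    (hT2 : ∀ x : ℝ, 1 / 2 < x → T (0, x) = V 1 (tipT κ p' ε σ ((0 : ℂ), x)))
    {u u' : ((core κ)ᶜ : Set N)} (s₁ : Path u (⟨z, hYK z.2⟩ : ((core κ)ᶜ : Set N)))
    (s₂ : Path (⟨z', hYK z'.2⟩ : ((core κ)ᶜ : Set N)) u') (hs₁ : RepI (fun t => κ (p, (t : ℂ))) (ε / 8) (ε / 2) s₁)
    (hs₂ : RepI (fun t => κ (p', (t : ℂ))) (ε / 2) (ε / 8) s₂) :
    RepI (fun x => T (0, x)) (1 / 8) (7 / 8) (s₁.trans ((inc hYK c₁).trans s₂)) := by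
  have h0 := A.pos
  have h1 := A.lt
  have hVY : Push ((core κ)ᶜ) V := hV.mono hYK
  -- the tip curve
  have hf : RepI (fun x : ℝ => tipT κ p' ε σ ((0 : ℂ), x)) (1 / 2) (7 / 8) s₂ := by
    have g1 : RepI (fun x : ℝ => κ (p', ((ε * (1 - x) : ℝ) : ℂ))) (1 / 2) (7 / 8) s₂ := by
      refine repI_comp (f := fun t : ℝ => κ (p', (t : ℂ))) (g := fun x : ℝ => ε * (1 - x)) (a' := ε / 2) (b' := ε / 8)
        ?_ (by fun_prop) (repI_cont hs₂).1 (repI_cont hs₂).2.1 ?_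
      · have e1 : ε * (1 - 1 / 2) = ε / 2 := by ring
        have e2 : ε * (1 - 7 / 8) = ε / 8 := by ring
        show RepI _ (ε * (1 - 1 / 2)) (ε * (1 - 7 / 8)) s₂
        rw [e1, e2]
        exact hs₂
      · intro t ht
        rw [uIcc_of_le (by norm_num)] at ht
        rw [uIcc_of_ge (by linarith)]
        show ε / 8 ≤ ε * (1 - t) ∧ ε * (1 - t) ≤ ε / 2
        constructor
        · nlinarith [ht.2]
        · nlinarith [ht.1]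
    exact repI_congr g1 fun t _ => tyc_tip0 κ p' ε σ t
  have hz2 : tipT κ p' ε σ ((0 : ℂ), 1 / 2) = z' := by
    rw [tyc_tip0, hz']
    congr 3
    ring
  have hd : RepI (fun s => V s (tipT κ p' ε σ ((0 : ℂ), 1 / 2))) 0 1 (inc hYK c₁.symm) := by
    have g1 : RepI (fun s => V s (z' : N)) 0 1 c₁.symm := by
      refine rep_congr hF fun t _ => ?_
      show V (0 + t * (1 - 0)) (z' : N) = V t (z' : N)
      rw [sub_zero, mul_one, zero_add]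
    rw [hz2]
    exact repI_inc hYK g1
  have hd' : RepI (fun s => V s (tipT κ p' ε σ ((0 : ℂ), 7 / 8))) 0 1 (Path.refl u') := by
    refine repI_const fun t _ => ?_
    have g1 : tipT κ p' ε σ ((0 : ℂ), 7 / 8) ∉ Y := by
      rw [tyc_tipF]
      refine (hYb _ ?_ ?_).2
      · rw [xeb_Fn hσ]
        simp
      · rw [xeb_F2, abs_le]
        show -(1 / 4) ≤ 1 - (7 / 8 : ℝ) ∧ 1 - (7 / 8 : ℝ) ≤ 1 / 4
        constructor <;> norm_num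
    show V t (tipT κ p' ε σ ((0 : ℂ), 7 / 8)) = u'
    rw [hV.out t g1]
    exact (repI_cont hf).2.2.2
  have r1 := class_move hVY (fun s _ x hx => hVY.mem s hx) hf hd hd'
  have r1' : RepI (fun x => T (0, x)) (1 / 2) (7 / 8) ((inc hYK c₁.symm).symm.trans (s₂.trans (Path.refl u'))) := by
    refine repI_congr r1 fun t ht => ?_
    rw [uIcc_of_le (by norm_num)] at ht
    show T (0, t) = V 1 (tipT κ p' ε σ ((0 : ℂ), t))
    rcases lt_or_eq_of_le ht.1 with hlt | heq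
    · rw [hT2 _ hlt]
    · rw [hT1 _ heq.ge]
      refine (tyc_near hg ?_).symm
      show nr ((0 : ℂ), t - 1 / 2) < ρ ^ 2
      rw [tyc_nr0, ← heq, sub_self, zero_pow two_ne_zero]
      exact pow_pos hρ 2
  have r2 : RepI (fun x => T (0, x)) (1 / 8) (1 / 2) s₁ := by
    have g1 : RepI (fun x : ℝ => κ (p, ((ε * x : ℝ) : ℂ))) (1 / 8) (1 / 2) s₁ := by
      refine repI_comp (f := fun t : ℝ => κ (p, (t : ℂ))) (g := fun x : ℝ => ε * x) (a' := ε / 8) (b' := ε / 2)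
        ?_ (by fun_prop) (repI_cont hs₁).1 (repI_cont hs₁).2.1 ?_
      · have e1 : ε * (1 / 8) = ε / 8 := by ring
        have e2 : ε * (1 / 2) = ε / 2 := by ring
        show RepI _ (ε * (1 / 8)) (ε * (1 / 2)) s₁
        rw [e1, e2]
        exact hs₁
      · intro t ht
        rw [uIcc_of_le (by norm_num)] at ht
        rw [uIcc_of_le (by linarith)]
        show ε / 8 ≤ ε * t ∧ ε * t ≤ ε / 2
        constructor
        · nlinarith [ht.1]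
        · nlinarith [ht.2]
    refine repI_congr g1 fun t ht => ?_
    rw [uIcc_of_le (by norm_num)] at ht
    show T (0, t) = κ (p, ((ε * t : ℝ) : ℂ))
    rw [hT1 _ ht.2, tyc_foot0]
  have r3 := repI_trans r2 r1'
  refine (repI_iff r3).2 ?_
  have e3 : (inc hYK c₁.symm).symm = inc hYK c₁ := by
    ext t
    simp [inc]
  rw [e3]
  exact Path.Homotopic.hcomp (Path.Homotopic.refl _)
    (Path.Homotopic.hcomp (Path.Homotopic.refl _) ⟨Path.Homotopy.transRefl s₂⟩)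

/-- the radial points are off the core -/
theorem xeb_rad {κ : ℝ × ℂ → N} (hκ : Thick κ) (p : ℝ) {ε t : ℝ} (h0 : 0 < ε) (h1 : ε < 1 / 4) (ht : t ∈ Icc (ε / 8) (ε / 2)) :
    κ (p, (t : ℂ)) ∈ (core κ)ᶜ := by
  rintro ⟨l, hl⟩
  have h2 : ‖(t : ℂ)‖ < 1 := by
    rw [Complex.norm_real, Real.norm_eq_abs, abs_lt]
    exact ⟨by linarith [ht.1], by linarith [ht.2]⟩
  have h3 := (hκ.inj l 0 p (t : ℂ) (by simp) h2 hl).1
  have h4 : t = 0 := by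
    have h5 := congrArg Complex.re h3
    simpa using h5.symm
  linarith [ht.1]

theorem xeb_radc {κ : ℝ × ℂ → N} (hκ : Thick κ) (p : ℝ) {ε : ℝ} (h0 : 0 < ε) (h1 : ε < 1 / 4) :
    ContinuousOn (fun t : ℝ => κ (p, (t : ℂ))) (Icc (ε / 8) (ε / 2)) := by
  intro t ht
  have h2 : ‖(t : ℂ)‖ < 1 := by
    rw [Complex.norm_real, Real.norm_eq_abs, abs_lt]
    exact ⟨by linarith [ht.1], by linarith [ht.2]⟩
  have g1 := CSG.ld_continuousAt (hκ.loc p (t : ℂ) h2)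
  exact (ContinuousAt.comp (f := fun t : ℝ => (p, (t : ℂ))) g1 (by fun_prop)).continuousWithinAt

theorem ext_E1b (hO : Ori N) {κ : ℝ × ℂ → N} (hκ : Thick κ) {p p' ε : ℝ} (A : Adm p p' ε) {Y : Set N} (hY : IsOpen Y)
    (hYK : Disjoint Y (core κ)) (hYb : ∀ q : E, ‖q.1‖ ≤ 1 → |q.2| ≤ 1 / 4 → footT κ p ε q ∉ Y ∧ footT κ p' ε q ∉ Y)
    (hYt : ∀ q : E, ‖q.1‖ < 1 / 2 → 1 / 4 < q.2 → q.2 < 5 / 8 → footT κ p ε q ∈ Y ∧ footT κ p' ε q ∈ Y)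
    {f : ℝ → N} (hf : PathOn Y f) (h0 : f 0 = κ (p, ((ε / 2 : ℝ) : ℂ))) (h1 : f 1 = κ (p', ((ε / 2 : ℝ) : ℂ))) :
    ∃ T : E → N, Chd (core κ) T ∧ StdE κ p p' ε 1 T ∧
      (∀ q ∈ TD, 1 / 4 ≤ q.2 → q.2 ≤ 3 / 4 → T q ∈ Y ∨ ∃ q' : E, ‖q'.1‖ < 1 ∧ 1 / 4 ≤ q'.2 ∧ q'.2 ≤ 3 / 8 ∧
        (T q = footT κ p ε q' ∨ T q = footT κ p' ε q')) ∧
      Hmt (core κ)ᶜ (cor T) (cat (cat (seg κ (p, ((ε / 8 : ℝ) : ℂ)) (p, ((ε / 2 : ℝ) : ℂ))) f)
        (seg κ (p', ((ε / 2 : ℝ) : ℂ)) (p', ((ε / 8 : ℝ) : ℂ)))) := by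
  have h0' := A.pos
  have h1' := A.lt
  have hYK' : Y ⊆ (core κ)ᶜ := fun x hx hx' => Set.disjoint_left.1 hYK hx hx'
  have hzY : κ (p, ((ε / 2 : ℝ) : ℂ)) ∈ Y := by
    rw [← h0]
    exact hf.2 0 ⟨le_refl _, zero_le_one⟩
  have hzY' : κ (p', ((ε / 2 : ℝ) : ℂ)) ∈ Y := by
    rw [← h1]
    exact hf.2 1 ⟨zero_le_one, le_refl _⟩
  obtain ⟨c₁, hc₁⟩ := path_rI (y := (⟨_, hzY⟩ : Y)) (y' := (⟨_, hzY'⟩ : Y)) hf h0 h1
  obtain ⟨σ, V, hσ, hV, hF, ⟨ρ, hρ, hρ1, hg⟩, hne⟩ := xba_main hκ A hY hYb hYt c₁ rfl rfl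
  obtain ⟨T, hT, hS, hM, hT1, hT2⟩ := xeb_geo hκ A hσ hYK hYb hYt hV hρ hg hne
  have hσ1 : σ = 1 := hO κ p p' ε σ T hκ h0' hσ hT hS
  refine ⟨T, hT, hσ1 ▸ hS, hM, ?_⟩
  have hm1 : ε / 8 ∈ Icc (ε / 8) (ε / 2) := ⟨le_refl _, by linarith⟩
  obtain ⟨s₁, hs₁⟩ := exists_repI (Y := (core κ)ᶜ) (y := ⟨_, xeb_rad hκ p h0' h1' hm1⟩)
    (y' := (⟨κ (p, ((ε / 2 : ℝ) : ℂ)), hYK' hzY⟩ : ((core κ)ᶜ : Set N))) (f := fun t : ℝ => κ (p, (t : ℂ))) (a := ε / 8) (b := ε / 2)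
    (by
      rw [uIcc_of_le (by linarith)]
      exact xeb_radc hκ p h0' h1') (by
      intro t ht
      rw [uIcc_of_le (by linarith)] at ht
      exact xeb_rad hκ p h0' h1' ht) rfl rfl
  obtain ⟨s₂, hs₂⟩ := exists_repI (Y := (core κ)ᶜ) (y := (⟨κ (p', ((ε / 2 : ℝ) : ℂ)), hYK' hzY'⟩ : ((core κ)ᶜ : Set N)))
    (y' := ⟨_, xeb_rad hκ p' h0' h1' hm1⟩) (f := fun t : ℝ => κ (p', (t : ℂ))) (a := ε / 2) (b := ε / 8)
    (by
      rw [uIcc_of_ge (by linarith)]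
      exact xeb_radc hκ p' h0' h1') (by
      intro t ht
      rw [uIcc_of_ge (by linarith)] at ht
      exact xeb_rad hκ p' h0' h1' ht) rfl rfl
  have r1 := rI_cor.2 (xeb_cls hκ A hσ hYK' hYb hV hρ hg rfl hF hT1 hT2 s₁ s₂ hs₁ hs₂)
  have r2 := rI_cat (rI_cat (rI_seg.2 hs₁) (repI_inc hYK' hc₁)) (rI_seg.2 hs₂)
  refine rI_hmt ((repI_iff r1).2 ?_) r2
  exact ⟨(Path.Homotopy.transAssoc _ _ _).symm⟩

end Pool.Agent.NHX
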