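import Mathlib
import Pool.Agent.NHX.Bas
import Pool.Agent.NHR.Geo
import Pool.Agent.NHE.Sld
import Pool.Agent.NHE.Mer

/-!
# NHX/Xsm: the fields `Sld` and `Mrd` of `Ext` (difficulty 3)

`κ₁ = kap κ η`.  `Y = (core κ)ᶜ`.  All points `κ₁ (l, t)`, `0 < t < 1`, are in `Y`.  `κ₁ (p, t) = κ (p, η t)`.
`ext_Mrd`: `x_in` (`b = 1`): `ε₁`, `K₁` with `Fgr κ₁ p p' ε₁ (s.trans (c.trans s')) K₁`, `c` = class of `cor T`.  `fgr_meridian` with `k = 1`: `m` = class of `t ↦ κ₁ (p, (ε₁/8) ex t)`: `Fgr κ₁ p p' ε₁ (m.trans (s.trans (c.trans s'))) K₂`.  `x_out`: `ε₂ ≤ ε₁`, `T'`, class `u.trans ((m.trans (..)).trans u')`,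
`u` radial from `ε₂/8` to `ε₁/8`.  `FinE κ p p' η ε₂ T'`.  `mer κ p (η ε₂/8)` is `t ↦ κ₁ (p, (ε₂/8) ex t)`; its class `m'` satisfies `m'.trans u ≈ u.trans m` (`rep_square` with `H (s, t) = κ₁ (p, ((1 - s) ε₂/8 + s ε₁/8) ex t)`), and `u.trans s` is the radial class from `ε₂/8` to `ε/8` (`repI_trans`).
So `cor T'` has the class `m'.trans (w.trans (c.trans w'))`, `w` radial from `ε₂/8` to `ε/8`, which is the class of `cat (mer ..) (radc ..)` (`rI_cat`, `rI_seg`, `rI_cor`).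
`ext_Sld`: `b` with `Adm t p' ε₁` for all `t ∈ uIcc p p₀`, `ε₁ < b` (the compact set `uIcc p p₀ - p'` does not meet the integers, so it has a positive distance from them).  `x_in`, `fgr_slide` (`p₀ := p`, `p₁ := p₀`, class `s₁` of `l ↦ κ₁ (l, ε₁/8)` from `p₀` to `p`), `x_out` at `p₀`;
`rep_square` with `H (s, t) = κ₁ (p₀ + t (p - p₀), (1 - s) ε₂/8 + s ε₁/8)`: (slide at `ε₂/8`)(radial at `p`) ≈ (radial at `p₀`)(slide at `ε₁/8`).
-/

open scoped Manifold ContDiff Topology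
open Set Filter
open Pool.Agent.RSG (E3 ex Thick)
open Pool.Agent.NHP
open Pool.Agent.NHE
open Pool.Agent.NHQ (Ori)
open Pool.Agent.NHR (PathOn Hmt cat rv seg mer cor kap FinE radc)

namespace Pool.Agent.NHX

/-! ## path algebra -/

theorem xsm_assoc {X : Type*} [TopologicalSpace X] {a b c d : X} (f : Path a b) (g : Path b c) (h : Path c d) :
    ((f.trans g).trans h).Homotopic (f.trans (g.trans h)) :=
  ⟨Path.Homotopy.transAssoc f g h⟩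

theorem xsm_alg {X : Type*} [TopologicalSpace X] {z₀ z₁ z₂ z₃ z₄ z₅ z₆ w₀ : X} (u : Path z₀ z₁) (m : Path z₁ z₂)
    (s : Path z₂ z₃) (c : Path z₃ z₄) (s' : Path z₄ z₅) (u' : Path z₅ z₆) (m' : Path z₀ w₀) (v : Path w₀ z₂)
    (h : (u.trans m).Homotopic (m'.trans v)) :
    (u.trans ((m.trans (s.trans (c.trans s'))).trans u')).Homotopic
      (m'.trans (((v.trans s).trans c).trans (s'.trans u'))) := by
  have r : ∀ {x y : X} (f : Path x y), f.Homotopic f := fun f => Path.Homotopic.refl f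
  -- left side
  have l1 : (u.trans ((m.trans (s.trans (c.trans s'))).trans u')).Homotopic
      (u.trans (m.trans ((s.trans (c.trans s')).trans u'))) := (r u).hcomp (xsm_assoc _ _ _)
  have l2 : (u.trans (m.trans ((s.trans (c.trans s')).trans u'))).Homotopic
      ((u.trans m).trans ((s.trans (c.trans s')).trans u')) := (xsm_assoc _ _ _).symm
  have l3 : ((u.trans m).trans ((s.trans (c.trans s')).trans u')).Homotopic
      ((m'.trans v).trans ((s.trans (c.trans s')).trans u')) := h.hcomp (r _)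
  have l4 : ((m'.trans v).trans ((s.trans (c.trans s')).trans u')).Homotopic
      (m'.trans (v.trans ((s.trans (c.trans s')).trans u'))) := xsm_assoc _ _ _
  have e1 : ((s.trans (c.trans s')).trans u').Homotopic (s.trans (c.trans (s'.trans u'))) :=
    (xsm_assoc _ _ _).trans ((r s).hcomp (xsm_assoc _ _ _))
  have e2 : (v.trans (s.trans (c.trans (s'.trans u')))).Homotopic (((v.trans s).trans c).trans (s'.trans u')) :=
    (xsm_assoc _ _ _).symm.trans (xsm_assoc _ _ _).symm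
  exact l1.trans (l2.trans (l3.trans (l4.trans ((r m').hcomp (((r v).hcomp e1).trans e2)))))

section
variable {N : Type*} [TopologicalSpace N] [ChartedSpace E3 N]

/-- the points of the tube with positive second coordinate -/
def xsm_pt {κ : ℝ × ℂ → N} (hκ : Thick κ) (l : ℝ) {t : ℝ} (h0 : 0 < t) (h1 : t < 1) : ((core κ)ᶜ : Set N) :=
  ⟨κ (l, (t : ℂ)), NHR.thick_off hκ (by rw [Complex.norm_real, Real.norm_of_nonneg h0.le]; exact h1)
    (by exact_mod_cast h0.ne')⟩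

theorem xsm_at {κ : ℝ × ℂ → N} (hκ : Thick κ) {q : ℝ × ℂ} (hq : ‖q.2‖ < 1) : ContinuousAt κ q :=
  (hκ.loc q.1 q.2 hq).contMDiffAt.continuousAt

/-- radial paths -/
theorem xsm_rad {κ : ℝ × ℂ → N} (hκ : Thick κ) (p : ℝ) {a b : ℝ} (ha0 : 0 < a) (ha1 : a < 1) (hb0 : 0 < b) (hb1 : b < 1) :
    ∃ s : Path (xsm_pt hκ p ha0 ha1) (xsm_pt hκ p hb0 hb1), RepI (fun t => κ (p, (t : ℂ))) a b s := by
  have hm : ∀ t ∈ uIcc a b, 0 < t ∧ t < 1 := by
    intro t ht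
    rcases le_total a b with h | h
    · rw [uIcc_of_le h] at ht
      exact ⟨lt_of_lt_of_le ha0 ht.1, lt_of_le_of_lt ht.2 hb1⟩
    · rw [uIcc_of_ge h] at ht
      exact ⟨lt_of_lt_of_le hb0 ht.1, lt_of_le_of_lt ht.2 ha1⟩
  apply exists_repI
  · intro t ht
    apply ContinuousAt.continuousWithinAt
    have h1 : ContinuousAt κ (p, (t : ℂ)) := xsm_at hκ (by
      show ‖(t : ℂ)‖ < 1
      rw [Complex.norm_real, Real.norm_of_nonneg (hm t ht).1.le]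
      exact (hm t ht).2)
    have h2 : ContinuousAt (fun t : ℝ => ((p, (t : ℂ)) : ℝ × ℂ)) t := by
      apply Continuous.continuousAt
      fun_prop
    exact ContinuousAt.comp (f := fun t : ℝ => ((p, (t : ℂ)) : ℝ × ℂ)) (g := κ) h1 h2
  · intro t ht
    exact (xsm_pt hκ p (hm t ht).1 (hm t ht).2).2
  · rfl
  · rfl

/-- slides -/
theorem xsm_sli {κ : ℝ × ℂ → N} (hκ : Thick κ) (p₀ p : ℝ) {a : ℝ} (ha0 : 0 < a) (ha1 : a < 1) :
    ∃ s : Path (xsm_pt hκ p₀ ha0 ha1) (xsm_pt hκ p ha0 ha1), RepI (fun l => κ (l, (a : ℂ))) p₀ p s := by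
  apply exists_repI
  · intro t ht
    apply ContinuousAt.continuousWithinAt
    have h1 : ContinuousAt κ (t, (a : ℂ)) := xsm_at hκ (by
      show ‖(a : ℂ)‖ < 1
      rw [Complex.norm_real, Real.norm_of_nonneg ha0.le]
      exact ha1)
    have h2 : ContinuousAt (fun t : ℝ => ((t, (a : ℂ)) : ℝ × ℂ)) t := by
      apply Continuous.continuousAt
      fun_prop
    exact ContinuousAt.comp (f := fun t : ℝ => ((t, (a : ℂ)) : ℝ × ℂ)) (g := κ) h1 h2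
  · intro t ht
    exact (xsm_pt hκ t ha0 ha1).2
  · rfl
  · rfl

theorem xsm_ex_norm (x : ℝ) : ‖ex x‖ = 1 := by
  rw [ex, Complex.norm_exp_ofReal_mul_I]

theorem xsm_ex_zero : ex 0 = 1 := by
  simp [ex]

theorem xsm_ex_one : ex 1 = 1 := by
  rw [ex]
  have : ((2 * Real.pi * 1 : ℝ) : ℂ) * Complex.I = 2 * Real.pi * Complex.I := by push_cast; ring
  rw [this, Complex.exp_two_pi_mul_I]

theorem xsm_ex_cont : Continuous ex := by
  unfold ex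
  fun_prop

theorem xsm_mer_mem {κ : ℝ × ℂ → N} (hκ : Thick κ) (p : ℝ) {a : ℝ} (ha0 : 0 < a) (ha1 : a < 1) (x : ℝ) :
    κ (p, (a : ℂ) * ex x) ∈ (core κ)ᶜ := by
  apply NHR.thick_off hκ
  · rw [norm_mul, xsm_ex_norm, mul_one, Complex.norm_real, Real.norm_of_nonneg ha0.le]
    exact ha1
  · refine mul_ne_zero (by exact_mod_cast ha0.ne') ?_
    intro h
    have := xsm_ex_norm x
    rw [h, norm_zero] at this
    exact zero_ne_one this

theorem xsm_mer_at {κ : ℝ × ℂ → N} (hκ : Thick κ) (p : ℝ) {a : ℝ} (ha0 : 0 < a) (ha1 : a < 1) (x : ℝ) :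
    ContinuousAt κ (p, (a : ℂ) * ex x) := by
  apply xsm_at hκ
  show ‖(a : ℂ) * ex x‖ < 1
  rw [norm_mul, xsm_ex_norm, mul_one, Complex.norm_real, Real.norm_of_nonneg ha0.le]
  exact ha1

/-- meridians -/
theorem xsm_mer {κ : ℝ × ℂ → N} (hκ : Thick κ) (p : ℝ) {a : ℝ} (ha0 : 0 < a) (ha1 : a < 1) :
    ∃ s : Path (xsm_pt hκ p ha0 ha1) (xsm_pt hκ p ha0 ha1), RepI (fun t => κ (p, (a : ℂ) * ex t)) 0 1 s := by
  apply exists_repI
  · intro t ht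
    apply ContinuousAt.continuousWithinAt
    have h1 := xsm_mer_at hκ p ha0 ha1 t
    have h2 : ContinuousAt (fun t : ℝ => ((p, (a : ℂ) * ex t) : ℝ × ℂ)) t := by
      apply Continuous.continuousAt
      have := xsm_ex_cont
      fun_prop
    exact ContinuousAt.comp (f := fun t : ℝ => ((p, (a : ℂ) * ex t) : ℝ × ℂ)) (g := κ) h1 h2
  · intro t ht
    exact xsm_mer_mem hκ p ha0 ha1 t
  · show κ (p, (a : ℂ) * ex 0) = κ (p, (a : ℂ))
    rw [xsm_ex_zero, mul_one]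
  · show κ (p, (a : ℂ) * ex 1) = κ (p, (a : ℂ))
    rw [xsm_ex_one, mul_one]

theorem xsm_TD {x : ℝ} (h1 : -(1 / 4) < x) (h2 : x < 5 / 4) : ((0 : ℂ), x) ∈ TD := ⟨by simp, h1, h2⟩

/-- the core of a chord -/
theorem xsm_cor {κ : ℝ × ℂ → N} (hκ : Thick κ) {p p' ε : ℝ} (A : Adm p p' ε) {T : E → N} (hT : Chd (core κ) T)
    (hS : StdE κ p p' ε 1 T) (h0 : 0 < ε / 8) (h1 : ε / 8 < 1) :
    ∃ c : Path (xsm_pt hκ p h0 h1) (xsm_pt hκ p' h0 h1), RepI (fun x => T (0, x)) (1 / 8) (7 / 8) c := by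
  have hm : ∀ t ∈ uIcc (1 / 8 : ℝ) (7 / 8), ((0 : ℂ), t) ∈ TD ∧ t ≠ 0 ∧ t ≠ 1 := by
    intro t ht
    rw [uIcc_of_le (by norm_num)] at ht
    exact ⟨xsm_TD (by linarith [ht.1]) (by linarith [ht.2]), by linarith [ht.1], by linarith [ht.2]⟩
  apply exists_repI
  · intro t ht
    apply ContinuousAt.continuousWithinAt
    have h1 : ContinuousAt T ((0 : ℂ), t) := (hT.cht.loc _ (hm t ht).1).contMDiffAt.continuousAt
    have h2 : ContinuousAt (fun t : ℝ => (((0 : ℂ), t) : E)) t := by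
      apply Continuous.continuousAt
      fun_prop
    exact ContinuousAt.comp (f := fun t : ℝ => (((0 : ℂ), t) : E)) (g := T) h1 h2
  · intro t ht hmem
    have h2 : T ((0 : ℂ), t) ∈ core κ ∩ T '' TD := ⟨hmem, mem_image_of_mem _ (hm t ht).1⟩
    rw [hT.hit] at h2
    obtain ⟨q, hq, he⟩ := h2
    have e := hT.cht.inj hq.1 (hm t ht).1 he
    rw [e] at hq
    rcases hq.2 with h3 | h3
    · exact (hm t ht).2.1 h3.1
    · exact (hm t ht).2.2 h3.1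
  · show T ((0 : ℂ), 1 / 8) = κ (p, ((ε / 8 : ℝ) : ℂ))
    rw [hS.foot _ (xsm_TD (by norm_num) (by norm_num)) (by norm_num), footT]
    congr 1
    refine Prod.ext ?_ ?_
    · simp
    · apply Complex.ext
      · simp
        ring
      · simp
  · show T ((0 : ℂ), 7 / 8) = κ (p', ((ε / 8 : ℝ) : ℂ))
    rw [hS.tip _ (xsm_TD (by norm_num) (by norm_num)) (by norm_num), tipT]
    congr 1
    refine Prod.ext ?_ ?_
    · simp
    · apply Complex.ext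
      · simp
        ring
      · simp

/-- the square of the meridians -/
theorem xsm_sq_mer {κ : ℝ × ℂ → N} (hκ : Thick κ) (p : ℝ) {a b : ℝ} (ha0 : 0 < a) (ha1 : a < 1) (hb0 : 0 < b) (hb1 : b < 1)
    {u : Path (xsm_pt hκ p ha0 ha1) (xsm_pt hκ p hb0 hb1)} {m' : Path (xsm_pt hκ p ha0 ha1) (xsm_pt hκ p ha0 ha1)}
    {m : Path (xsm_pt hκ p hb0 hb1) (xsm_pt hκ p hb0 hb1)} (hu : RepI (fun t => κ (p, (t : ℂ))) a b u)
    (hm' : RepI (fun t => κ (p, (a : ℂ) * ex t)) 0 1 m') (hm : RepI (fun t => κ (p, (b : ℂ) * ex t)) 0 1 m) :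
    (u.trans m).Homotopic (m'.trans u) := by
  have hρ : ∀ s ∈ Icc (0 : ℝ) 1, 0 < a + s * (b - a) ∧ a + s * (b - a) < 1 := by
    intro s hs
    have e : a + s * (b - a) = (1 - s) * a + s * b := by ring
    rw [e]
    constructor
    · rcases eq_or_lt_of_le hs.1 with h | h
      · rw [← h]; linarith
      · have := mul_pos h hb0
        have := mul_nonneg (sub_nonneg.2 hs.2) ha0.le
        linarith
    · rcases eq_or_lt_of_le hs.1 with h | h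
      · rw [← h]; linarith
      · have := mul_lt_mul_of_pos_left hb1 h
        have := mul_le_mul_of_nonneg_left ha1.le (sub_nonneg.2 hs.2)
        linarith
  refine rep_square (H := fun q : ℝ × ℝ => κ (p, ((a + q.1 * (b - a) : ℝ) : ℂ) * ex q.2)) ?_ ?_ (c₀ := m') (c₁ := m)
    (d₀ := u) (d₁ := u) ?_ ?_ ?_ ?_
  · intro q hq
    apply ContinuousAt.continuousWithinAt
    have h1 := xsm_mer_at hκ p (hρ q.1 hq.1).1 (hρ q.1 hq.1).2 q.2
    have h2 : ContinuousAt (fun q : ℝ × ℝ => ((p, ((a + q.1 * (b - a) : ℝ) : ℂ) * ex q.2) : ℝ × ℂ)) q := by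
      apply Continuous.continuousAt
      have := xsm_ex_cont
      fun_prop
    exact ContinuousAt.comp (f := fun q : ℝ × ℝ => ((p, ((a + q.1 * (b - a) : ℝ) : ℂ) * ex q.2) : ℝ × ℂ)) (g := κ) h1 h2
  · intro q hq
    exact xsm_mer_mem hκ p (hρ q.1 hq.1).1 (hρ q.1 hq.1).2 q.2
  · have e : (fun t : ℝ => κ (p, ((a + 0 * (b - a) : ℝ) : ℂ) * ex t)) =
        fun t : ℝ => (fun t => κ (p, (a : ℂ) * ex t)) (0 + t * (1 - 0)) := by
      funext t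
      simp
    show Rep (fun t : ℝ => κ (p, ((a + 0 * (b - a) : ℝ) : ℂ) * ex t)) m'
    rw [e]
    exact hm'
  · have e : (fun t : ℝ => κ (p, ((a + 1 * (b - a) : ℝ) : ℂ) * ex t)) =
        fun t : ℝ => (fun t => κ (p, (b : ℂ) * ex t)) (0 + t * (1 - 0)) := by
      funext t
      simp
    show Rep (fun t : ℝ => κ (p, ((a + 1 * (b - a) : ℝ) : ℂ) * ex t)) m
    rw [e]
    exact hm
  · have e : (fun s : ℝ => κ (p, ((a + s * (b - a) : ℝ) : ℂ) * ex 0)) =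
        fun s : ℝ => (fun t : ℝ => κ (p, (t : ℂ))) (a + s * (b - a)) := by
      funext s
      simp only
      rw [xsm_ex_zero, mul_one]
    show Rep (fun s : ℝ => κ (p, ((a + s * (b - a) : ℝ) : ℂ) * ex 0)) u
    rw [e]
    exact hu
  · have e : (fun s : ℝ => κ (p, ((a + s * (b - a) : ℝ) : ℂ) * ex 1)) =
        fun s : ℝ => (fun t : ℝ => κ (p, (t : ℂ))) (a + s * (b - a)) := by
      funext s
      simp only
      rw [xsm_ex_one, mul_one]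
    show Rep (fun s : ℝ => κ (p, ((a + s * (b - a) : ℝ) : ℂ) * ex 1)) u
    rw [e]
    exact hu

/-- the square of the slides -/
theorem xsm_sq_sli {κ : ℝ × ℂ → N} (hκ : Thick κ) (p₀ p : ℝ) {a b : ℝ} (ha0 : 0 < a) (ha1 : a < 1) (hb0 : 0 < b) (hb1 : b < 1)
    {u : Path (xsm_pt hκ p₀ ha0 ha1) (xsm_pt hκ p₀ hb0 hb1)} {s₂ : Path (xsm_pt hκ p₀ ha0 ha1) (xsm_pt hκ p ha0 ha1)}
    {s₁ : Path (xsm_pt hκ p₀ hb0 hb1) (xsm_pt hκ p hb0 hb1)} {v : Path (xsm_pt hκ p ha0 ha1) (xsm_pt hκ p hb0 hb1)}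
    (hu : RepI (fun t => κ (p₀, (t : ℂ))) a b u) (hv : RepI (fun t => κ (p, (t : ℂ))) a b v)
    (h₂ : RepI (fun l => κ (l, (a : ℂ))) p₀ p s₂) (h₁ : RepI (fun l => κ (l, (b : ℂ))) p₀ p s₁) :
    (u.trans s₁).Homotopic (s₂.trans v) := by
  have hρ : ∀ s ∈ Icc (0 : ℝ) 1, 0 < a + s * (b - a) ∧ a + s * (b - a) < 1 := by
    intro s hs
    have e : a + s * (b - a) = (1 - s) * a + s * b := by ring
    rw [e]
    constructor
    · rcases eq_or_lt_of_le hs.1 with h | h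
      · rw [← h]; linarith
      · have := mul_pos h hb0
        have := mul_nonneg (sub_nonneg.2 hs.2) ha0.le
        linarith
    · rcases eq_or_lt_of_le hs.1 with h | h
      · rw [← h]; linarith
      · have := mul_lt_mul_of_pos_left hb1 h
        have := mul_le_mul_of_nonneg_left ha1.le (sub_nonneg.2 hs.2)
        linarith
  refine rep_square (H := fun q : ℝ × ℝ => κ (p₀ + q.2 * (p - p₀), ((a + q.1 * (b - a) : ℝ) : ℂ))) ?_ ?_ (c₀ := s₂)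
    (c₁ := s₁) (d₀ := u) (d₁ := v) ?_ ?_ ?_ ?_
  · intro q hq
    apply ContinuousAt.continuousWithinAt
    have h1 : ContinuousAt κ (p₀ + q.2 * (p - p₀), ((a + q.1 * (b - a) : ℝ) : ℂ)) := xsm_at hκ (by
      show ‖((a + q.1 * (b - a) : ℝ) : ℂ)‖ < 1
      rw [Complex.norm_real, Real.norm_of_nonneg (hρ q.1 hq.1).1.le]
      exact (hρ q.1 hq.1).2)
    have h2 : ContinuousAt (fun q : ℝ × ℝ => ((p₀ + q.2 * (p - p₀), ((a + q.1 * (b - a) : ℝ) : ℂ)) : ℝ × ℂ)) q := by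
      apply Continuous.continuousAt
      fun_prop
    exact ContinuousAt.comp (f := fun q : ℝ × ℝ => ((p₀ + q.2 * (p - p₀), ((a + q.1 * (b - a) : ℝ) : ℂ)) : ℝ × ℂ))
      (g := κ) h1 h2
  · intro q hq
    exact (xsm_pt hκ (p₀ + q.2 * (p - p₀)) (hρ q.1 hq.1).1 (hρ q.1 hq.1).2).2
  · have e : (fun t : ℝ => κ (p₀ + t * (p - p₀), ((a + 0 * (b - a) : ℝ) : ℂ))) =
        fun t : ℝ => (fun l => κ (l, (a : ℂ))) (p₀ + t * (p - p₀)) := by
      funext t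
      simp
    show Rep (fun t : ℝ => κ (p₀ + t * (p - p₀), ((a + 0 * (b - a) : ℝ) : ℂ))) s₂
    rw [e]
    exact h₂
  · have e : (fun t : ℝ => κ (p₀ + t * (p - p₀), ((a + 1 * (b - a) : ℝ) : ℂ))) =
        fun t : ℝ => (fun l => κ (l, (b : ℂ))) (p₀ + t * (p - p₀)) := by
      funext t
      simp
    show Rep (fun t : ℝ => κ (p₀ + t * (p - p₀), ((a + 1 * (b - a) : ℝ) : ℂ))) s₁
    rw [e]
    exact h₁
  · have e : (fun s : ℝ => κ (p₀ + 0 * (p - p₀), ((a + s * (b - a) : ℝ) : ℂ))) =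
        fun s : ℝ => (fun t : ℝ => κ (p₀, (t : ℂ))) (a + s * (b - a)) := by
      funext s
      simp
    show Rep (fun s : ℝ => κ (p₀ + 0 * (p - p₀), ((a + s * (b - a) : ℝ) : ℂ))) u
    rw [e]
    exact hu
  · have e : (fun s : ℝ => κ (p₀ + 1 * (p - p₀), ((a + s * (b - a) : ℝ) : ℂ))) =
        fun s : ℝ => (fun t : ℝ => κ (p, (t : ℂ))) (a + s * (b - a)) := by
      funext s
      simp
    show Rep (fun s : ℝ => κ (p₀ + 1 * (p - p₀), ((a + s * (b - a) : ℝ) : ℂ))) v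
    rw [e]
    exact hv

end

section
variable {N : Type*} [TopologicalSpace N] [ChartedSpace E3 N] [IsManifold (𝓡 3) ∞ N] [T2Space N]

theorem xsm_Mrd (hO : Ori N) {κ : ℝ × ℂ → N} (hκ : Thick κ) {p p' ε : ℝ} {T : E → N} (A : Adm p p' ε)
    (hT : Chd (core κ) T) (hS : StdE κ p p' ε 1 T) :
    ∃ (ε' : ℝ) (T' : E → N), Adm p p' ε' ∧ Chd (core κ) T' ∧ StdE κ p p' ε' 1 T' ∧
      LEqN (kn (core κ) T) (kn (core κ) T') ∧
      Hmt (core κ)ᶜ (cor T') (cat (mer κ p (ε' / 8))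
        (cat (cat (seg κ (p, ((ε' / 8 : ℝ) : ℂ)) (p, ((ε / 8 : ℝ) : ℂ))) (cor T))
          (seg κ (p', ((ε / 8 : ℝ) : ℂ)) (p', ((ε' / 8 : ℝ) : ℂ))))) := by
  have hε := A.pos
  have hε1 := A.lt
  obtain ⟨ε₁, g0, -, g1, K₁, hK₁, hF⟩ := x_in hκ A (Or.inl rfl) hT hS one_pos
  have A₁ : Adm p p' ε₁ := adm_mono A g0 g1
  have a0 : 0 < ε / 8 := by linarith
  have a1 : ε / 8 < 1 := by linarith
  have b0 : 0 < ε₁ / 8 := by linarith
  have b1 : ε₁ / 8 < 1 := by linarith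
  obtain ⟨c, hc⟩ := xsm_cor hκ A hT hS a0 a1
  obtain ⟨s, hs⟩ := xsm_rad hκ p b0 b1 a0 a1
  obtain ⟨s', hs'⟩ := xsm_rad hκ p' a0 a1 b0 b1
  obtain ⟨m, hm⟩ := xsm_mer hκ p b0 b1
  have hF1 := hF c s s' hc hs hs'
  obtain ⟨K₂, hK₂, hL₂⟩ := fgr_meridian hκ A₁ hF1 1 (m := m) (by simpa using hm)
  obtain ⟨ε₂, k0, -, k1, T', hT', hS', hL₃, hout⟩ := x_out hO hκ A₁ hK₂ one_pos
  have A₂ : Adm p p' ε₂ := adm_mono A₁ k0 k1
  have c0 : 0 < ε₂ / 8 := by linarith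
  have c1 : ε₂ / 8 < 1 := by linarith
  obtain ⟨u, hu⟩ := xsm_rad hκ p c0 c1 b0 b1
  obtain ⟨u', hu'⟩ := xsm_rad hκ p' b0 b1 c0 c1
  obtain ⟨m', hm'⟩ := xsm_mer hκ p c0 c1
  have hfin := hout u u' hu hu'
  refine ⟨ε₂, T', A₂, hT', hS', hK₁.trans (hL₂.trans hL₃), ?_⟩
  have hsq := xsm_sq_mer hκ p c0 c1 b0 b1 hu hm' hm
  have halg := xsm_alg u m s c s' u' m' u hsq
  have h1 : RepI (cor T') 0 1 (m'.trans (((u.trans s).trans c).trans (s'.trans u'))) :=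
    rI_cor.2 ((repI_iff hfin).2 halg)
  refine rI_hmt h1 ?_
  exact rI_cat (rI_mer.2 hm') (rI_cat (rI_cat (rI_seg.2 (repI_trans hu hs)) (rI_cor.2 hc))
    (rI_seg.2 (repI_trans hs' hu')))

theorem xsm_dist {p p₀ p' : ℝ} (hp : ∀ k : ℤ, p' + k ∉ uIcc p p₀) :
    ∃ b : ℝ, 0 < b ∧ ∀ ε : ℝ, 0 < ε → ε < b → ∀ t ∈ uIcc p p₀, Adm t p' ε := by
  have hcl : IsClosed (range (Int.cast : ℤ → ℝ)) := Int.isClosedEmbedding_coe_real.isClosed_range
  have hne : (range (Int.cast : ℤ → ℝ)).Nonempty := ⟨0, 0, by simp⟩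
  have hcont : Continuous fun t : ℝ => Metric.infDist (t - p') (range (Int.cast : ℤ → ℝ)) :=
    (Metric.continuous_infDist_pt _).comp (continuous_id.sub continuous_const)
  obtain ⟨t₀, ht₀, hmin⟩ := isCompact_uIcc.exists_isMinOn (⟨p, left_mem_uIcc⟩ : (uIcc p p₀).Nonempty) hcont.continuousOn
  have hpos : 0 < Metric.infDist (t₀ - p') (range (Int.cast : ℤ → ℝ)) := by
    rw [← hcl.notMem_iff_infDist_pos hne]
    rintro ⟨k, hk⟩
    apply hp k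
    have : p' + k = t₀ := by rw [hk]; ring
    rw [this]
    exact ht₀
  set μ := Metric.infDist (t₀ - p') (range (Int.cast : ℤ → ℝ)) with hμ
  refine ⟨min (μ / 2) (1 / 4), by positivity, ?_⟩
  intro ε h0 h1 t ht
  refine ⟨h0, lt_of_lt_of_le h1 (min_le_right _ _), ?_⟩
  intro k
  have h2 : ε < μ / 2 := lt_of_lt_of_le h1 (min_le_left _ _)
  have h3 : μ ≤ Metric.infDist (t - p') (range (Int.cast : ℤ → ℝ)) := hmin ht
  have h4 : Metric.infDist (t - p') (range (Int.cast : ℤ → ℝ)) ≤ dist (t - p') ((-k : ℤ) : ℝ) :=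
    Metric.infDist_le_dist_of_mem ⟨-k, rfl⟩
  rw [Real.dist_eq] at h4
  have e : t - p' - ((-k : ℤ) : ℝ) = t - p' + k := by push_cast; ring
  rw [e] at h4
  linarith

theorem xsm_Sld (hO : Ori N) {κ : ℝ × ℂ → N} (hκ : Thick κ) {p p₀ p' ε : ℝ} {T : E → N} (A : Adm p p' ε)
    (hT : Chd (core κ) T) (hS : StdE κ p p' ε 1 T) (hp : ∀ k : ℤ, p' + k ∉ uIcc p p₀) :
    ∃ (ε' : ℝ) (T' : E → N), Adm p₀ p' ε' ∧ Chd (core κ) T' ∧ StdE κ p₀ p' ε' 1 T' ∧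
      LEqN (kn (core κ) T) (kn (core κ) T') ∧
      Hmt (core κ)ᶜ (cor T') (cat (seg κ (p₀, ((ε' / 8 : ℝ) : ℂ)) (p, ((ε' / 8 : ℝ) : ℂ)))
        (cat (cat (seg κ (p, ((ε' / 8 : ℝ) : ℂ)) (p, ((ε / 8 : ℝ) : ℂ))) (cor T))
          (seg κ (p', ((ε / 8 : ℝ) : ℂ)) (p', ((ε' / 8 : ℝ) : ℂ))))) := by
  have hε := A.pos
  have hε1 := A.lt
  obtain ⟨b, hb, hAdm⟩ := xsm_dist hp
  obtain ⟨ε₁, g0, gb, g1, K₁, hK₁, hF⟩ := x_in hκ A (Or.inl rfl) hT hS hb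
  have A₁ := hAdm ε₁ g0 gb
  have a0 : 0 < ε / 8 := by linarith
  have a1 : ε / 8 < 1 := by linarith
  have b0 : 0 < ε₁ / 8 := by linarith
  have b1 : ε₁ / 8 < 1 := by linarith
  obtain ⟨c, hc⟩ := xsm_cor hκ A hT hS a0 a1
  obtain ⟨s, hs⟩ := xsm_rad hκ p b0 b1 a0 a1
  obtain ⟨s', hs'⟩ := xsm_rad hκ p' a0 a1 b0 b1
  obtain ⟨s₁, hs₁⟩ := xsm_sli hκ p₀ p b0 b1
  have hF1 := hF c s s' hc hs hs'
  obtain ⟨K₂, hK₂, hL₂⟩ := fgr_slide hκ A₁ hF1 hs₁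
  have A₁' : Adm p₀ p' ε₁ := A₁ p₀ right_mem_uIcc
  obtain ⟨ε₂, k0, -, k1, T', hT', hS', hL₃, hout⟩ := x_out hO hκ A₁' hK₂ one_pos
  have A₂ : Adm p₀ p' ε₂ := adm_mono A₁' k0 k1
  have c0 : 0 < ε₂ / 8 := by linarith
  have c1 : ε₂ / 8 < 1 := by linarith
  obtain ⟨u, hu⟩ := xsm_rad hκ p₀ c0 c1 b0 b1
  obtain ⟨v, hv⟩ := xsm_rad hκ p c0 c1 b0 b1
  obtain ⟨u', hu'⟩ := xsm_rad hκ p' b0 b1 c0 c1
  obtain ⟨s₂, hs₂⟩ := xsm_sli hκ p₀ p c0 c1
  have hfin := hout u u' hu hu'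
  refine ⟨ε₂, T', A₂, hT', hS', hK₁.trans (hL₂.trans hL₃), ?_⟩
  have hsq := xsm_sq_sli hκ p₀ p c0 c1 b0 b1 hu hv hs₂ hs₁
  have halg := xsm_alg u s₁ s c s' u' s₂ v hsq
  have h1 : RepI (cor T') 0 1 (s₂.trans (((v.trans s).trans c).trans (s'.trans u'))) :=
    rI_cor.2 ((repI_iff hfin).2 halg)
  refine rI_hmt h1 ?_
  exact rI_cat (rI_segl.2 hs₂) (rI_cat (rI_cat (rI_seg.2 (repI_trans hv hs)) (rI_cor.2 hc))
    (rI_seg.2 (repI_trans hs' hu')))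

omit [ChartedSpace E3 N] [IsManifold (𝓡 3) ∞ N] [T2Space N] in
theorem xsm_seg (κ : ℝ × ℂ → N) (η l l' a b : ℝ) :
    seg (kap κ η) (l, ((a : ℝ) : ℂ)) (l', ((b : ℝ) : ℂ)) = seg κ (l, ((η * a : ℝ) : ℂ)) (l', ((η * b : ℝ) : ℂ)) := by
  funext t
  simp only [seg, kap]
  congr 1
  refine Prod.ext ?_ ?_
  · simp
  · simp
    ring

omit [ChartedSpace E3 N] [IsManifold (𝓡 3) ∞ N] [T2Space N] in
theorem xsm_kmer (κ : ℝ × ℂ → N) (η l a : ℝ) : mer (kap κ η) l a = mer κ l (η * a) := by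
  funext t
  simp only [mer, kap]
  congr 2
  push_cast
  ring

theorem ext_Sld (hO : Ori N) {κ : ℝ × ℂ → N} (hκ : Thick κ) {p p₀ p' η ε : ℝ} {T : E → N} (hF : FinE κ p p' η ε T)
    (hp : ∀ k : ℤ, p' + k ∉ uIcc p p₀) : ∃ (η' ε' : ℝ) (T' : E → N), FinE κ p₀ p' η' ε' T' ∧
      LEqN (kn (core κ) T) (kn (core κ) T') ∧
      Hmt (core κ)ᶜ (cor T') (cat (seg κ (p₀, ((η' * ε' / 8 : ℝ) : ℂ)) (p, ((η' * ε' / 8 : ℝ) : ℂ)))
        (radc κ p p' η ε η' ε' T)) := by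
  have hκ₁ := NHR.thick_kap hκ hF.pos hF.le
  obtain ⟨ε', T', A', hT', hS', hL, hH⟩ := xsm_Sld hO hκ₁ hF.adm (by rw [NHR.core_kap]; exact hF.chd) hF.std hp
  rw [NHR.core_kap] at hT' hL hH
  refine ⟨η, ε', T', ⟨hF.pos, hF.le, A', hT', hS'⟩, hL, ?_⟩
  rw [xsm_seg, xsm_seg, xsm_seg] at hH
  simp only [radc, mul_div_assoc]
  exact hH

theorem ext_Mrd (hO : Ori N) {κ : ℝ × ℂ → N} (hκ : Thick κ) {p p' η ε : ℝ} {T : E → N} (hF : FinE κ p p' η ε T) :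
    ∃ (η' ε' : ℝ) (T' : E → N), FinE κ p p' η' ε' T' ∧ LEqN (kn (core κ) T) (kn (core κ) T') ∧
      Hmt (core κ)ᶜ (cor T') (cat (mer κ p (η' * ε' / 8)) (radc κ p p' η ε η' ε' T)) := by
  have hκ₁ := NHR.thick_kap hκ hF.pos hF.le
  obtain ⟨ε', T', A', hT', hS', hL, hH⟩ := xsm_Mrd hO hκ₁ hF.adm (by rw [NHR.core_kap]; exact hF.chd) hF.std
  rw [NHR.core_kap] at hT' hL hH
  refine ⟨η, ε', T', ⟨hF.pos, hF.le, A', hT', hS'⟩, hL, ?_⟩
  rw [xsm_seg, xsm_seg, xsm_kmer] at hH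
  simp only [radc, mul_div_assoc]
  exact hH

end

end Pool.Agent.NHX
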