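import Mathlib
import Pool.Agent.NHX.Bas
import Pool.Agent.NHR.Geo

/-!
# NHX/Xth: the field `Thn` of `Ext` (difficulty 2)

`κ₁ = kap κ η` (`thick_kap`, `core κ₁ = core κ`); `T₁ = T (w / 8, x)` (`std_fat`: `StdR κ₁ p p' ε 1 (1/8) T₁`, `LEqN`; `T₁ (0, x) = T (0, x)`).  `δ`: the compact set `0 × [0, 1]` is mapped by `T₁` into the open set `O`: `δ ≤ 1/8` with `T₁ q ∈ O` for `‖q.1‖ ≤ δ`, `-δ ≤ q.2 ≤ 1 + δ`
(generalized tube lemma, `T₁` continuous on `TD`).  `exists_stdE_unif` for `κ₁, T₁, δ`: `ε₀`.  `r = min η (ε₀ / 2)` (and `r ≤ 1`).  For `η' ≤ r`, `ε' ≤ r`: `T'` for the ratio `η' / η ≤ 1` and `ε₁ = ε'`: `StdE (fun q => κ₁ (q.1, (η'/η) q.2)) = StdE (kap κ η')`.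
`T' '' TD ⊆ T₁ '' {‖q.1‖ < δ, -δ < q.2 < 1 + δ} ⊆ C := T₁ '' {‖q.1‖ ≤ δ, -δ ≤ q.2 ≤ 1 + δ}`, compact (closed, T2), `C ⊆ O ∩ T '' TD`.
Class: `x_class` with `κ₁`, `ρ = (η'/η) ε'`: `s` radial for `κ₁` from `(η'/η) ε'/8` to `ε/8`, i.e. for `κ` from `η' ε'/8` to `η ε/8` (`κ₁ (p, t) = κ (p, η t)`: `repI_comp` with `g t = η t`, or `repI_congr` after scaling), which is `seg κ (p, η'ε'/8) (p, ηε/8)` (`rI_seg`).  `radc` is `cat (cat seg (cor T)) seg`: class `(s.trans c).trans s'`, homotopic to `s.trans (c.trans s')`.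
-/

open scoped Manifold ContDiff Topology
open Set Filter
open Pool.Agent.RSG (E3 ex Thick)
open Pool.Agent.NHP
open Pool.Agent.NHE
open Pool.Agent.NHR (PathOn Hmt cat rv seg mer cor kap FinE radc)

namespace Pool.Agent.NHX

variable {N : Type*} [TopologicalSpace N] [ChartedSpace E3 N] [IsManifold (𝓡 3) ∞ N] [T2Space N]

theorem xth_off {κ : ℝ × ℂ → N} {T : E → N} (hT : Chd (core κ) T) {x : ℝ} (h0 : 0 < x) (h1 : x < 1) :
    T (0, x) ∈ (core κ)ᶜ := by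
  intro h
  have hq : ((0, x) : E) ∈ TD := ⟨by simp, by linarith, by linarith⟩
  have h2 : T (0, x) ∈ T '' TS := by
    rw [← hT.hit]
    exact ⟨h, _, hq, rfl⟩
  obtain ⟨q, hq', he⟩ := h2
  have h3 : q = (0, x) := hT.cht.inj hq'.1 hq he
  rcases hq'.2 with h4 | h4
  · have := h4.1
    rw [h3] at this
    exact h0.ne' this
  · have := h4.1
    rw [h3] at this
    exact h1.ne this

theorem xth_box {T₁ : E → N} (hc : ContinuousOn T₁ TD) {O : Set N} (hO : IsOpen O) (hTD : IsOpen TD)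
    (hT : ∀ x ∈ Icc (0 : ℝ) 1, T₁ (0, x) ∈ O) : ∃ δ : ℝ, 0 < δ ∧ δ ≤ 1 / 8 ∧
      ∀ q : E, ‖q.1‖ ≤ δ → -δ ≤ q.2 → q.2 ≤ 1 + δ → T₁ q ∈ O := by
  have hU : IsOpen (TD ∩ T₁ ⁻¹' O) := hc.isOpen_inter_preimage hTD hO
  have hK : IsCompact (({0} : Set ℂ) ×ˢ Icc (0 : ℝ) 1) := isCompact_singleton.prod isCompact_Icc
  have hKU : ({0} : Set ℂ) ×ˢ Icc (0 : ℝ) 1 ⊆ TD ∩ T₁ ⁻¹' O := by
    rintro ⟨w, x⟩ ⟨hw, hx⟩
    have hw' : w = 0 := hw
    subst hw'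
    have hx' : x ∈ Icc (0 : ℝ) 1 := hx
    exact ⟨⟨by simp, by linarith [hx'.1], by linarith [hx'.2]⟩, hT x hx'⟩
  obtain ⟨δ, hδ, hsub⟩ := hK.exists_cthickening_subset_open hU hKU
  refine ⟨min δ (1 / 8), lt_min hδ (by norm_num), min_le_right _ _, ?_⟩
  intro q h1 h2 h3
  have d1 : ‖q.1‖ ≤ δ := h1.trans (min_le_left _ _)
  have d2 : -δ ≤ q.2 := le_trans (neg_le_neg (min_le_left _ _)) h2
  have d3 : q.2 ≤ 1 + δ := h3.trans (by linarith [min_le_left δ (1 / 8 : ℝ)])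
  have hmem : ((0, max 0 (min q.2 1)) : E) ∈ ({0} : Set ℂ) ×ˢ Icc (0 : ℝ) 1 :=
    ⟨rfl, le_max_left _ _, max_le zero_le_one (min_le_right _ _)⟩
  have hdist : dist q (0, max 0 (min q.2 1)) ≤ δ := by
    rw [Prod.dist_eq]
    refine max_le ?_ ?_
    · rw [dist_zero_right]; exact d1
    · rw [Real.dist_eq, abs_le]
      rcases le_total q.2 1 with h | h
      · rw [min_eq_left h]
        rcases le_total 0 q.2 with h' | h'
        · rw [max_eq_right h']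
          constructor <;> linarith
        · rw [max_eq_left h']
          constructor <;> linarith
      · rw [min_eq_right h, max_eq_right zero_le_one]
        constructor <;> linarith
  exact (hsub (Metric.mem_cthickening_of_dist_le _ _ _ _ hmem hdist)).2

theorem xth_rad {κ : ℝ × ℂ → N} (hκ : Thick κ) {p a b : ℝ} (ha : 0 < a) (hb : 0 < b) (ha1 : a < 1) (hb1 : b < 1) :
    ContinuousOn (fun t : ℝ => κ (p, (t : ℂ))) (uIcc a b) ∧ ∀ t ∈ uIcc a b, κ (p, (t : ℂ)) ∈ (core κ)ᶜ := by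
  have hpos : ∀ t ∈ uIcc a b, 0 < t ∧ t < 1 := by
    intro t ht
    rw [mem_uIcc] at ht
    rcases ht with ⟨h1, h2⟩ | ⟨h1, h2⟩
    · exact ⟨by linarith, by linarith⟩
    · exact ⟨by linarith, by linarith⟩
  constructor
  · have h1 : Continuous fun t : ℝ => ((p, (t : ℂ)) : ℝ × ℂ) := by fun_prop
    refine (NHR.thick_cont hκ).comp h1.continuousOn ?_
    intro t ht
    obtain ⟨h2, h3⟩ := hpos t ht
    change ‖(t : ℂ)‖ < 1
    rw [Complex.norm_real, Real.norm_of_nonneg h2.le]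
    exact h3
  · intro t ht
    obtain ⟨h2, h3⟩ := hpos t ht
    refine NHR.thick_off hκ ?_ ?_
    · rw [Complex.norm_real, Real.norm_of_nonneg h2.le]
      exact h3
    · exact_mod_cast h2.ne'

theorem ext_Thn {κ : ℝ × ℂ → N} (hκ : Thick κ) {p p' η ε : ℝ} {T : E → N} (hF : FinE κ p p' η ε T) {O : Set N} (hO : IsOpen O)
    (hT : ∀ x ∈ Icc (0 : ℝ) 1, T (0, x) ∈ O) : ∃ r : ℝ, 0 < r ∧ ∀ η' ε' : ℝ, 0 < η' → η' ≤ r → 0 < ε' → ε' ≤ r →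
    ∃ T' : E → N, FinE κ p p' η' ε' T' ∧ IsCompact (closure (T' '' TD)) ∧ closure (T' '' TD) ⊆ O ∩ T '' TD ∧
      LEqN (kn (core κ) T) (kn (core κ) T') ∧ Hmt (core κ)ᶜ (cor T') (radc κ p p' η ε η' ε' T) := by
  have hη := hF.pos
  have hη1 := hF.le
  have A := hF.adm
  have hε := A.pos
  have hε1 := A.lt
  have hcore : core (kap κ η) = core κ := NHR.core_kap κ η
  have hκ₁ : Thick (kap κ η) := NHR.thick_kap hκ hη hη1
  obtain ⟨hT₁, hR, hL⟩ := NHQ.std_fat (κ := kap κ η) (σ := 1) (Or.inl rfl) (by rw [hcore]; exact hF.chd) hF.std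
  rw [hcore] at hL
  set T₁ : E → N := fun q => T ((1 / 8 : ℂ) * q.1, q.2) with hT₁def
  have hT₁0 : ∀ x : ℝ, T₁ (0, x) = T (0, x) := by
    intro x
    rw [hT₁def]
    simp only [mul_zero]
  have hcont : ContinuousOn T₁ TD := NHR.cht_cont hT₁.cht
  obtain ⟨δ, hδ, hδ8, hbox⟩ := xth_box hcont hO NHR.TD_open (fun x hx => by rw [hT₁0]; exact hT x hx)
  obtain ⟨ε₀, hε₀, hε₀ε, hex⟩ := exists_stdE_unif hκ₁ A hT₁ hR hδ
  refine ⟨min η (ε₀ / 2), lt_min hη (by linarith), ?_⟩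
  intro η' ε' hη' hη'r hε' hε'r
  have g1 : η' ≤ η := hη'r.trans (min_le_left _ _)
  have g2 : ε' < ε₀ := lt_of_le_of_lt (hε'r.trans (min_le_right _ _)) (by linarith)
  have g3 : η' / η ≤ 1 := (div_le_one hη).2 g1
  have g4 : 0 < η' / η := div_pos hη' hη
  obtain ⟨T', ξ, hc', hS', hL', hsub, hξT, hξs, hξm, -, -, hξ1, hξ7⟩ := hex (η' / η) ε' g4 g3 hε' g2
  rw [hcore] at hc' hL'
  have hfun : (fun q : ℝ × ℂ => kap κ η (q.1, ((η' / η : ℝ) : ℂ) * q.2)) = kap κ η' := by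
    funext q
    change κ (q.1, (η : ℂ) * (((η' / η : ℝ) : ℂ) * q.2)) = κ (q.1, (η' : ℂ) * q.2)
    congr 2
    have : (η : ℂ) ≠ 0 := by exact_mod_cast hη.ne'
    push_cast
    field_simp
  rw [hfun] at hS'
  refine ⟨T', ⟨hη', g1.trans hη1, adm_mono A hε' (g2.le.trans hε₀ε), hc', hS'⟩, ?_⟩
  -- the compact set
  have hD : IsCompact (Metric.closedBall (0 : ℂ) δ ×ˢ Icc (-δ) (1 + δ)) := (isCompact_closedBall _ _).prod isCompact_Icc
  have hDsub : Metric.closedBall (0 : ℂ) δ ×ˢ Icc (-δ) (1 + δ) ⊆ TD := by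
    rintro ⟨w, x⟩ ⟨hw, hx⟩
    have hw' : ‖w‖ ≤ δ := by simpa using hw
    have hx' : x ∈ Icc (-δ) (1 + δ) := hx
    exact ⟨by change ‖w‖ < 1; linarith, by change -(1 / 4) < x; linarith [hx'.1], by change x < 5 / 4; linarith [hx'.2]⟩
  have hC : IsCompact (T₁ '' (Metric.closedBall (0 : ℂ) δ ×ˢ Icc (-δ) (1 + δ))) :=
    hD.image_of_continuousOn (hcont.mono hDsub)
  have hsub2 : T' '' TD ⊆ T₁ '' (Metric.closedBall (0 : ℂ) δ ×ˢ Icc (-δ) (1 + δ)) := by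
    refine hsub.trans (image_mono ?_)
    rintro q ⟨-, h1, h2, h3⟩
    exact ⟨by simpa using h1.le, h2.le, h3.le⟩
  have hcl : closure (T' '' TD) ⊆ T₁ '' (Metric.closedBall (0 : ℂ) δ ×ˢ Icc (-δ) (1 + δ)) :=
    closure_minimal hsub2 hC.isClosed
  have hCO : T₁ '' (Metric.closedBall (0 : ℂ) δ ×ˢ Icc (-δ) (1 + δ)) ⊆ O ∩ T '' TD := by
    rintro _ ⟨q, hq, rfl⟩
    have hqD := hDsub hq
    have hq1 : ‖q.1‖ ≤ δ := by simpa using hq.1
    refine ⟨hbox q hq1 hq.2.1 hq.2.2, ((1 / 8 : ℂ) * q.1, q.2), ⟨?_, hqD.2.1, hqD.2.2⟩, rfl⟩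
    change ‖(1 / 8 : ℂ) * q.1‖ < 1
    rw [norm_mul]
    have : ‖(1 / 8 : ℂ)‖ = 1 / 8 := by norm_num
    rw [this]
    have := hqD.1
    linarith [norm_nonneg q.1]
  refine ⟨hC.of_isClosed_subset isClosed_closure hcl, hcl.trans hCO, hL.trans hL', ?_⟩
  -- the class
  have e1 : 0 < η * ε / 8 := by positivity
  have e2 : 0 < η' * ε' / 8 := by positivity
  have hε'ε : ε' ≤ ε := g2.le.trans hε₀ε
  have e3 : η * ε / 8 < 1 := by nlinarith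
  have e4 : η' * ε' / 8 < 1 := by nlinarith
  have m0 : (0 : ℝ) ∈ Icc (0 : ℝ) 1 := ⟨le_rfl, zero_le_one⟩
  have m1 : (1 : ℝ) ∈ Icc (0 : ℝ) 1 := ⟨zero_le_one, le_rfl⟩
  obtain ⟨r1, r2⟩ := xth_rad hκ (p := p) e2 e1 e4 e3
  obtain ⟨r1', r2'⟩ := xth_rad hκ (p := p') e1 e2 e3 e4
  have hTfoot : T (0, 1 / 8) = κ (p, ((η * ε / 8 : ℝ) : ℂ)) := by
    have hq : ((0, 1 / 8) : E) ∈ TD := ⟨by simp, by norm_num, by norm_num⟩
    rw [hF.std.foot _ hq (by norm_num)]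
    change κ (p + ε * (0 : ℂ).re, (η : ℂ) * ((ε : ℂ) * ⟨1 / 8, (0 : ℂ).im⟩)) = _
    congr 1
    refine Prod.ext ?_ (Complex.ext ?_ ?_)
    · simp
    · simp
      ring
    · simp
  have hTtip : T (0, 7 / 8) = κ (p', ((η * ε / 8 : ℝ) : ℂ)) := by
    have hq : ((0, 7 / 8) : E) ∈ TD := ⟨by simp, by norm_num, by norm_num⟩
    rw [hF.std.tip _ hq (by norm_num)]
    change κ (p' + 1 * ε * (0 : ℂ).im, (η : ℂ) * ((ε : ℂ) * ⟨1 - 7 / 8, (0 : ℂ).re⟩)) = _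
    congr 1
    refine Prod.ext ?_ (Complex.ext ?_ ?_)
    · simp
    · simp
      ring
    · simp
  have hy : κ (p, ((η * ε / 8 : ℝ) : ℂ)) ∈ (core κ)ᶜ := r2 _ right_mem_uIcc
  have hy' : κ (p', ((η * ε / 8 : ℝ) : ℂ)) ∈ (core κ)ᶜ := r2' _ left_mem_uIcc
  have hz : κ (p, ((η' * ε' / 8 : ℝ) : ℂ)) ∈ (core κ)ᶜ := r2 _ left_mem_uIcc
  have hz' : κ (p', ((η' * ε' / 8 : ℝ) : ℂ)) ∈ (core κ)ᶜ := r2' _ right_mem_uIcc
  obtain ⟨s, hs⟩ := exists_repI (y := (⟨_, hz⟩ : ((core κ)ᶜ : Set N))) (y' := (⟨_, hy⟩ : ((core κ)ᶜ : Set N))) r1 r2 rfl rfl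
  obtain ⟨s', hs'⟩ := exists_repI (y := (⟨_, hy'⟩ : ((core κ)ᶜ : Set N))) (y' := (⟨_, hz'⟩ : ((core κ)ᶜ : Set N))) r1' r2' rfl rfl
  have hcT : ContinuousOn (fun x : ℝ => T (0, x)) (uIcc (1 / 8) (7 / 8)) := by
    refine (NHR.cht_cont hF.chd.cht).comp (by fun_prop) ?_
    intro x hx
    rw [uIcc_of_le (by norm_num)] at hx
    exact ⟨by simp, by change -(1 / 4) < x; linarith [hx.1], by change x < 5 / 4; linarith [hx.2]⟩
  obtain ⟨c, hc⟩ := exists_repI (y := (⟨_, hy⟩ : ((core κ)ᶜ : Set N))) (y' := (⟨_, hy'⟩ : ((core κ)ᶜ : Set N))) hcT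
    (fun x hx => by
      rw [uIcc_of_le (by norm_num)] at hx
      exact xth_off hF.chd (by linarith [hx.1]) (by linarith [hx.2])) hTfoot hTtip
  have hc₁ : RepI (fun x => T₁ (0, x)) (1 / 8) (7 / 8) c := repI_congr hc fun x _ => hT₁0 x
  have hρ : 0 < η' / η * ε' := mul_pos g4 hε'
  have hρ' : η' / η * ε' ≤ ε := by
    have : η' / η * ε' ≤ 1 * ε' := mul_le_mul_of_nonneg_right g3 hε'.le
    linarith
  have hres : ∀ (P a b : ℝ) {y y' : ((core κ)ᶜ : Set N)} {s : Path y y'}, ContinuousOn (fun t : ℝ => κ (P, (t : ℂ))) (uIcc (η * a) (η * b)) →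
      (∀ t ∈ uIcc (η * a) (η * b), κ (P, (t : ℂ)) ∈ (core κ)ᶜ) → RepI (fun t => κ (P, (t : ℂ))) (η * a) (η * b) s →
      RepI (fun t => kap κ η (P, (t : ℂ))) a b s := by
    intro P a b y y' s k1 k2 k3
    have h1 : RepI (fun t => κ (P, ((η * t : ℝ) : ℂ))) a b s := by
      refine repI_comp (f := fun t => κ (P, (t : ℂ))) (g := fun t => η * t) (a' := η * a) (b' := η * b) k3 (by fun_prop) k1 k2 ?_
      intro t ht
      rw [mem_uIcc] at ht ⊢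
      rcases ht with ⟨h1, h2⟩ | ⟨h1, h2⟩
      · exact Or.inl ⟨mul_le_mul_of_nonneg_left h1 hη.le, mul_le_mul_of_nonneg_left h2 hη.le⟩
      · exact Or.inr ⟨mul_le_mul_of_nonneg_left h1 hη.le, mul_le_mul_of_nonneg_left h2 hη.le⟩
    refine repI_congr h1 ?_
    intro t _
    change κ (P, (η : ℂ) * (t : ℂ)) = κ (P, ((η * t : ℝ) : ℂ))
    rw [Complex.ofReal_mul]
  have q1 : η * (η' / η * ε' / 8) = η' * ε' / 8 := by field_simp
  have q2 : η * (ε / 8) = η * ε / 8 := by ring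
  have hs₁ : RepI (fun t => kap κ η (p, (t : ℂ))) (η' / η * ε' / 8) (ε / 8) s := by
    refine hres p _ _ ?_ ?_ ?_
    · rw [q1, q2]; exact r1
    · rw [q1, q2]; exact r2
    · rw [q1, q2]; exact hs
  have hs₁' : RepI (fun t => kap κ η (p', (t : ℂ))) (ε / 8) (η' / η * ε' / 8) s' := by
    refine hres p' _ _ ?_ ?_ ?_
    · rw [q1, q2]; exact r1'
    · rw [q1, q2]; exact r2'
    · rw [q1, q2]; exact hs'
  have hcls := x_class hε hR hξs.continuous hξm hξ1 hξ7 hρ hρ' hξT hc₁ hs₁ hs₁'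
  have f1 := rI_cor.2 hcls
  have f2 : RepI (radc κ p p' η ε η' ε' T) 0 1 ((s.trans c).trans s') :=
    rI_cat (rI_cat (rI_seg.2 hs) (rI_cor.2 hc)) (rI_seg.2 hs')
  have f3 : RepI (radc κ p p' η ε η' ε' T) 0 1 (s.trans (c.trans s')) :=
    (repI_iff f2).2 ⟨Path.Homotopy.transAssoc s c s'⟩
  exact rI_hmt f1 f3

end Pool.Agent.NHX
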