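import Mathlib
import Pool.Agent.NHX.Xe1
import Pool.Agent.NHX.Xeb
import Pool.Agent.NHX.Xe2
import Pool.Agent.NHX.Xth
import Pool.Agent.NHX.Xsm
import Pool.Agent.NHX.Xav
import Pool.Agent.NHT.T1G

/-!
# NHX/Ext: the external facts of block R hold in a connected oriented 3-manifold (assembly)
-/

open scoped Manifold ContDiff Topology
open Set Filter
open Pool.Agent.RSG (E3 ex Thick)
open Pool.Agent.NHP
open Pool.Agent.NHQ (Ori)
open Pool.Agent.NHR (Ext)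

namespace Pool.Agent.NHX

variable {N : Type*} [TopologicalSpace N] [ChartedSpace E3 N] [IsManifold (𝓡 3) ∞ N] [T2Space N] [ConnectedSpace N]

theorem ext_of_ori (hO : Ori N) : Ext N where
  E1 := fun _ hκ _ _ _ A A4 _ hOo hf ht _ hfp h0 h1 => ext_E1 hO hκ A A4 hOo hf ht hfp h0 h1
  E1b := fun _ hκ _ _ _ A _ hY hYK hYb hYt _ hf h0 h1 => ext_E1b hO hκ A hY hYK hYb hYt hf h0 h1
  E2 := fun _ hκ _ _ _ A _ _ hT hT' hS hS' hh => ext_E2 hκ A hT hT' hS hS' hh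
  Thn := fun _ hκ _ _ _ _ _ hF _ hO hT => ext_Thn hκ hF hO hT
  Sld := fun _ hκ _ _ _ _ _ _ hF hp => ext_Sld hO hκ hF hp
  Mrd := fun _ hκ _ _ _ _ _ hF => ext_Mrd hO hκ hF
  Avd := fun _ hκ _ hT m _ hf hm => ext_Avd hκ hT m hf hm
  Pcn := fun _ hκ => NHT.pcn hκ

end Pool.Agent.NHX
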