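import Mathlib
import Pool.Agent.NHQ.Cnj
import Pool.Agent.NHR.Defs

/-!
# NHX/Esa: the class in `N` of the loop with the value `lba` (difficulty 3)

`hG.inj`: the value determines the homotopy class in `(core κ)ᶜ`, hence in `N`.  `F` = `cat` of the five paths of `lba` (`t0`; the three segments of `HU G B (-1/256)`; the segment in `κ` from `(P₂ - D/256, H/8)` to `(0, 1/2)`): all lie in `(core κ)ᶜ`: the `κ`-segments from `(0, 1/2)` to `(P - D/256, H/8)` have `v` real, `> 0`, `< 1` (`Thick.inj`); the `B`-segments are in `TD` and off `TSB` (`SP.hitB`: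
`K ∩ B '' TD = B '' TSB`, `B` injective): the points `(re u, im u, x)` of the segments have `im u ≠ 0` or `x = -1/8` or `x = 9/8`.  Joints: `κ (P - D/256, H/8) = B (P3 (-1/256) 0 (-1/8))` (`Lnk.foot`), `B (P3 (-1/256) 0 (9/8)) = κ (P₂ - D/256, H/8)` (`Lnk.tip`, `τ = 1`, `-(H (1 - 9/8)) = H/8`).
`G.ct` four times: `G.val F = lba G κ B 0 P P₂ D H 1 = G.val f`, so `Hmt (core κ)ᶜ F f` (`hG.inj`), so `PC f` iff `PC F` (`PC.homotopic`).
Class of `F` in `N`: in the chart `κ` (continuous on the convex set `{‖v‖ < 1}`, `PC.convex`): `inv ρ ≫ α ≫ (from κ (P, 0) to κ (P - D/256, H/8))`; in the chart `B` (convex set `TD`) the middle part with the two connecting pieces is `β`; then back.  (`κ (P, 0) = B (0, 0)`, `κ (P₂, 0) = B (0, 1)`; near the ends `B` is given by `κ`, so the connecting pieces in `B` and in `κ` are the same functions up to an affine change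
of the segment: the straight segment of `B` from `(0, 0)` to `P3 (-1/256) 0 (-1/8)` is the straight segment of `κ` from `(P, 0)` to `(P - D/256, H/8)` by `Lnk.foot` (affine).)
-/

open scoped Manifold ContDiff Topology
open Set Filter CategoryTheory
open Pool.Agent.RSG (E3 ex Thick)
open Pool.Agent.NHP
open Pool.Agent.NHQ (PC cl)
open Pool.Agent.NHR

universe u v

namespace Pool.Agent.NHX

variable {N : Type u} [TopologicalSpace N] [ChartedSpace E3 N] [T2Space N] {Γ : Type v} [Group Γ]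

section
variable {M : Type*} [TopologicalSpace M]

omit [ChartedSpace E3 N] [T2Space N] in
theorem esa_cc (F : M → N) (u v : ℝ → M) :
    Pool.Agent.NHQ.cc (fun t => F (u t)) (fun t => F (v t)) = fun t => F (Pool.Agent.NHQ.cc u v t) := by
  funext t
  unfold Pool.Agent.NHQ.cc
  split_ifs <;> rfl

omit [ChartedSpace E3 N] [T2Space N] in
/-- a path in `C`, its image has the class `γ` -/
def esa_W (F : M → N) (C : Set M) (u : ℝ → M) {x y : N} (γ : FundamentalGroupoid.mk x ⟶ FundamentalGroupoid.mk y) :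
    Prop :=
  ContinuousOn u (Icc 0 1) ∧ (∀ t ∈ Icc (0 : ℝ) 1, u t ∈ C) ∧ PC (fun t => F (u t)) γ

theorem esa_cont {u v : ℝ → M} (hu : ContinuousOn u (Icc 0 1)) (hv : ContinuousOn v (Icc 0 1)) (h : u 1 = v 0) :
    ContinuousOn (Pool.Agent.NHQ.cc u v) (Icc 0 1) := by
  obtain ⟨γ, hγ⟩ := Pool.Agent.NHQ.exists_PC hu rfl rfl
  obtain ⟨δ, hδ⟩ := Pool.Agent.NHQ.exists_PC (y := v 1) hv h.symm rfl
  exact Pool.Agent.NHQ.PC.cont (Pool.Agent.NHQ.PC.trans hγ hδ)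

theorem esa_ccmem {M : Type*} {u v : ℝ → M} {C : Set M} (hu : ∀ t ∈ Icc (0 : ℝ) 1, u t ∈ C)
    (hv : ∀ t ∈ Icc (0 : ℝ) 1, v t ∈ C) : ∀ t ∈ Icc (0 : ℝ) 1, Pool.Agent.NHQ.cc u v t ∈ C := by
  intro t ht
  unfold Pool.Agent.NHQ.cc
  split_ifs with h
  · exact hu _ ⟨by linarith [ht.1], by linarith⟩
  · exact hv _ ⟨by linarith, by linarith [ht.2]⟩

omit [ChartedSpace E3 N] [T2Space N] in
theorem esa_W.trans {F : M → N} {C : Set M} {u v : ℝ → M} {x y z : N}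
    {γ : FundamentalGroupoid.mk x ⟶ FundamentalGroupoid.mk y}
    {δ : FundamentalGroupoid.mk y ⟶ FundamentalGroupoid.mk z} (h : esa_W F C u γ) (h' : esa_W F C v δ)
    (huv : u 1 = v 0) : esa_W F C (Pool.Agent.NHQ.cc u v) (γ ≫ δ) := by
  refine ⟨esa_cont h.1 h'.1 huv, esa_ccmem h.2.1 h'.2.1, ?_⟩
  rw [← esa_cc]
  exact Pool.Agent.NHQ.PC.trans h.2.2 h'.2.2

omit [ChartedSpace E3 N] [T2Space N] in
theorem esa_W.symm {F : M → N} {C : Set M} {u : ℝ → M} {x y : N}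
    {γ : FundamentalGroupoid.mk x ⟶ FundamentalGroupoid.mk y} (h : esa_W F C u γ) :
    esa_W F C (fun t => u (1 - t)) (inv γ) := by
  refine ⟨h.1.comp (by fun_prop) (fun t ht => ⟨by linarith [ht.2], by linarith [ht.1]⟩),
    fun t ht => h.2.1 _ ⟨by linarith [ht.2], by linarith [ht.1]⟩, Pool.Agent.NHQ.PC.symm h.2.2⟩

end

theorem esa_cc0 {M : Type*} (u v : ℝ → M) : Pool.Agent.NHQ.cc u v 0 = u 0 := by
  unfold Pool.Agent.NHQ.cc
  rw [if_pos (by norm_num), mul_zero]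

theorem esa_cc1 {M : Type*} (u v : ℝ → M) : Pool.Agent.NHQ.cc u v 1 = v 1 := by
  unfold Pool.Agent.NHQ.cc
  rw [if_neg (by norm_num)]
  norm_num

omit [ChartedSpace E3 N] [T2Space N] in
/-- two paths in a convex set -/
theorem esa_W.eq {M : Type*} [AddCommGroup M] [Module ℝ M] [TopologicalSpace M] [ContinuousAdd M]
    [ContinuousSMul ℝ M] {F : M → N} {C : Set M} (hC : Convex ℝ C) (hF : ContinuousOn F C) {u v : ℝ → M} {x y : N}
    {γ : FundamentalGroupoid.mk x ⟶ FundamentalGroupoid.mk y} (h : esa_W F C u γ) (hv : ContinuousOn v (Icc 0 1))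
    (hvC : ∀ t ∈ Icc (0 : ℝ) 1, v t ∈ C) (h0 : u 0 = v 0) (h1 : u 1 = v 1) : PC (fun t => F (v t)) γ :=
  Pool.Agent.NHQ.PC.convex hC hF h.1 hv h.2.1 hvC h0 h1 h.2.2

omit [ChartedSpace E3 N] [T2Space N] in
theorem esa_cat {f g : ℝ → N} {Y : Set N} (hf : PathOn Y f) (hg : PathOn Y g) (h : f 1 = g 0) :
    PathOn Y (cat f g) :=
  ⟨esa_cont hf.1 hg.1 h, esa_ccmem hf.2 hg.2⟩

theorem esa_segcont {M : Type*} [AddCommGroup M] [Module ℝ M] [TopologicalSpace M] [ContinuousAdd M]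
    [ContinuousSMul ℝ M] (p q : M) : ContinuousOn (fun t : ℝ => (1 - t) • p + t • q) (Icc 0 1) := by
  fun_prop

theorem esa_segmem {M : Type*} [AddCommGroup M] [Module ℝ M] {C : Set M} (hC : Convex ℝ C) {p q : M} (hp : p ∈ C)
    (hq : q ∈ C) : ∀ t ∈ Icc (0 : ℝ) 1, (1 - t) • p + t • q ∈ C :=
  fun t ht => hC hp hq (by linarith [ht.2]) ht.1 (by ring)

theorem esa_P3 (r y x y' x' t : ℝ) : (1 - t) • P3 r y x + t • P3 r y' x' =
    P3 r ((1 - t) * y + t * y') ((1 - t) * x + t * x') := by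
  unfold P3
  refine Prod.ext (Complex.ext ?_ ?_) ?_
  · simp
    ring
  · simp
  · simp

theorem esa_convTD : Convex ℝ TD := by
  have h1 : TD = (Metric.ball (0 : ℂ) 1) ×ˢ (Ioo (-(1 / 4) : ℝ) (5 / 4)) := by
    ext q
    simp [TD, Metric.mem_ball, dist_zero_right]
  rw [h1]
  exact (convex_ball _ _).prod (convex_Ioo _ _)

theorem esa_TD {y x : ℝ} (hy : |y| ≤ 1 / 2) (hx : -(1 / 4) < x) (hx' : x < 5 / 4) : P3 (-(1 / 256)) y x ∈ TD := by
  refine ⟨?_, hx, hx'⟩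
  show ‖(⟨-(1 / 256), y⟩ : ℂ)‖ < 1
  refine lt_of_le_of_lt (Complex.norm_le_abs_re_add_abs_im _) ?_
  show |(-(1 / 256) : ℝ)| + |y| < 1
  rw [abs_neg, abs_of_pos (by norm_num : (0 : ℝ) < 1 / 256)]
  linarith

theorem esa_lba {κ : ℝ × ℂ → N} (hκ : Thick κ) {B W : E → N} {P P₂ D H H' : ℝ} (L : Lnk κ B P P₂ D H H' 1)
    (S : SP (core κ) B W) (G : GHom (core κ)ᶜ Γ) (hG : Full G) {f : ℝ → N} (hf : PathOn (core κ)ᶜ f)
    (f0 : f 0 = κ (0, 1 / 2)) (f1 : f 1 = κ (0, 1 / 2)) (hv : lba G κ B 0 P P₂ D H 1 = G.val f) {a b d : N}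
    {ρ : FundamentalGroupoid.mk a ⟶ FundamentalGroupoid.mk (κ (0, 1 / 2))}
    {α : FundamentalGroupoid.mk a ⟶ FundamentalGroupoid.mk b} {β : FundamentalGroupoid.mk b ⟶ FundamentalGroupoid.mk d}
    {δ : FundamentalGroupoid.mk a ⟶ FundamentalGroupoid.mk d} (hρ : PC (fun t => κ (0, ((t / 2 : ℝ) : ℂ))) ρ)
    (hα : PC (fun t => κ (P * t, 0)) α) (hβ : PC (fun t => B (0, t)) β) (hδ : PC (fun t => κ (P₂ * t, 0)) δ) :
    PC f (inv ρ ≫ α ≫ β ≫ inv δ ≫ ρ) := by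
  -- the convex domains
  set Ck : Set (ℝ × ℂ) := {q | ‖q.2‖ < 1} with hCk
  have hCkc : Convex ℝ Ck := by
    have h1 : Ck = (univ : Set ℝ) ×ˢ (Metric.ball (0 : ℂ) 1) := by
      ext q
      simp [Ck, Metric.mem_ball, dist_zero_right]
    rw [h1]
    exact convex_univ.prod (convex_ball _ _)
  have hκc : ContinuousOn κ Ck := by
    rintro ⟨l, v⟩ hv
    exact (hκ.loc l v hv).contMDiffAt.continuousAt.continuousWithinAt
  have hBc : ContinuousOn B TD := S.chtB.contOn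
  have hH8 : ‖((H / 8 : ℝ) : ℂ)‖ < 1 := by
    rw [Complex.norm_real, Real.norm_eq_abs, abs_of_pos (by linarith [L.Hpos])]
    linarith [L.Hlt]
  -- points
  have eb : κ (P, 0) = b := by
    have h1 := hα.one
    beta_reduce at h1
    rwa [mul_one] at h1
  have ed : κ (P₂, 0) = d := by
    have h1 := hδ.one
    beta_reduce at h1
    rwa [mul_one] at h1
  have foot' : ∀ t ∈ Icc (0 : ℝ) 1, B ((1 - t) • ((0, 0) : E) + t • P3 (-(1 / 256)) 0 (-(1 / 8))) =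
      κ ((1 - t) • ((P, 0) : ℝ × ℂ) + t • ((P - D / 256, ((H / 8 : ℝ) : ℂ)) : ℝ × ℂ)) := by
    intro t ht
    have e1 : (1 - t) • ((0, 0) : E) + t • P3 (-(1 / 256)) 0 (-(1 / 8)) = (⟨-(t / 256), 0⟩, -(t / 8)) := by
      unfold P3
      refine Prod.ext (Complex.ext ?_ ?_) ?_
      · simp
        ring
      · simp
      · simp
        ring
    have hm : ((⟨-(t / 256), 0⟩, -(t / 8)) : E) ∈ TD := by
      refine ⟨?_, ?_, ?_⟩
      · show ‖(⟨-(t / 256), 0⟩ : ℂ)‖ < 1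
        refine lt_of_le_of_lt (Complex.norm_le_abs_re_add_abs_im _) ?_
        show |-(t / 256)| + |(0 : ℝ)| < 1
        rw [abs_neg, abs_zero, abs_of_nonneg (by linarith [ht.1])]
        linarith [ht.2]
      · show -(1 / 4 : ℝ) < -(t / 8)
        linarith [ht.2]
      · show -(t / 8) < (5 / 4 : ℝ)
        linarith [ht.1]
    rw [e1, L.foot _ hm (by show -(t / 8) < (1 / 4 : ℝ); linarith [ht.1])]
    congr 1
    refine Prod.ext ?_ (Complex.ext ?_ ?_)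
    · show P + D * (-(t / 256)) = _
      simp
      ring
    · show -(H * (-(t / 8))) = _
      simp
      ring
    · show -(H' * 0) = _
      simp
  have tip' : ∀ t ∈ Icc (0 : ℝ) 1, B ((1 - t) • ((0, 1) : E) + t • P3 (-(1 / 256)) 0 (9 / 8)) =
      κ ((1 - t) • ((P₂, 0) : ℝ × ℂ) + t • ((P₂ - 1 * D / 256, ((H / 8 : ℝ) : ℂ)) : ℝ × ℂ)) := by
    intro t ht
    have e1 : (1 - t) • ((0, 1) : E) + t • P3 (-(1 / 256)) 0 (9 / 8) = (⟨-(t / 256), 0⟩, 1 + t / 8) := by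
      unfold P3
      refine Prod.ext (Complex.ext ?_ ?_) ?_
      · simp
        ring
      · simp
      · simp
        ring
    have hm : ((⟨-(t / 256), 0⟩, 1 + t / 8) : E) ∈ TD := by
      refine ⟨?_, ?_, ?_⟩
      · show ‖(⟨-(t / 256), 0⟩ : ℂ)‖ < 1
        refine lt_of_le_of_lt (Complex.norm_le_abs_re_add_abs_im _) ?_
        show |-(t / 256)| + |(0 : ℝ)| < 1
        rw [abs_neg, abs_zero, abs_of_nonneg (by linarith [ht.1])]
        linarith [ht.2]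
      · show -(1 / 4 : ℝ) < 1 + t / 8
        linarith [ht.1]
      · show 1 + t / 8 < (5 / 4 : ℝ)
        linarith [ht.2]
    rw [e1, L.tip _ hm (by show (3 / 4 : ℝ) < 1 + t / 8; linarith [ht.1])]
    congr 1
    refine Prod.ext ?_ (Complex.ext ?_ ?_)
    · show P₂ + 1 * D * (-(t / 256)) = _
      simp
      ring
    · show -(H * (1 - (1 + t / 8))) = _
      simp
      ring
    · show -(-(1 * H' * 0)) = _
      simp
  -- the five paths
  set g1 : ℝ → N := seg κ (0, 1 / 2) (P - D / 256, ((H / 8 : ℝ) : ℂ)) with hg1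
  set g2 : ℝ → N := seg B (P3 (-(1 / 256)) 0 (-(1 / 8))) (P3 (-(1 / 256)) (1 / 768) (-(1 / 8))) with hg2
  set g3 : ℝ → N := seg B (P3 (-(1 / 256)) (1 / 768) (-(1 / 8))) (P3 (-(1 / 256)) (1 / 768) (9 / 8)) with hg3
  set g4 : ℝ → N := seg B (P3 (-(1 / 256)) (1 / 768) (9 / 8)) (P3 (-(1 / 256)) 0 (9 / 8)) with hg4
  set g5 : ℝ → N := seg κ (P₂ - 1 * D / 256, ((H / 8 : ℝ) : ℂ)) (0, 1 / 2) with hg5
  have hseg0 : ∀ {M : Type} [AddCommGroup M] [Module ℝ M] (F : M → N) (p q : M), seg F p q 0 = F p := by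
    intro M _ _ F p q
    unfold seg
    simp
  have hseg1 : ∀ {M : Type} [AddCommGroup M] [Module ℝ M] (F : M → N) (p q : M), seg F p q 1 = F q := by
    intro M _ _ F p q
    unfold seg
    simp
  have m1 : B (P3 (-(1 / 256)) 0 (-(1 / 8))) = κ (P - D / 256, ((H / 8 : ℝ) : ℂ)) := by
    have h1 := foot' 1 ⟨zero_le_one, le_rfl⟩
    simpa using h1
  have m2 : B (P3 (-(1 / 256)) 0 (9 / 8)) = κ (P₂ - 1 * D / 256, ((H / 8 : ℝ) : ℂ)) := by
    have h1 := tip' 1 ⟨zero_le_one, le_rfl⟩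
    simpa using h1
  have hhalf : ‖((1 / 2 : ℂ))‖ < 1 := by
    rw [norm_div, norm_one, Complex.norm_ofNat]
    norm_num
  have mh : ∀ l : ℝ, ((l, 1 / 2) : ℝ × ℂ) ∈ Ck := fun l => hhalf
  have mH : ∀ l : ℝ, ((l, ((H / 8 : ℝ) : ℂ)) : ℝ × ℂ) ∈ Ck := fun l => hH8
  have m0 : ∀ l : ℝ, ((l, 0) : ℝ × ℂ) ∈ Ck := fun l => by
    show ‖(0 : ℂ)‖ < 1
    rw [norm_zero]
    exact one_pos
  have t1 : P3 (-(1 / 256)) 0 (-(1 / 8)) ∈ TD := esa_TD (by norm_num) (by norm_num) (by norm_num)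
  have t2 : P3 (-(1 / 256)) (1 / 768) (-(1 / 8)) ∈ TD :=
    esa_TD (by rw [abs_of_pos (by norm_num)]; norm_num) (by norm_num) (by norm_num)
  have t3 : P3 (-(1 / 256)) (1 / 768) (9 / 8) ∈ TD :=
    esa_TD (by rw [abs_of_pos (by norm_num)]; norm_num) (by norm_num) (by norm_num)
  have t4 : P3 (-(1 / 256)) 0 (9 / 8) ∈ TD := esa_TD (by norm_num) (by norm_num) (by norm_num)
  have z0 : ((0, 0) : E) ∈ TD := by
    refine ⟨?_, ?_, ?_⟩
    · show ‖(0 : ℂ)‖ < 1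
      rw [norm_zero]
      exact one_pos
    · show -(1 / 4 : ℝ) < 0
      norm_num
    · show (0 : ℝ) < 5 / 4
      norm_num
  have z1 : ((0, 1) : E) ∈ TD := by
    refine ⟨?_, ?_, ?_⟩
    · show ‖(0 : ℂ)‖ < 1
      rw [norm_zero]
      exact one_pos
    · show -(1 / 4 : ℝ) < 1
      norm_num
    · show (1 : ℝ) < 5 / 4
      norm_num
  -- the paths avoid the knot
  have pk : ∀ (l l' x x' : ℝ), 0 < x → 0 < x' → x < 1 → x' < 1 →
      PathOn (core κ)ᶜ (seg κ (l, ((x : ℝ) : ℂ)) (l', ((x' : ℝ) : ℂ))) := by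
    intro l l' x x' hx hx' hx1 hx1'
    have hmem : ∀ y : ℝ, 0 < y → y < 1 → ‖((y : ℝ) : ℂ)‖ < 1 := by
      intro y hy hy1
      rw [Complex.norm_real, Real.norm_eq_abs, abs_of_pos hy]
      exact hy1
    have hin := esa_segmem hCkc (p := (l, ((x : ℝ) : ℂ))) (q := (l', ((x' : ℝ) : ℂ))) (hmem x hx hx1) (hmem x' hx' hx1')
    refine ⟨hκc.comp (esa_segcont _ _) hin, ?_⟩
    intro t ht hcore
    obtain ⟨l₀, hl₀⟩ := hcore
    have h1 := hκ.inj l₀ 0 _ _ (by rw [norm_zero]; exact one_pos) (hin t ht) hl₀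
    have h2 := congrArg Complex.re h1.1
    simp only [Complex.zero_re, Prod.snd_add, Prod.smul_snd, Complex.add_re, Complex.smul_re, Complex.ofReal_re,
      smul_eq_mul] at h2
    rcases ht.1.eq_or_lt with h3 | h3
    · rw [← h3] at h2
      linarith
    · have h4 : 0 < t * x' := mul_pos h3 hx'
      have h5 : 0 ≤ (1 - t) * x := mul_nonneg (by linarith [ht.2]) hx.le
      linarith
  have pB : ∀ (y x y' x' : ℝ), P3 (-(1 / 256)) y x ∈ TD → P3 (-(1 / 256)) y' x' ∈ TD →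
      (∀ t ∈ Icc (0 : ℝ) 1, (1 - t) * y + t * y' ≠ 0 ∨ ((1 - t) * x + t * x' ≠ 0 ∧ (1 - t) * x + t * x' ≠ 1)) →
      PathOn (core κ)ᶜ (seg B (P3 (-(1 / 256)) y x) (P3 (-(1 / 256)) y' x')) := by
    intro y x y' x' h1 h2 h3
    have hin := esa_segmem esa_convTD h1 h2
    refine ⟨hBc.comp (esa_segcont _ _) hin, ?_⟩
    intro t ht hcore
    have h4 : seg B (P3 (-(1 / 256)) y x) (P3 (-(1 / 256)) y' x') t ∈ core κ ∩ B '' TD :=
      ⟨hcore, ⟨_, hin t ht, rfl⟩⟩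
    rw [S.hitB] at h4
    obtain ⟨q, hq, hq2⟩ := h4
    have h5 := S.chtB.inj hq.1 (hin t ht) hq2
    rw [esa_P3] at h5
    rw [h5] at hq
    rcases h3 t ht with h6 | h6
    · exact h6 hq.2.1
    · rcases hq.2.2 with h7 | h7
      · exact h6.1 h7
      · exact h6.2 h7
  have e12 : ((1 / 2 : ℂ)) = ((1 / 2 : ℝ) : ℂ) := by push_cast; rfl
  have p1 : PathOn (core κ)ᶜ g1 := by
    rw [hg1, e12]
    exact pk _ _ _ _ (by norm_num) (by linarith [L.Hpos]) (by norm_num) (by linarith [L.Hlt])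
  have p5 : PathOn (core κ)ᶜ g5 := by
    rw [hg5, e12]
    exact pk _ _ _ _ (by linarith [L.Hpos]) (by norm_num) (by linarith [L.Hlt]) (by norm_num)
  have p2 : PathOn (core κ)ᶜ g2 := by
    refine pB _ _ _ _ t1 t2 fun t ht => Or.inr ⟨?_, ?_⟩
    · intro h
      linarith
    · intro h
      linarith
  have p3 : PathOn (core κ)ᶜ g3 := by
    refine pB _ _ _ _ t2 t3 fun t ht => Or.inl ?_
    intro h
    linarith
  have p4 : PathOn (core κ)ᶜ g4 := by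
    refine pB _ _ _ _ t3 t4 fun t ht => Or.inr ⟨?_, ?_⟩
    · intro h
      linarith
    · intro h
      linarith
  have c12 : g1 1 = g2 0 := by
    rw [hg1, hg2, hseg1, hseg0, m1]
  have c23 : g2 1 = g3 0 := by
    rw [hg2, hg3, hseg1, hseg0]
  have c34 : g3 1 = g4 0 := by
    rw [hg3, hg4, hseg1, hseg0]
  have c45 : g4 1 = g5 0 := by
    rw [hg4, hg5, hseg1, hseg0, m2]
  have cat0 : ∀ u v : ℝ → N, cat u v 0 = u 0 := fun u v => esa_cc0 u v
  have cat1 : ∀ u v : ℝ → N, cat u v 1 = v 1 := fun u v => esa_cc1 u v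
  have p23 : PathOn (core κ)ᶜ (cat g2 g3) := esa_cat p2 p3 c23
  have p234 : PathOn (core κ)ᶜ (cat (cat g2 g3) g4) := esa_cat p23 p4 (by rw [cat1, c34])
  have p1234 : PathOn (core κ)ᶜ (cat g1 (cat (cat g2 g3) g4)) := esa_cat p1 p234 (by rw [cat0, cat0, c12])
  have pF : PathOn (core κ)ᶜ (cat (cat g1 (cat (cat g2 g3) g4)) g5) := esa_cat p1234 p5 (by rw [cat1, cat1, c45])
  have hval : G.val (cat (cat g1 (cat (cat g2 g3) g4)) g5) = G.val f := by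
    rw [← hv, G.ct _ _ p1234 p5 (by rw [cat1, cat1, c45]), G.ct _ _ p1 p234 (by rw [cat0, cat0, c12]),
      G.ct _ _ p23 p4 (by rw [cat1, c34]), G.ct _ _ p2 p3 c23]
    rfl
  have F0 : cat (cat g1 (cat (cat g2 g3) g4)) g5 0 = κ (0, 1 / 2) := by
    rw [cat0, cat0, hg1, hseg0]
  have F1 : cat (cat g1 (cat (cat g2 g3) g4)) g5 1 = κ (0, 1 / 2) := by
    rw [cat1, hg5, hseg1]
  obtain ⟨Hh, hH1, hH2, hH3, hH4⟩ := hG.inj _ f pF hf (F0.trans f0.symm) (F1.trans f1.symm) hval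
  refine Pool.Agent.NHQ.PC.homotopic (H := Hh) (u := cat (cat g1 (cat (cat g2 g3) g4)) g5) hH1
    (fun t ht => (hH3 t ht).1) (fun t ht => (hH3 t ht).2) (fun s hs => (hH4 s hs).1.trans F0)
    (fun s hs => (hH4 s hs).2.trans F1) ?_
  -- the classes in `N`
  obtain ⟨σ₁, hσ₁⟩ := Pool.Agent.NHQ.exists_PC (x := b) (y := κ (P - D / 256, ((H / 8 : ℝ) : ℂ)))
    (f := fun t => κ ((1 - t) • ((P, 0) : ℝ × ℂ) + t • ((P - D / 256, ((H / 8 : ℝ) : ℂ)) : ℝ × ℂ)))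
    (hκc.comp (esa_segcont _ _) (esa_segmem hCkc (m0 P) (mH _))) (by simpa using eb) (by simp)
  obtain ⟨σ₂, hσ₂⟩ := Pool.Agent.NHQ.exists_PC (x := d) (y := κ (P₂ - 1 * D / 256, ((H / 8 : ℝ) : ℂ)))
    (f := fun t => κ ((1 - t) • ((P₂, 0) : ℝ × ℂ) + t • ((P₂ - 1 * D / 256, ((H / 8 : ℝ) : ℂ)) : ℝ × ℂ)))
    (hκc.comp (esa_segcont _ _) (esa_segmem hCkc (m0 P₂) (mH _))) (by simpa using ed) (by simp)
  have hs1 : PC (fun t => B ((1 - t) • ((0, 0) : E) + t • P3 (-(1 / 256)) 0 (-(1 / 8)))) σ₁ :=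
    hσ₁.congr foot'
  have hs2 : PC (fun t => B ((1 - t) • ((0, 1) : E) + t • P3 (-(1 / 256)) 0 (9 / 8))) σ₂ :=
    hσ₂.congr tip'
  have wρ : esa_W κ Ck (fun t => ((0, ((t / 2 : ℝ) : ℂ)) : ℝ × ℂ)) ρ := by
    refine ⟨by fun_prop, ?_, hρ⟩
    intro t ht
    show ‖((t / 2 : ℝ) : ℂ)‖ < 1
    rw [Complex.norm_real, Real.norm_eq_abs, abs_of_nonneg (by linarith [ht.1])]
    linarith [ht.2]
  have wα : esa_W κ Ck (fun t => ((P * t, 0) : ℝ × ℂ)) α := ⟨by fun_prop, fun t _ => m0 _, hα⟩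
  have wδ : esa_W κ Ck (fun t => ((P₂ * t, 0) : ℝ × ℂ)) δ := ⟨by fun_prop, fun t _ => m0 _, hδ⟩
  have wσ₁ : esa_W κ Ck _ σ₁ := ⟨esa_segcont _ _, esa_segmem hCkc (m0 P) (mH _), hσ₁⟩
  have wσ₂ : esa_W κ Ck _ σ₂ := ⟨esa_segcont _ _, esa_segmem hCkc (m0 P₂) (mH _), hσ₂⟩
  have ws1 : esa_W B TD _ σ₁ := ⟨esa_segcont _ _, esa_segmem esa_convTD z0 t1, hs1⟩
  have ws2 : esa_W B TD _ σ₂ := ⟨esa_segcont _ _, esa_segmem esa_convTD z1 t4, hs2⟩
  have wβ : esa_W B TD (fun t => ((0, t) : E)) β := by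
    refine ⟨by fun_prop, ?_, hβ⟩
    intro t ht
    refine ⟨?_, ?_, ?_⟩
    · show ‖(0 : ℂ)‖ < 1
      rw [norm_zero]
      exact one_pos
    · show -(1 / 4 : ℝ) < t
      linarith [ht.1]
    · show t < (5 / 4 : ℝ)
      linarith [ht.2]
  have k1 : PC g1 (inv ρ ≫ α ≫ σ₁) := by
    refine (wρ.symm.trans (wα.trans wσ₁ ?_) ?_).eq hCkc hκc (esa_segcont _ _) (esa_segmem hCkc (mh 0) (mH _)) ?_ ?_
    · simp
    · rw [esa_cc0]
      simp
    · rw [esa_cc0]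
      simp
    · rw [esa_cc1, esa_cc1]
      simp
  have k5 : PC g5 (inv σ₂ ≫ inv δ ≫ ρ) := by
    refine (wσ₂.symm.trans (wδ.symm.trans wρ ?_) ?_).eq hCkc hκc (esa_segcont _ _) (esa_segmem hCkc (mH _) (mh 0)) ?_ ?_
    · simp
    · rw [esa_cc0]
      simp
    · rw [esa_cc0]
      simp
    · rw [esa_cc1, esa_cc1]
      simp
  have k3 : PC (cat (cat g2 g3) g4) (inv σ₁ ≫ β ≫ σ₂) := by
    have e1 : cat (cat g2 g3) g4 = fun t => B (Pool.Agent.NHQ.cc (Pool.Agent.NHQ.cc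
        (fun t : ℝ => (1 - t) • P3 (-(1 / 256)) 0 (-(1 / 8)) + t • P3 (-(1 / 256)) (1 / 768) (-(1 / 8)))
        (fun t : ℝ => (1 - t) • P3 (-(1 / 256)) (1 / 768) (-(1 / 8)) + t • P3 (-(1 / 256)) (1 / 768) (9 / 8)))
        (fun t : ℝ => (1 - t) • P3 (-(1 / 256)) (1 / 768) (9 / 8) + t • P3 (-(1 / 256)) 0 (9 / 8)) t) := by
      rw [← esa_cc, ← esa_cc]
      rfl
    rw [e1]
    refine (ws1.symm.trans (wβ.trans ws2 ?_) ?_).eq esa_convTD hBc ?_ ?_ ?_ ?_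
    · simp
    · rw [esa_cc0]
      simp
    · refine esa_cont (esa_cont (esa_segcont _ _) (esa_segcont _ _) ?_) (esa_segcont _ _) ?_
      · simp
      · rw [esa_cc1]
        simp
    · exact esa_ccmem (esa_ccmem (esa_segmem esa_convTD t1 t2) (esa_segmem esa_convTD t2 t3))
        (esa_segmem esa_convTD t3 t4)
    · rw [esa_cc0, esa_cc0, esa_cc0]
      simp
    · rw [esa_cc1, esa_cc1, esa_cc1]
      simp
  have kF := (k1.trans k3).trans k5
  have e2 : (inv ρ ≫ α ≫ σ₁) ≫ (inv σ₁ ≫ β ≫ σ₂) = inv ρ ≫ α ≫ β ≫ σ₂ := by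
    simp only [Category.assoc, IsIso.hom_inv_id_assoc]
  rw [e2] at kF
  have e3 : (inv ρ ≫ α ≫ β ≫ σ₂) ≫ inv σ₂ ≫ inv δ ≫ ρ = inv ρ ≫ α ≫ β ≫ inv δ ≫ ρ := by
    simp only [Category.assoc, IsIso.hom_inv_id_assoc]
  rw [e3] at kF
  exact kF

end Pool.Agent.NHX
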