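import Mathlib
import Pool.Agent.NHQ.Cnj
import Pool.Agent.NHR.Defs
import Pool.Agent.NHR.Pth
import Pool.Agent.NHR.Sgm
import Pool.Agent.NHR.Geo
import Pool.Agent.NHR.MdY

/-!
# NHX/Esb: the class in `N` of the loop with the value `lbe` (difficulty 3)

As NHX/Esa.  `lbe G κ B W 0 P D H = t0 * Xc G W * (t0 * G.val (seg B (P3 (-(1/256)) 0 (-(1/8))) (P3 (79/256) 0 (-(1/8)))))⁻¹`.  `F = cat (cat t0 Xc) (rv (cat t0 segB))` (value: `G.ct`, `val_rv` of NHR/Pth).  The `W`-segments are in `TD`, off `TS2` (`SP.hitW`): the first one has `re w = -1/4, im w = 1/256` (for `x = 0` `im w = 1/256` is neither `0` nor `-1/32`; `x ≤ 1/2 < 1`);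
the second one has `x = 1/2`; the third one has `re w = 1/256`, `im w = -1/4` (for `x = 1` `re w = 1/256`).  The `B`-segment has `x = -1/8`.  Joints: `W (P3 (-(1/4)) (1/256) 0) = B (ja ..) = B (P3 (-1/256) 0 (-1/8))` (`relA`), `W (P3 (1/256) (-(1/4)) 1) = B (jb ..) = B (P3 (79/256) 0 (-1/8))` (`relB`).
Class in `N`: `W` on the convex set `TD`: `Xc` with the connecting pieces from `W (0, 0)` and to `W (0, 1)` is `β`; `W (0, 0) = B (ja 0) = B (0, 0) = κ (P, 0)`, `W (0, 1) = B (jb (0, 1)) = B (5/16, 0) = κ (P + 5/16 D, 0)`; the connecting piece of `W` from `(0, 0)` to `P3 (-(1/4)) (1/256) 0` is the segment of `B` from `0` to `P3 (-1/256) 0 (-1/8)` (`relA`, `ja` is affine),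
which is the segment of `κ` from `(P, 0)` to `(P - D/256, H/8)`; similarly at `(0, 1)` (`relB`): the segment of `κ` from `(P + 5/16 D, 0)` to `(P + 79/256 D, H/8)`.  Everything in the chart `κ` is in the convex set `{‖v‖ < 1}`.
-/

open scoped Manifold ContDiff Topology
open Set Filter CategoryTheory
open Pool.Agent.RSG (E3 ex Thick)
open Pool.Agent.NHP
open Pool.Agent.NHQ (PC cl)
open Pool.Agent.NHR

universe u v

namespace Pool.Agent.NHX

section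
variable {N : Type*} [TopologicalSpace N] {M : Type*} [NormedAddCommGroup M] [NormedSpace ℝ M]

theorem esb_mem {C : Set M} (hC : Convex ℝ C) {p q : M} (hp : p ∈ C) (hq : q ∈ C) :
    ∀ t ∈ Icc (0 : ℝ) 1, (1 - t) • p + t • q ∈ C :=
  fun t ht => hC hp hq (by linarith [ht.2]) ht.1 (by ring)

theorem esb_tri {C : Set M} (hC : Convex ℝ C) {F : M → N} (hF : ContinuousOn F C) {p q r : M} (hp : p ∈ C) (hq : q ∈ C)
    (hr : r ∈ C) {x y z : N} {γ : FundamentalGroupoid.mk x ⟶ FundamentalGroupoid.mk y}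
    {δ : FundamentalGroupoid.mk y ⟶ FundamentalGroupoid.mk z} (h : PC (seg F p q) γ) (h' : PC (seg F q r) δ) :
    PC (seg F p r) (γ ≫ δ) := by
  have h1 := h.trans h'
  have h2 : NHQ.cc (seg F p q) (seg F q r) = fun t =>
      F (NHQ.cc (fun t => (1 - t) • p + t • q) (fun t => (1 - t) • q + t • r) t) := by
    funext t
    unfold NHQ.cc
    split_ifs <;> rfl
  rw [h2] at h1
  refine PC.convex hC hF (u := NHQ.cc (fun t => (1 - t) • p + t • q) (fun t => (1 - t) • q + t • r))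
    (v := fun t => (1 - t) • p + t • r) ?_ ?_ ?_ ?_ ?_ ?_ h1
  · unfold NHQ.cc
    apply Continuous.continuousOn
    refine Continuous.if_le (by fun_prop) (by fun_prop) continuous_id continuous_const ?_
    intro t ht
    rw [ht]
    norm_num
  · apply Continuous.continuousOn
    fun_prop
  · intro t ht
    unfold NHQ.cc
    split_ifs with h3
    · exact esb_mem hC hp hq _ ⟨by linarith [ht.1], by linarith⟩
    · exact esb_mem hC hq hr _ ⟨by linarith, by linarith [ht.2]⟩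
  · exact esb_mem hC hp hr
  · unfold NHQ.cc
    rw [if_pos (by norm_num)]
    simp
  · unfold NHQ.cc
    rw [if_neg (by norm_num)]
    norm_num

theorem esb_rev {F : M → N} {p q : M} {x y : N} {γ : FundamentalGroupoid.mk x ⟶ FundamentalGroupoid.mk y}
    (h : PC (seg F p q) γ) : PC (seg F q p) (inv γ) := by
  refine h.symm.congr ?_
  intro t _
  unfold seg
  congr 1
  rw [sub_sub_cancel, add_comm]

theorem esb_ex {C : Set M} (hC : Convex ℝ C) {F : M → N} (hF : ContinuousOn F C) {p q : M} (hp : p ∈ C) (hq : q ∈ C)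
    {x y : N} (hx : F p = x) (hy : F q = y) :
    ∃ γ : FundamentalGroupoid.mk x ⟶ FundamentalGroupoid.mk y, PC (seg F p q) γ := by
  refine NHQ.exists_PC ?_ ?_ ?_
  · refine hF.comp ?_ (esb_mem hC hp hq)
    apply Continuous.continuousOn
    fun_prop
  · rw [← hx]
    unfold seg
    simp
  · rw [← hy]
    unfold seg
    simp

theorem esb_hmt {Y : Set N} {f g : ℝ → N} (h : Hmt Y f g) {x y : N}
    {γ : FundamentalGroupoid.mk x ⟶ FundamentalGroupoid.mk y} (hf : PC f γ) : PC g γ := by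
  obtain ⟨H, h1, -, h2, h3⟩ := h
  refine PC.homotopic h1 (fun t ht => (h2 t ht).1) (fun t ht => (h2 t ht).2) ?_ ?_ hf
  · intro s hs
    rw [(h3 s hs).1, hf.zero]
  · intro s hs
    rw [(h3 s hs).2, hf.one]

theorem esb_cat {x y z : N} {f g : ℝ → N} {γ : FundamentalGroupoid.mk x ⟶ FundamentalGroupoid.mk y}
    {δ : FundamentalGroupoid.mk y ⟶ FundamentalGroupoid.mk z} (h : PC f γ) (h' : PC g δ) : PC (cat f g) (γ ≫ δ) :=
  h.trans h'

theorem esb_rv {x y : N} {f : ℝ → N} {γ : FundamentalGroupoid.mk x ⟶ FundamentalGroupoid.mk y} (h : PC f γ) :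
    PC (rv f) (inv γ) :=
  h.symm

end

theorem esb_P3 (x y z x' y' z' t : ℝ) :
    (1 - t) • P3 x y z + t • P3 x' y' z' = P3 ((1 - t) * x + t * x') ((1 - t) * y + t * y') ((1 - t) * z + t * z') := by
  unfold P3
  refine Prod.ext (Complex.ext ?_ ?_) ?_
  · simp
  · simp
  · simp

theorem esb_tube : Convex ℝ {q : ℝ × ℂ | ‖q.2‖ < 1} := by
  have h2 : Convex ℝ ((LinearMap.snd ℝ ℝ ℂ) ⁻¹' Metric.ball (0 : ℂ) 1) := (convex_ball (0 : ℂ) 1).linear_preimage _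
  have h3 : ((LinearMap.snd ℝ ℝ ℂ) ⁻¹' Metric.ball (0 : ℂ) 1) = {q : ℝ × ℂ | ‖q.2‖ < 1} := by
    ext q
    simp
  rwa [h3] at h2

section
variable {N : Type u} [TopologicalSpace N] [ChartedSpace E3 N]

omit [TopologicalSpace N] [ChartedSpace E3 N] in
theorem esb_foot {κ : ℝ × ℂ → N} {B : E → N} {P P₂ D H H' τ : ℝ} (L : Lnk κ B P P₂ D H H' τ) {x z : ℝ}
    (h : P3 x 0 z ∈ TD) (hz : z < 1 / 4) : B (P3 x 0 z) = κ (P + D * x, ((-(H * z) : ℝ) : ℂ)) := by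
  have h1 := L.foot (P3 x 0 z) h hz
  rw [h1]
  congr 1
  refine Prod.ext rfl ?_
  unfold P3
  refine Complex.ext ?_ ?_
  · simp
  · simp

theorem esb_WA {K : Set N} {B W : E → N} (S : SP K B W) {x y : ℝ} (h : P3 x y 0 ∈ TD) (h1 : -(9 / 64) ≤ -(32 * y))
    (h2 : -(32 * y) ≤ 73 / 64) : W (P3 x y 0) = B (P3 (x / 64) 0 (-(32 * y))) := by
  have h3 := S.relA (P3 x y 0) h (by unfold P3; norm_num) h1 h2
  rw [h3]
  congr 1
  unfold ja P3
  simp

theorem esb_WB {K : Set N} {B W : E → N} (S : SP K B W) {x y : ℝ} (h : P3 x y 1 ∈ TD) (h1 : -(9 / 64) ≤ -(32 * x))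
    (h2 : -(32 * x) ≤ 73 / 64) : W (P3 x y 1) = B (P3 (5 / 16 + y / 64) 0 (-(32 * x))) := by
  have h3 := S.relB (P3 x y 1) h (by unfold P3; norm_num) h1 h2
  rw [h3]
  congr 1
  unfold jb P3
  simp

end

variable {N : Type u} [TopologicalSpace N] [ChartedSpace E3 N] [T2Space N] {Γ : Type v} [Group Γ]

theorem esb_lbe {κ : ℝ × ℂ → N} (hκ : Thick κ) {B W : E → N} {P P₂ D H H' τ : ℝ} (L : Lnk κ B P P₂ D H H' τ)
    (S : SP (core κ) B W) (G : GHom (core κ)ᶜ Γ) (hG : Full G) {f : ℝ → N} (hf : PathOn (core κ)ᶜ f)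
    (f0 : f 0 = κ (0, 1 / 2)) (f1 : f 1 = κ (0, 1 / 2)) (hv : lbe G κ B W 0 P D H = G.val f) {a b d : N}
    {ρ : FundamentalGroupoid.mk a ⟶ FundamentalGroupoid.mk (κ (0, 1 / 2))}
    {α : FundamentalGroupoid.mk a ⟶ FundamentalGroupoid.mk b} {β : FundamentalGroupoid.mk b ⟶ FundamentalGroupoid.mk d}
    {δ : FundamentalGroupoid.mk a ⟶ FundamentalGroupoid.mk d} (hρ : PC (fun t => κ (0, ((t / 2 : ℝ) : ℂ))) ρ)
    (hα : PC (fun t => κ (P * t, 0)) α) (hβ : PC (fun t => W (0, t)) β)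
    (hδ : PC (fun t => κ ((P + 5 / 16 * D) * t, 0)) δ) :
    PC f (inv ρ ≫ α ≫ β ≫ inv δ ≫ ρ) := by
  have hD := L.Dpos
  have hD' := L.Dlt
  have hH := L.Hpos
  have hH' := L.Hlt
  -- the points of the chart `κ`
  set C : Set (ℝ × ℂ) := {q : ℝ × ℂ | ‖q.2‖ < 1} with hCdef
  have hC : Convex ℝ C := esb_tube
  have hκC : ContinuousOn κ C := thick_cont hκ
  set k1 : ℝ × ℂ := (0, 0) with hk1
  set k2 : ℝ × ℂ := (P, 0) with hk2
  set k3 : ℝ × ℂ := (P - D / 256, ((H / 8 : ℝ) : ℂ)) with hk3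
  set k4 : ℝ × ℂ := (P + 5 / 16 * D, 0) with hk4
  set k5 : ℝ × ℂ := (P + 79 / 256 * D, ((H / 8 : ℝ) : ℂ)) with hk5
  have nH : ‖((H / 8 : ℝ) : ℂ)‖ < 1 := by
    rw [Complex.norm_real, Real.norm_eq_abs, abs_of_pos (by linarith)]
    linarith
  have c0 : ((0, 1 / 2) : ℝ × ℂ) ∈ C := by
    change ‖(1 / 2 : ℂ)‖ < 1
    norm_num
  have c1 : k1 ∈ C := by
    change ‖(0 : ℂ)‖ < 1
    norm_num
  have c2 : k2 ∈ C := by
    change ‖(0 : ℂ)‖ < 1
    norm_num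
  have c3 : k3 ∈ C := nH
  have c4 : k4 ∈ C := by
    change ‖(0 : ℂ)‖ < 1
    norm_num
  have c5 : k5 ∈ C := nH
  -- the given classes as classes of segments
  have e0 : PC (seg κ k1 ((0, 1 / 2) : ℝ × ℂ)) ρ := by
    refine hρ.congr ?_
    intro t _
    unfold seg
    congr 1
    refine Prod.ext ?_ ?_
    · simp [hk1]
    · simp [hk1]
      ring
  have eα : PC (seg κ k1 k2) α := by
    refine hα.congr ?_
    intro t _
    unfold seg
    congr 1
    refine Prod.ext ?_ ?_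
    · simp [hk1, hk2]
      ring
    · simp [hk1, hk2]
  have eδ : PC (seg κ k1 k4) δ := by
    refine hδ.congr ?_
    intro t _
    unfold seg
    congr 1
    refine Prod.ext ?_ ?_
    · simp [hk1, hk4]
      ring
    · simp [hk1, hk4]
  have hb : κ k2 = b := by
    rw [← eα.one]
    unfold seg
    simp
  have hd : κ k4 = d := by
    rw [← eδ.one]
    unfold seg
    simp
  obtain ⟨ε₁, hε₁⟩ := esb_ex hC hκC c2 c3 hb rfl
  obtain ⟨ε₂, hε₂⟩ := esb_ex hC hκC c4 c5 hd rfl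
  -- the chart `W`
  have mW : ∀ {x y z : ℝ}, |x| ≤ 1 / 4 → |y| ≤ 1 / 4 → 0 ≤ z → z ≤ 1 → P3 x y z ∈ TD := by
    intro x y z hx hy h1 h2
    refine P3_mem ?_ (by linarith) (by linarith)
    have hx' := abs_le.1 hx
    have hy' := abs_le.1 hy
    nlinarith
  have hW : ContinuousOn W TD := cht_cont S.chtW
  set w0 : E := P3 0 0 0 with hw0
  set w1 : E := P3 0 0 1 with hw1
  set a1 : E := P3 (-(1 / 4)) (1 / 256) 0 with ha1
  set a2 : E := P3 (-(1 / 4)) (1 / 256) (1 / 2) with ha2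
  set a3 : E := P3 (1 / 256) (-(1 / 4)) (1 / 2) with ha3
  set a4 : E := P3 (1 / 256) (-(1 / 4)) 1 with ha4
  have t0 : w0 ∈ TD := mW (by norm_num) (by norm_num) (by norm_num) (by norm_num)
  have t1 : w1 ∈ TD := mW (by norm_num) (by norm_num) (by norm_num) (by norm_num)
  have ta1 : a1 ∈ TD := mW (by norm_num) (by norm_num [abs_of_pos]) (by norm_num) (by norm_num)
  have ta2 : a2 ∈ TD := mW (by norm_num) (by norm_num [abs_of_pos]) (by norm_num) (by norm_num)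
  have ta3 : a3 ∈ TD := mW (by norm_num [abs_of_pos]) (by norm_num) (by norm_num) (by norm_num)
  have ta4 : a4 ∈ TD := mW (by norm_num [abs_of_pos]) (by norm_num) (by norm_num) (by norm_num)
  have eβ : PC (seg W w0 w1) β := by
    refine hβ.congr ?_
    intro t _
    unfold seg
    congr 1
    rw [hw0, hw1, esb_P3]
    unfold P3
    refine Prod.ext (Complex.ext ?_ ?_) ?_
    · simp
    · simp
    · simp
  -- the pieces of `W` near the two pairs
  have q1 : ∀ t ∈ Icc (0 : ℝ) 1, seg W w0 a1 t = seg κ k2 k3 t := by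
    intro t ht
    unfold seg
    rw [hw0, ha1, esb_P3]
    have h1 : (1 - t) * (0 : ℝ) + t * 0 = 0 := by ring
    rw [h1, esb_WA S, esb_foot L]
    · congr 1
      refine Prod.ext ?_ ?_
      · simp [hk2, hk3]
        ring
      · simp [hk2, hk3]
        ring
    · refine P3_mem ?_ ?_ ?_
      · nlinarith [ht.1, ht.2]
      · nlinarith [ht.1, ht.2]
      · nlinarith [ht.1, ht.2]
    · nlinarith [ht.1, ht.2]
    · refine mW ?_ ?_ le_rfl zero_le_one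
      · rw [abs_le]
        constructor <;> nlinarith [ht.1, ht.2]
      · rw [abs_le]
        constructor <;> nlinarith [ht.1, ht.2]
    · nlinarith [ht.1, ht.2]
    · nlinarith [ht.1, ht.2]
  have q2 : ∀ t ∈ Icc (0 : ℝ) 1, seg W w1 a4 t = seg κ k4 k5 t := by
    intro t ht
    unfold seg
    rw [hw1, ha4, esb_P3]
    have h1 : (1 - t) * (1 : ℝ) + t * 1 = 1 := by ring
    rw [h1, esb_WB S, esb_foot L]
    · congr 1
      refine Prod.ext ?_ ?_
      · simp [hk4, hk5]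
        ring
      · simp [hk4, hk5]
        ring
    · refine P3_mem ?_ ?_ ?_
      · nlinarith [ht.1, ht.2]
      · nlinarith [ht.1, ht.2]
      · nlinarith [ht.1, ht.2]
    · nlinarith [ht.1, ht.2]
    · refine mW ?_ ?_ zero_le_one le_rfl
      · rw [abs_le]
        constructor <;> nlinarith [ht.1, ht.2]
      · rw [abs_le]
        constructor <;> nlinarith [ht.1, ht.2]
    · nlinarith [ht.1, ht.2]
    · nlinarith [ht.1, ht.2]
  -- the segment of `B`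
  set b1 : E := P3 (-(1 / 256)) 0 (-(1 / 8)) with hb1
  set b2 : E := P3 (79 / 256) 0 (-(1 / 8)) with hb2
  have tb1 : b1 ∈ TD := P3_mem (by norm_num) (by norm_num) (by norm_num)
  have tb2 : b2 ∈ TD := P3_mem (by norm_num) (by norm_num) (by norm_num)
  have q3 : ∀ t ∈ Icc (0 : ℝ) 1, seg B b1 b2 t = seg κ k3 k5 t := by
    intro t ht
    unfold seg
    rw [hb1, hb2, esb_P3]
    have h1 : (1 - t) * (0 : ℝ) + t * 0 = 0 := by ring
    have h2 : (1 - t) * (-(1 / 8) : ℝ) + t * (-(1 / 8)) = -(1 / 8) := by ring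
    rw [h1, h2, esb_foot L]
    · congr 1
      refine Prod.ext ?_ ?_
      · simp [hk3, hk5]
        ring
      · simp [hk3, hk5]
        ring
    · refine P3_mem ?_ (by norm_num) (by norm_num)
      nlinarith [ht.1, ht.2]
    · norm_num
  have i0 : (0 : ℝ) ∈ Icc (0 : ℝ) 1 := ⟨le_rfl, zero_le_one⟩
  have i1 : (1 : ℝ) ∈ Icc (0 : ℝ) 1 := ⟨zero_le_one, le_rfl⟩
  have j1 : W a1 = κ k3 := by
    have h := q1 1 i1
    rwa [seg_one, seg_one] at h
  have j4 : W a4 = κ k5 := by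
    have h := q2 1 i1
    rwa [seg_one, seg_one] at h
  have jb1 : B b1 = κ k3 := by
    have h := q3 0 i0
    rwa [seg_zero, seg_zero] at h
  have jb2 : B b2 = κ k5 := by
    have h := q3 1 i1
    rwa [seg_one, seg_one] at h
  have g1 : PC (seg W w0 a1) ε₁ := hε₁.congr q1
  have g2 : PC (seg W w1 a4) ε₂ := hε₂.congr q2
  -- classes
  obtain ⟨ξ₁, hξ₁⟩ := esb_ex TD_convex hW ta1 ta2 j1 rfl
  obtain ⟨ξ₂, hξ₂⟩ := esb_ex TD_convex hW ta2 ta3 rfl rfl
  obtain ⟨ξ₃, hξ₃⟩ := esb_ex TD_convex hW ta3 ta4 rfl j4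
  obtain ⟨σ, hσ⟩ := esb_ex hC hκC c3 c5 rfl rfl
  obtain ⟨θ, hθ⟩ := esb_ex hC hκC c0 c3 rfl rfl
  have hσB : PC (seg B b1 b2) σ := hσ.congr q3
  have r1 : θ = inv ρ ≫ α ≫ ε₁ :=
    hθ.unique (esb_tri hC hκC c0 c1 c3 (esb_rev e0) (esb_tri hC hκC c1 c2 c3 eα hε₁))
  have r2 : θ ≫ σ = inv ρ ≫ δ ≫ ε₂ :=
    (esb_tri hC hκC c0 c3 c5 hθ hσ).unique (esb_tri hC hκC c0 c1 c5 (esb_rev e0) (esb_tri hC hκC c1 c4 c5 eδ hε₂))
  have r3 : (ξ₁ ≫ ξ₂) ≫ ξ₃ = inv ε₁ ≫ β ≫ ε₂ :=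
    (esb_tri TD_convex hW ta1 ta3 ta4 (esb_tri TD_convex hW ta1 ta2 ta3 hξ₁ hξ₂) hξ₃).unique
      (esb_tri TD_convex hW ta1 t0 ta4 (esb_rev g1) (esb_tri TD_convex hW t0 t1 ta4 eβ g2))
  -- the loop `F`
  have hF : PC (cat (cat (seg κ ((0, 1 / 2) : ℝ × ℂ) k3) (cat (cat (seg W a1 a2) (seg W a2 a3)) (seg W a3 a4)))
      (rv (cat (seg κ ((0, 1 / 2) : ℝ × ℂ) k3) (seg B b1 b2)))) (inv ρ ≫ α ≫ β ≫ inv δ ≫ ρ) := by
    have h := esb_cat (esb_cat hθ (esb_cat (esb_cat hξ₁ hξ₂) hξ₃)) (esb_rv (esb_cat hθ hσB))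
    have h2 : (θ ≫ (ξ₁ ≫ ξ₂) ≫ ξ₃) ≫ inv (θ ≫ σ) = inv ρ ≫ α ≫ β ≫ inv δ ≫ ρ := by
      have h3 : inv (θ ≫ σ) = inv (inv ρ ≫ δ ≫ ε₂) := by simp only [r2]
      rw [h3, r3, r1]
      simp
    rwa [h2] at h
  -- the values
  have p1 : PathOn (core κ)ᶜ (seg κ ((0, 1 / 2) : ℝ × ℂ) k3) := by
    refine K_path hκ 1 ⟨c0, ?_⟩ ⟨c3, ?_⟩
    · simp
    · simp [hk3]
      linarith
  have p2 : PathOn (core κ)ᶜ (seg W a1 a2) := by
    refine W_path S 0 3 ⟨⟨ta1, ?_⟩, ?_⟩ ⟨⟨ta2, ?_⟩, ?_⟩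
    · change (0 : ℝ) < 1 / 256
      norm_num
    · change (0 : ℝ) < 1
      norm_num
    · change (0 : ℝ) < 1 / 256
      norm_num
    · change (1 / 2 : ℝ) < 1
      norm_num
  have p3 : PathOn (core κ)ᶜ (seg W a2 a3) := by
    refine W_path S 2 3 ⟨⟨ta2, ?_⟩, ?_⟩ ⟨⟨ta3, ?_⟩, ?_⟩
    · change (0 : ℝ) < 1 / 2
      norm_num
    · change (1 / 2 : ℝ) < 1
      norm_num
    · change (0 : ℝ) < 1 / 2
      norm_num
    · change (1 / 2 : ℝ) < 1
      norm_num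
  have p4 : PathOn (core κ)ᶜ (seg W a3 a4) := by
    refine W_path S 2 0 ⟨⟨ta3, ?_⟩, ?_⟩ ⟨⟨ta4, ?_⟩, ?_⟩
    · change (0 : ℝ) < 1 / 2
      norm_num
    · change (0 : ℝ) < 1 / 256
      norm_num
    · change (0 : ℝ) < 1
      norm_num
    · change (0 : ℝ) < 1 / 256
      norm_num
  have p5 : PathOn (core κ)ᶜ (seg B b1 b2) := by
    refine B_path S 3 3 ⟨⟨tb1, ?_⟩, ?_⟩ ⟨⟨tb2, ?_⟩, ?_⟩
    · change (-(1 / 8) : ℝ) < 0
      norm_num
    · change (-(1 / 8) : ℝ) < 1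
      norm_num
    · change (-(1 / 8) : ℝ) < 0
      norm_num
    · change (-(1 / 8) : ℝ) < 1
      norm_num
  have m1 : seg W a1 a2 1 = seg W a2 a3 0 := by rw [seg_one, seg_zero]
  have p6 : PathOn (core κ)ᶜ (cat (seg W a1 a2) (seg W a2 a3)) := p2.cat p3 m1
  have m2 : cat (seg W a1 a2) (seg W a2 a3) 1 = seg W a3 a4 0 := by rw [cat_one, seg_one, seg_zero]
  have p7 : PathOn (core κ)ᶜ (cat (cat (seg W a1 a2) (seg W a2 a3)) (seg W a3 a4)) := p6.cat p4 m2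
  have m3 : seg κ ((0, 1 / 2) : ℝ × ℂ) k3 1 = cat (cat (seg W a1 a2) (seg W a2 a3)) (seg W a3 a4) 0 := by
    rw [cat_zero, cat_zero, seg_one, seg_zero, j1]
  have p8 := p1.cat p7 m3
  have m4 : seg κ ((0, 1 / 2) : ℝ × ℂ) k3 1 = seg B b1 b2 0 := by rw [seg_one, seg_zero, jb1]
  have p9 := p1.cat p5 m4
  have m5 : cat (seg κ ((0, 1 / 2) : ℝ × ℂ) k3) (cat (cat (seg W a1 a2) (seg W a2 a3)) (seg W a3 a4)) 1 =
      rv (cat (seg κ ((0, 1 / 2) : ℝ × ℂ) k3) (seg B b1 b2)) 0 := by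
    rw [cat_one, cat_one, rv_zero, cat_one, seg_one, seg_one, j4, jb2]
  have p10 := p8.cat p9.rv m5
  have v1 : G.val (cat (cat (seg κ ((0, 1 / 2) : ℝ × ℂ) k3) (cat (cat (seg W a1 a2) (seg W a2 a3)) (seg W a3 a4)))
      (rv (cat (seg κ ((0, 1 / 2) : ℝ × ℂ) k3) (seg B b1 b2)))) = lbe G κ B W 0 P D H := by
    rw [G.ct _ _ p8 p9.rv m5, G.ct _ _ p1 p7 m3, G.ct _ _ p6 p4 m2, G.ct _ _ p2 p3 m1, G.val_rv p9,
      G.ct _ _ p1 p5 m4]
    rfl
  refine esb_hmt (hG.inj _ _ p10 hf ?_ ?_ (v1.trans hv)) hF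
  · rw [cat_zero, cat_zero, seg_zero, f0]
  · rw [cat_one, rv_one, cat_zero, seg_zero, f1]

end Pool.Agent.NHX
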